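import Pool.Agent.ShufVar.Cl

/-!
MP_cf3bcc_lc: a language of kind `θ` containing a product contains its closure.
-/

namespace Pool.Agent.ShufVar

open Classical in
/-- inflation of a labelled letter -/
noncomputable def infl {A : Type} {N : ℕ} (e : Fin N → Atom A) (n : ℕ) (x : A × Fin N) :
    List (A × Fin N) :=
  if isStar (e x.2) then List.replicate n x else [x]

/-- inflation, letters only -/
noncomputable def iw {A : Type} {N : ℕ} (e : Fin N → Atom A) (n : ℕ) (x : A × Fin N) : List A :=
  (infl e n x).map Prod.fst

theorem wpow_single {A : Type} (c : A) (n : ℕ) : wpow [c] n = List.replicate n c := by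
  induction n with
  | zero => rfl
  | succ n ih => rw [wpow_succ, ih, List.replicate_succ]; rfl

section

variable {A : Type} {N : ℕ} {e : Fin N → Atom A}

theorem iw_star {n : ℕ} {x : A × Fin N} (h : isStar (e x.2)) : iw e n x = wpow [x.1] n := by
  rw [iw, infl, if_pos h, List.map_replicate, wpow_single]

theorem iw_opt {n : ℕ} {x : A × Fin N} (h : ¬ isStar (e x.2)) : iw e n x = [x.1] := by
  rw [iw, infl, if_neg h, List.map_singleton]

theorem iw_one (x : A × Fin N) : iw e 1 x = [x.1] := by
  by_cases h : isStar (e x.2)
  · rw [iw_star h, wpow_one]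
  · rw [iw_opt h]

theorem iw_mono (x : A × Fin N) {n m : ℕ} (h : n ≤ m) : (iw e n x).Sublist (iw e m x) := by
  by_cases hs : isStar (e x.2)
  · rw [iw_star hs, iw_star hs]
    exact wpow_mono _ h
  · rw [iw_opt hs, iw_opt hs]

theorem iwl_mono (T : List (A × Fin N)) {n m : ℕ} (h : n ≤ m) :
    (T.flatMap (iw e n)).Sublist (T.flatMap (iw e m)) := by
  induction T with
  | nil => exact List.Sublist.refl _
  | cons x T ih =>
    rw [List.flatMap_cons, List.flatMap_cons]
    exact (iw_mono x h).append ih

theorem swap_blocks {θ : Kind} {L : Language A} (hL : Cond θ L) {x y : A × Fin N}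
    (hxy : okk θ e x.2 y.2) (hlt : y.2 < x.2) (p q : ℕ → List A)
    (hp : ∀ n m, n ≤ m → (p n).Sublist (p m)) (hq : ∀ n m, n ≤ m → (q n).Sublist (q m))
    (h : ∀ n, p n ++ iw e n y ++ iw e n x ++ q n ∈ L) :
    ∀ n, p n ++ iw e n x ++ iw e n y ++ q n ∈ L := by
  obtain ⟨hsub, hR, hLL, hC⟩ := hL
  have h' : ∀ n₀ n, p n₀ ++ iw e n y ++ iw e n x ++ q n₀ ∈ L := by
    intro n₀ n
    refine hsub _ _ ?_ (h (max n₀ n))
    exact (((hp _ _ (le_max_left _ _)).append (iw_mono y (le_max_right _ _))).append
      (iw_mono x (le_max_right _ _))).append (hq _ _ (le_max_left _ _))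
  intro n₀
  by_cases hx : isStar (e x.2)
  · by_cases hy : isStar (e y.2)
    · have hss : ¬ θ.ss := fun hss => absurd (hxy.2.2.2 hx hy hss) (not_le.2 hlt)
      have h1 := hC hss (p n₀) [y.1] [x.1] (q n₀) (fun n => by
        have := h' n₀ n
        rwa [iw_star hx, iw_star hy] at this) n₀
      rwa [iw_star hx, iw_star hy]
    · have hso : ¬ θ.so := fun hso => absurd (hxy.2.2.1 hx hy hso) (not_lt.2 hlt.le)
      have h1 := hLL hso (p n₀) [x.1] [y.1] (q n₀) (fun n => by
        have := h' n₀ n
        rwa [iw_star hx, iw_opt hy] at this) n₀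
      rwa [iw_star hx, iw_opt hy]
  · by_cases hy : isStar (e y.2)
    · have hos : ¬ θ.os := fun hos => absurd (hxy.2.1 hx hy hos) (not_lt.2 hlt.le)
      have h1 := hR hos (p n₀) [y.1] [x.1] (q n₀) (fun n => by
        have := h' n₀ n
        rwa [iw_opt hx, iw_star hy] at this) n₀
      rwa [iw_opt hx, iw_star hy]
    · exact absurd (hxy.1 hx hy) (not_lt.2 hlt.le)

theorem move_left {θ : Kind} {L : Language A} (hL : Cond θ L) {x : A × Fin N} :
    ∀ (T : List (A × Fin N)) (_ : ∀ y ∈ T, okk θ e x.2 y.2 ∧ y.2 < x.2) (p q : ℕ → List A)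
    (_ : ∀ n m, n ≤ m → (p n).Sublist (p m)) (_ : ∀ n m, n ≤ m → (q n).Sublist (q m))
    (_ : ∀ n, p n ++ T.flatMap (iw e n) ++ iw e n x ++ q n ∈ L),
    ∀ n, p n ++ iw e n x ++ T.flatMap (iw e n) ++ q n ∈ L := by
  intro T
  induction T with
  | nil =>
    intro _ p q _ _ h n
    simpa using h n
  | cons y T ih =>
    intro hT p q hp hq h
    have h1 := ih (fun z hz => hT z (List.mem_cons_of_mem _ hz)) (fun n => p n ++ iw e n y) q
      (fun n m hnm => (hp n m hnm).append (iw_mono y hnm)) hq (fun n => by
        have := h n
        rw [List.flatMap_cons] at this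
        simpa only [List.append_assoc] using this)
    have h2 := swap_blocks hL (hT y (List.mem_cons_self ..)).1 (hT y (List.mem_cons_self ..)).2 p
      (fun n => T.flatMap (iw e n) ++ q n) hp
      (fun n m hnm => (iwl_mono T hnm).append (hq n m hnm)) (fun n => by
        have := h1 n
        simpa only [List.append_assoc] using this)
    intro n
    have := h2 n
    rw [List.flatMap_cons]
    simpa only [List.append_assoc] using this

/-- the order of the labels -/
def lle (x y : A × Fin N) : Prop := x.2 ≤ y.2

instance : DecidableRel (lle (A := A) (N := N)) := fun x y => inferInstanceAs (Decidable (x.2 ≤ y.2))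

instance : Std.Total (lle (A := A) (N := N)) := ⟨fun x y => le_total x.2 y.2⟩

instance : IsTrans (A × Fin N) (lle (A := A) (N := N)) := ⟨fun _ _ _ h h' => le_trans (α := Fin N) h h'⟩

theorem unsort {θ : Kind} {L : Language A} (hL : Cond θ L) : ∀ (W : List (A × Fin N))
    (_ : W.Pairwise (fun x y => okk θ e x.2 y.2)) (p : ℕ → List A)
    (_ : ∀ n m, n ≤ m → (p n).Sublist (p m))
    (_ : ∀ n, p n ++ (W.insertionSort lle).flatMap (iw e n) ∈ L),
    ∀ n, p n ++ W.flatMap (iw e n) ∈ L := by
  intro W
  induction W with
  | nil =>
    intro _ p _ h n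
    simpa using h n
  | cons x W ih =>
    intro hW p hp h
    rw [List.pairwise_cons] at hW
    set S := W.insertionSort lle with hS
    have h1 : (x :: W).insertionSort lle = (S.takeWhile fun b => ¬ lle x b) ++
        x :: (S.dropWhile fun b => ¬ lle x b) := by
      rw [List.insertionSort_cons, List.orderedInsert_eq_take_drop]
    have h2 := move_left hL (x := x) (S.takeWhile fun b => ¬ lle x b) (by
      intro y hy
      have h3 := List.mem_takeWhile_imp hy
      have h4 : y ∈ W := (List.mem_insertionSort lle).1 ((List.takeWhile_sublist _).subset hy)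
      refine ⟨hW.1 y h4, ?_⟩
      have h5 : ¬ x.2 ≤ y.2 := by simpa [lle] using h3
      exact not_le.1 h5) p (fun n => (S.dropWhile fun b => ¬ lle x b).flatMap (iw e n)) hp
      (fun n m hnm => iwl_mono _ hnm) (fun n => by
        have := h n
        rw [h1, List.flatMap_append, List.flatMap_cons] at this
        simpa only [List.append_assoc] using this)
    have h6 := ih hW.2 (fun n => p n ++ iw e n x)
      (fun n m hnm => (hp n m hnm).append (iw_mono x hnm)) (fun n => by
        have := h2 n
        have h7 : S.flatMap (iw e n) = (S.takeWhile fun b => ¬ lle x b).flatMap (iw e n) ++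
            (S.dropWhile fun b => ¬ lle x b).flatMap (iw e n) := by
          rw [← List.flatMap_append, List.takeWhile_append_dropWhile]
        change p n ++ iw e n x ++ S.flatMap (iw e n) ∈ L
        rw [h7]
        simpa only [List.append_assoc] using this)
    intro n
    have := h6 n
    rw [List.flatMap_cons]
    simpa only [List.append_assoc] using this

theorem cl_le {θ : Kind} {L : Language A} (hL : Cond θ L) (h : ∀ w ∈ Cl full e, w ∈ L) :
    ∀ w ∈ Cl θ e, w ∈ L := by
  rintro _ ⟨W, rfl, hW1, hW2⟩
  have key := unsort hL W hW2 (fun _ => []) (fun _ _ _ => List.Sublist.refl _) (fun n => by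
    rw [List.nil_append]
    apply h
    refine ⟨(W.insertionSort lle).flatMap (infl e n), ?_, ?_, ?_⟩
    · rw [List.map_flatMap]
      rfl
    · intro x hx
      obtain ⟨y, hy, hxy⟩ := List.mem_flatMap.1 hx
      have hxy' : x = y := by
        unfold infl at hxy
        split_ifs at hxy
        · exact List.eq_of_mem_replicate hxy
        · simpa using hxy
      subst hxy'
      exact hW1 x ((List.mem_insertionSort lle).1 hy)
    · rw [List.pairwise_flatMap]
      have hmem : ∀ x y, x ∈ infl e n y → x = y := by
        intro x y hxy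
        unfold infl at hxy
        split_ifs at hxy
        · exact List.eq_of_mem_replicate hxy
        · simpa using hxy
      constructor
      · intro y _
        by_cases hs : isStar (e y.2)
        · refine List.pairwise_of_forall_mem_list ?_
          intro x hx z hz
          rw [hmem x y hx, hmem z y hz]
          exact ⟨fun h => absurd hs h, fun h => absurd hs h, fun _ h => absurd hs h,
            fun _ _ _ => le_refl _⟩
        · rw [infl, if_neg hs]
          exact List.pairwise_singleton _ _
      · have h1 : (W.insertionSort lle).Pairwise lle := List.pairwise_insertionSort lle W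
        have h2 : (W.insertionSort lle).Pairwise (fun x y : A × Fin N =>
            ¬ isStar (e x.2) → ¬ isStar (e y.2) → x.2 ≠ y.2) := by
          refine (List.Perm.pairwise_iff ?_ (List.perm_insertionSort lle W)).2 ?_
          · intro x y h hy hx heq
            exact h hx hy heq.symm
          · refine hW2.imp ?_
            intro x y h hx hy heq
            have h3 := h.1 hx hy
            rw [heq] at h3
            exact lt_irrefl _ h3
        refine (h1.and h2).imp ?_
        rintro x y ⟨hle, hne⟩ x' hx' y' hy'
        rw [hmem x' x hx', hmem y' y hy']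
        have hle' : x.2 ≤ y.2 := hle
        refine ⟨fun a b => lt_of_le_of_ne hle' (hne a b), fun a b _ => lt_of_le_of_ne hle' ?_,
          fun a b _ => lt_of_le_of_ne hle' ?_, fun _ _ _ => hle'⟩
        · intro heq; rw [heq] at a; exact a b
        · intro heq; rw [heq] at a; exact b a)
  have h1 := key 1
  rw [List.nil_append] at h1
  have h2 : W.flatMap (iw e 1) = W.map Prod.fst := by
    clear hW1 hW2 key h1
    induction W with
    | nil => rfl
    | cons x W ih => rw [List.flatMap_cons, ih, iw_one, List.map_cons, List.singleton_append]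
  rwa [h2] at h1

end

end Pool.Agent.ShufVar
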