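import Pool.Agent.ShufVar.Lab

/-!
MP_cf3bcc_lc: products of letters and stars, and their closures.
-/

namespace Pool.Agent.ShufVar

/-- a factor of a product: `(1 + a)` or `B*` -/
inductive Atom (A : Type) : Type where
  | opt (a : A) : Atom A
  | star (B : Set A) : Atom A

/-- the letter `a` may be used at the factor -/
def fits {A : Type} (a : A) : Atom A → Prop
  | .opt c => a = c
  | .star B => a ∈ B

/-- the factor is a star -/
def isStar {A : Type} : Atom A → Prop
  | .opt _ => False
  | .star _ => True

/-- which order constraints are imposed -/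
structure Kind : Type where
  os : Prop
  so : Prop
  ss : Prop

/-- all constraints -/
def full : Kind := ⟨True, True, True⟩

/-- the constraint between the place `i` of a letter and the place `j` of a later letter -/
def okk (θ : Kind) {A : Type} {N : ℕ} (e : Fin N → Atom A) (i j : Fin N) : Prop :=
  (¬ isStar (e i) → ¬ isStar (e j) → i < j) ∧
  (¬ isStar (e i) → isStar (e j) → θ.os → i < j) ∧
  (isStar (e i) → ¬ isStar (e j) → θ.so → i < j) ∧
  (isStar (e i) → isStar (e j) → θ.ss → i ≤ j)

/-- the closure of kind `θ` of the product `e` -/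
def Cl (θ : Kind) {A : Type} {N : ℕ} (e : Fin N → Atom A) : Language A :=
  Lab (fun a j => fits a (e j)) (okk θ e)

theorem cl_full_le (θ : Kind) {A : Type} {N : ℕ} (e : Fin N → Atom A) {w : List A}
    (h : w ∈ Cl full e) : w ∈ Cl θ e := by
  obtain ⟨W, h1, h2, h3⟩ := h
  exact ⟨W, h1, h2, h3.imp fun h => ⟨h.1, fun a b _ => h.2.1 a b trivial,
    fun a b _ => h.2.2.1 a b trivial, fun a b _ => h.2.2.2 a b trivial⟩⟩

/-- the conditions on the languages of the variety of kind `θ` -/
def Cond (θ : Kind) {A : Type} (L : Language A) : Prop :=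
  SubC L ∧ (¬ θ.os → MoveR L) ∧ (¬ θ.so → MoveL L) ∧ (¬ θ.ss → CommW L)

/-! ### shuffles of languages given by labellings -/

section shuf

variable {A Λ Λ' : Type}

/-- the left part of a labelled letter -/
def lft (x : A × (Λ ⊕ Λ')) : Option (A × Λ) :=
  match x.2 with
  | .inl l => some (x.1, l)
  | .inr _ => none

/-- the right part of a labelled letter -/
def rgt (x : A × (Λ ⊕ Λ')) : Option (A × Λ') :=
  match x.2 with
  | .inl _ => none
  | .inr l => some (x.1, l)

theorem sh_filterMap (W : List (A × (Λ ⊕ Λ'))) :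
    Sh ((W.filterMap lft).map Prod.fst) ((W.filterMap rgt).map Prod.fst) (W.map Prod.fst) := by
  induction W with
  | nil => exact Sh.nil
  | cons x W ih =>
    obtain ⟨a, l⟩ := x
    cases l with
    | inl l => exact Sh.left a ih
    | inr l => exact Sh.right a ih

theorem exists_merge {u v w : List A} (h : Sh u v w) : ∀ (U : List (A × Λ)) (V : List (A × Λ')),
    U.map Prod.fst = u → V.map Prod.fst = v → ∃ W : List (A × (Λ ⊕ Λ')), W.map Prod.fst = w ∧
      W.filterMap lft = U ∧ W.filterMap rgt = V := by
  induction h with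
  | nil =>
    intro U V hU hV
    rw [List.map_eq_nil_iff] at hU hV
    subst hU hV
    exact ⟨[], rfl, rfl, rfl⟩
  | left c _ ih =>
    intro U V hU hV
    obtain ⟨x, U', rfl, rfl, hU'⟩ := List.map_eq_cons_iff.1 hU
    obtain ⟨W, h1, h2, h3⟩ := ih U' V hU' hV
    exact ⟨(x.1, Sum.inl x.2) :: W, by rw [List.map_cons, h1],
      congrArg (List.cons x) h2, (List.filterMap_cons_none rfl).trans h3⟩
  | right c _ ih =>
    intro U V hU hV
    obtain ⟨x, V', rfl, rfl, hV'⟩ := List.map_eq_cons_iff.1 hV
    obtain ⟨W, h1, h2, h3⟩ := ih U V' hU hV'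
    exact ⟨(x.1, Sum.inr x.2) :: W, by rw [List.map_cons, h1],
      (List.filterMap_cons_none rfl).trans h2, congrArg (List.cons x) h3⟩

/-- labels of a shuffle -/
def sumP (P : A → Λ → Prop) (P' : A → Λ' → Prop) (a : A) : Λ ⊕ Λ' → Prop
  | .inl l => P a l
  | .inr l => P' a l

/-- order constraints of a shuffle -/
def sumR (R : Λ → Λ → Prop) (R' : Λ' → Λ' → Prop) : Λ ⊕ Λ' → Λ ⊕ Λ' → Prop
  | .inl l, .inl m => R l m
  | .inr l, .inr m => R' l m
  | _, _ => True

theorem shuf_lab (P : A → Λ → Prop) (P' : A → Λ' → Prop) (R : Λ → Λ → Prop)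
    (R' : Λ' → Λ' → Prop) : shuf (Lab P R) (Lab P' R') = Lab (sumP P P') (sumR R R') := by
  have key : ∀ W : List (A × (Λ ⊕ Λ')),
      ((∀ x ∈ W, sumP P P' x.1 x.2) ∧ W.Pairwise (fun x y => sumR R R' x.2 y.2)) ↔
      (((∀ x ∈ W.filterMap lft, P x.1 x.2) ∧
        (W.filterMap lft).Pairwise (fun x y => R x.2 y.2)) ∧
      ((∀ x ∈ W.filterMap rgt, P' x.1 x.2) ∧
        (W.filterMap rgt).Pairwise (fun x y => R' x.2 y.2))) := by
    intro W
    induction W with
    | nil => simp
    | cons x W ih =>
      obtain ⟨a, l⟩ := x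
      cases l with
      | inl l =>
        have h1 : List.filterMap lft ((a, Sum.inl l) :: W) = (a, l) :: W.filterMap lft := by
          simp [lft]
        have h2 : List.filterMap rgt ((a, Sum.inl l) :: W) = W.filterMap (rgt (Λ := Λ)) :=
          List.filterMap_cons_none rfl
        have h3 : (∀ y ∈ W, sumR R R' (Sum.inl l) y.2) ↔ ∀ y ∈ W.filterMap lft, R l y.2 := by
          constructor
          · intro h y hy
            obtain ⟨⟨c, m⟩, hz, hzy⟩ := List.mem_filterMap.1 hy
            cases m with
            | inl m =>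
              simp only [lft, Option.some.injEq] at hzy
              subst hzy
              exact h _ hz
            | inr m => simp [lft] at hzy
          · intro h y hy
            obtain ⟨c, m⟩ := y
            cases m with
            | inl m => exact h (c, m) (List.mem_filterMap.2 ⟨_, hy, rfl⟩)
            | inr m => trivial
        rw [h1, h2, List.forall_mem_cons, List.forall_mem_cons, List.pairwise_cons,
          List.pairwise_cons]
        simp only
        rw [h3]
        have h4 : sumP P P' a (Sum.inl l) ↔ P a l := Iff.rfl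
        rw [h4]
        tauto
      | inr l =>
        have h1 : List.filterMap rgt ((a, Sum.inr l) :: W) = (a, l) :: W.filterMap rgt := by
          simp [rgt]
        have h2 : List.filterMap lft ((a, Sum.inr l) :: W) = W.filterMap (lft (Λ' := Λ')) :=
          List.filterMap_cons_none rfl
        have h3 : (∀ y ∈ W, sumR R R' (Sum.inr l) y.2) ↔ ∀ y ∈ W.filterMap rgt, R' l y.2 := by
          constructor
          · intro h y hy
            obtain ⟨⟨c, m⟩, hz, hzy⟩ := List.mem_filterMap.1 hy
            cases m with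
            | inl m => simp [rgt] at hzy
            | inr m =>
              simp only [rgt, Option.some.injEq] at hzy
              subst hzy
              exact h _ hz
          · intro h y hy
            obtain ⟨c, m⟩ := y
            cases m with
            | inl m => trivial
            | inr m => exact h (c, m) (List.mem_filterMap.2 ⟨_, hy, rfl⟩)
        rw [h1, h2, List.forall_mem_cons, List.forall_mem_cons, List.pairwise_cons,
          List.pairwise_cons]
        simp only
        rw [h3]
        have h4 : sumP P P' a (Sum.inr l) ↔ P' a l := Iff.rfl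
        rw [h4]
        tauto
  ext w
  constructor
  · intro h
    obtain ⟨u, ⟨U, rfl, hU1, hU2⟩, v, ⟨V, rfl, hV1, hV2⟩, hs⟩ := mem_shuf.1 h
    obtain ⟨W, h1, h2, h3⟩ := exists_merge hs U V rfl rfl
    refine ⟨W, h1, (key W).2 ?_⟩
    rw [h2, h3]
    exact ⟨⟨hU1, hU2⟩, ⟨hV1, hV2⟩⟩
  · rintro ⟨W, rfl, hW⟩
    obtain ⟨h1, h2⟩ := (key W).1 hW
    exact mem_shuf.2 ⟨_, ⟨_, rfl, h1⟩, _, ⟨_, rfl, h2⟩, sh_filterMap W⟩

end shuf

/-- shuffles of two closures satisfy the conditions -/
theorem cond_shuf_cl (θ : Kind) {A : Type} {N N' : ℕ} (e : Fin N → Atom A)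
    (e' : Fin N' → Atom A) (hθ : θ.ss → θ.os ∧ θ.so) : Cond θ (shuf (Cl θ e) (Cl θ e')) := by
  unfold Cl
  rw [shuf_lab]
  have hO : ∀ l : Fin N ⊕ Fin N', ¬ (Sum.elim (fun j => isStar (e j)) (fun j => isStar (e' j)) l) →
      ¬ sumR (okk θ e) (okk θ e') l l := by
    rintro (l | l) h1 h2
    · exact lt_irrefl _ (h2.1 h1 h1)
    · exact lt_irrefl _ (h2.1 h1 h1)
  refine ⟨lab_sub _ _, ?_, ?_, ?_⟩
  · intro hos
    refine lab_moveR (St := Sum.elim (fun j => isStar (e j)) (fun j => isStar (e' j))) hO ?_
    rintro (l | l) (l' | l') hs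
    · exact ⟨fun _ h => absurd hs h, fun _ _ h => absurd h hos, fun _ h => absurd hs h,
        fun _ _ h => absurd (hθ h).1 hos⟩
    · trivial
    · trivial
    · exact ⟨fun _ h => absurd hs h, fun _ _ h => absurd h hos, fun _ h => absurd hs h,
        fun _ _ h => absurd (hθ h).1 hos⟩
  · intro hso
    refine lab_moveL (St := Sum.elim (fun j => isStar (e j)) (fun j => isStar (e' j))) hO ?_
    rintro (l | l) (l' | l') hs
    · exact ⟨fun h => absurd hs h, fun h => absurd hs h, fun _ _ h => absurd h hso,
        fun _ _ h => absurd (hθ h).2 hso⟩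
    · trivial
    · trivial
    · exact ⟨fun h => absurd hs h, fun h => absurd hs h, fun _ _ h => absurd h hso,
        fun _ _ h => absurd (hθ h).2 hso⟩
  · intro hss
    refine lab_comm (St := Sum.elim (fun j => isStar (e j)) (fun j => isStar (e' j))) hO ?_
    rintro (l | l) (l' | l') hs hs'
    · exact ⟨fun h => absurd hs h, fun h => absurd hs h, fun _ h => absurd hs' h,
        fun _ _ h => absurd h hss⟩
    · trivial
    · trivial
    · exact ⟨fun h => absurd hs h, fun h => absurd hs h, fun _ h => absurd hs' h,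
        fun _ _ h => absurd h hss⟩

end Pool.Agent.ShufVar
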