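import Pool.Agent.ShufVar.Gen

/-!
MP_cf3bcc_lc: the five noncommutative positive varieties of subword closed languages that are
closed under shuffle.
-/

namespace Pool.Agent.ShufVar

/-! ### the conditions are preserved -/

section cond

variable {A B : Type} {θ : Kind} {L M : Language A}

theorem or_all (hL : SubC L) (hM : SubC M) (f : ℕ → List A)
    (hf : ∀ n m, n ≤ m → (f n).Sublist (f m)) (h : ∀ n, f n ∈ L ∨ f n ∈ M) :
    (∀ n, f n ∈ L) ∨ (∀ n, f n ∈ M) := by
  by_contra hcon
  push Not at hcon
  obtain ⟨⟨n, hn⟩, ⟨m, hm⟩⟩ := hcon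
  rcases h (max n m) with h | h
  · exact hn (hL _ _ (hf _ _ (le_max_left _ _)) h)
  · exact hm (hM _ _ (hf _ _ (le_max_right _ _)) h)

theorem cond_union (hL : Cond θ L) (hM : Cond θ M) :
    Cond θ ({w | w ∈ L ∨ w ∈ M} : Language A) := by
  obtain ⟨h1, h2, h3, h4⟩ := hL
  obtain ⟨k1, k2, k3, k4⟩ := hM
  refine ⟨fun u v hv hu => hu.imp (h1 u v hv) (k1 u v hv), fun ho => ?_, fun ho => ?_,
    fun ho => ?_⟩
  · intro p x y q h
    rcases or_all h1 k1 (fun n => p ++ wpow x n ++ y ++ q)
      (fun n m hnm => (((List.Sublist.refl p).append (wpow_mono x hnm)).append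
        (List.Sublist.refl y)).append (List.Sublist.refl q)) h with h | h
    · exact fun n => Or.inl (h2 ho p x y q h n)
    · exact fun n => Or.inr (k2 ho p x y q h n)
  · intro p x y q h
    rcases or_all h1 k1 (fun n => p ++ y ++ wpow x n ++ q)
      (fun n m hnm => ((List.Sublist.refl (p ++ y)).append (wpow_mono x hnm)).append
        (List.Sublist.refl q)) h with h | h
    · exact fun n => Or.inl (h3 ho p x y q h n)
    · exact fun n => Or.inr (k3 ho p x y q h n)
  · intro p x y q h
    rcases or_all h1 k1 (fun n => p ++ wpow x n ++ wpow y n ++ q)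
      (fun n m hnm => (((List.Sublist.refl p).append (wpow_mono x hnm)).append
        (wpow_mono y hnm)).append (List.Sublist.refl q)) h with h | h
    · exact fun n => Or.inl (h4 ho p x y q h n)
    · exact fun n => Or.inr (k4 ho p x y q h n)

theorem cond_inter (hL : Cond θ L) (hM : Cond θ M) :
    Cond θ ({w | w ∈ L ∧ w ∈ M} : Language A) := by
  obtain ⟨h1, h2, h3, h4⟩ := hL
  obtain ⟨k1, k2, k3, k4⟩ := hM
  refine ⟨fun u v hv hu => ⟨h1 u v hv hu.1, k1 u v hv hu.2⟩, fun ho => ?_, fun ho => ?_,
    fun ho => ?_⟩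
  · intro p x y q h n
    exact ⟨h2 ho p x y q (fun n => (h n).1) n, k2 ho p x y q (fun n => (h n).2) n⟩
  · intro p x y q h n
    exact ⟨h3 ho p x y q (fun n => (h n).1) n, k3 ho p x y q (fun n => (h n).2) n⟩
  · intro p x y q h n
    exact ⟨h4 ho p x y q (fun n => (h n).1) n, k4 ho p x y q (fun n => (h n).2) n⟩

theorem cond_empty : Cond θ ({w | False} : Language A) :=
  ⟨fun _ _ _ h => h, fun _ _ _ _ _ h => (h 0).elim, fun _ _ _ _ _ h => (h 0).elim,
    fun _ _ _ _ _ h => (h 0).elim⟩

theorem cond_univ : Cond θ ({w | True} : Language A) :=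
  ⟨fun _ _ _ _ => trivial, fun _ _ _ _ _ _ _ => trivial, fun _ _ _ _ _ _ _ => trivial,
    fun _ _ _ _ _ _ _ => trivial⟩

theorem cond_quot (hL : Cond θ L) (r s : List A) : Cond θ (quot r s L) := by
  obtain ⟨h1, h2, h3, h4⟩ := hL
  refine ⟨fun u v hv hu => h1 _ _ (sublist_ctx r s hv) hu, fun ho => ?_, fun ho => ?_,
    fun ho => ?_⟩
  · intro p x y q h n
    have h5 := h2 ho (r ++ p) x y (q ++ s) (fun n => by
      have h6 : r ++ (p ++ wpow x n ++ y ++ q) ++ s ∈ L := h n
      simpa only [List.append_assoc] using h6) n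
    change r ++ (p ++ y ++ wpow x n ++ q) ++ s ∈ L
    simpa only [List.append_assoc] using h5
  · intro p x y q h n
    have h5 := h3 ho (r ++ p) x y (q ++ s) (fun n => by
      have h6 : r ++ (p ++ y ++ wpow x n ++ q) ++ s ∈ L := h n
      simpa only [List.append_assoc] using h6) n
    change r ++ (p ++ wpow x n ++ y ++ q) ++ s ∈ L
    simpa only [List.append_assoc] using h5
  · intro p x y q h n
    have h5 := h4 ho (r ++ p) x y (q ++ s) (fun n => by
      have h6 : r ++ (p ++ wpow x n ++ wpow y n ++ q) ++ s ∈ L := h n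
      simpa only [List.append_assoc] using h6) n
    change r ++ (p ++ wpow y n ++ wpow x n ++ q) ++ s ∈ L
    simpa only [List.append_assoc] using h5

theorem cond_inv {L : Language B} (hL : Cond θ L) (φ : A → List B) : Cond θ (inv φ L) := by
  obtain ⟨h1, h2, h3, h4⟩ := hL
  refine ⟨fun u v hv hu => h1 _ _ (sublist_flatMap φ hv) hu, fun ho => ?_, fun ho => ?_,
    fun ho => ?_⟩
  · intro p x y q h n
    have h5 := h2 ho (p.flatMap φ) (x.flatMap φ) (y.flatMap φ) (q.flatMap φ) (fun n => by
      have h6 : (p ++ wpow x n ++ y ++ q).flatMap φ ∈ L := h n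
      simpa only [List.flatMap_append, flatMap_wpow] using h6) n
    change (p ++ y ++ wpow x n ++ q).flatMap φ ∈ L
    simpa only [List.flatMap_append, flatMap_wpow] using h5
  · intro p x y q h n
    have h5 := h3 ho (p.flatMap φ) (x.flatMap φ) (y.flatMap φ) (q.flatMap φ) (fun n => by
      have h6 : (p ++ y ++ wpow x n ++ q).flatMap φ ∈ L := h n
      simpa only [List.flatMap_append, flatMap_wpow] using h6) n
    change (p ++ wpow x n ++ y ++ q).flatMap φ ∈ L
    simpa only [List.flatMap_append, flatMap_wpow] using h5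
  · intro p x y q h n
    have h5 := h4 ho (p.flatMap φ) (x.flatMap φ) (y.flatMap φ) (q.flatMap φ) (fun n => by
      have h6 : (p ++ wpow x n ++ wpow y n ++ q).flatMap φ ∈ L := h n
      simpa only [List.flatMap_append, flatMap_wpow] using h6) n
    change (p ++ wpow y n ++ wpow x n ++ q).flatMap φ ∈ L
    simpa only [List.flatMap_append, flatMap_wpow] using h5

theorem cond_exists {ι : Type} (E : List ι) (f : ι → Language A) (h : ∀ x ∈ E, Cond θ (f x)) :
    Cond θ ({w | ∃ x ∈ E, w ∈ f x} : Language A) := by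
  induction E with
  | nil =>
    have h1 : ({w | ∃ x ∈ ([] : List ι), w ∈ f x} : Language A) = ({w | False} : Language A) := by
      ext w
      constructor
      · rintro ⟨x, hx, _⟩; simp at hx
      · intro hf; exact hf.elim
    rw [h1]
    exact cond_empty
  | cons x E ih =>
    have h1 : ({w | ∃ y ∈ x :: E, w ∈ f y} : Language A) =
        ({w | w ∈ f x ∨ w ∈ ({w | ∃ y ∈ E, w ∈ f y} : Language A)} : Language A) := by
      ext w
      constructor
      · rintro ⟨y, hy, hw⟩
        rcases List.mem_cons.1 hy with rfl | hy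
        · exact Or.inl hw
        · exact Or.inr ⟨y, hy, hw⟩
      · rintro (hw | ⟨y, hy, hw⟩)
        · exact ⟨x, List.mem_cons_self .., hw⟩
        · exact ⟨y, List.mem_cons_of_mem _ hy, hw⟩
    rw [h1]
    exact cond_union (h x (List.mem_cons_self ..))
      (ih fun y hy => h y (List.mem_cons_of_mem _ hy))

end cond

/-- the variety of kind `θ` -/
def Wv (θ : Kind) : PosVar where
  mem A _ := {L | L.IsRegular ∧ Cond θ L}
  regular _ _ _ h := h.1
  empty A _ := ⟨(gen F).regular A _ ((gen F).empty A), cond_empty⟩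
  univ A _ := ⟨(gen F).regular A _ ((gen F).univ A), cond_univ⟩
  union _ _ _ _ hL hM := ⟨Language.IsRegular.add hL.1 hM.1, cond_union hL.2 hM.2⟩
  inter _ _ _ _ hL hM := ⟨Language.IsRegular.inf hL.1 hM.1, cond_inter hL.2 hM.2⟩
  quot _ _ x y _ hL := ⟨isRegular_quot hL.1 x y, cond_quot hL.2 x y⟩
  inv _ _ _ _ φ _ hL := ⟨Star60.isRegular_comap φ hL.1, cond_inv hL.2 φ⟩

/-- normal form -/
theorem normal_form {θ : Kind} {A : Type} [Finite A] {L : Language A} (hL : L ∈ (Wv θ).mem A) :
    ∃ E : List (Expr A), L = ({w | ∃ x ∈ E, w ∈ Cl θ x.2} : Language A) := by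
  obtain ⟨E, hE⟩ := exists_decomp hL.1 hL.2.1
  refine ⟨E, ?_⟩
  ext w
  constructor
  · intro hw
    obtain ⟨x, hx, h⟩ := (hE w).1 hw
    exact ⟨x, hx, cl_full_le θ _ h⟩
  · rintro ⟨x, hx, hw⟩
    exact cl_le hL.2 (fun v hv => (hE v).2 ⟨x, hx, hv⟩) w hw

theorem wv_shuffleClosed {θ : Kind} (hθ : θ.ss → θ.os ∧ θ.so) : ShuffleClosed (Wv θ) := by
  intro A _ L M hL hM
  refine ⟨isRegular_shuf hL.1 hM.1, ?_⟩
  obtain ⟨E, rfl⟩ := normal_form hL
  obtain ⟨E', rfl⟩ := normal_form hM
  have h1 : shuf ({w | ∃ x ∈ E, w ∈ Cl θ x.2} : Language A)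
      ({w | ∃ x ∈ E', w ∈ Cl θ x.2} : Language A) =
      ({w | ∃ x ∈ E ×ˢ E', w ∈ shuf (Cl θ x.1.2) (Cl θ x.2.2)} : Language A) := by
    ext w
    constructor
    · intro hw
      obtain ⟨u, ⟨x, hx, hu⟩, v, ⟨y, hy, hv⟩, hs⟩ := mem_shuf.1 hw
      exact ⟨(x, y), List.mem_product.2 ⟨hx, hy⟩, mem_shuf.2 ⟨u, hu, v, hv, hs⟩⟩
    · rintro ⟨⟨x, y⟩, hxy, hw⟩
      obtain ⟨hx, hy⟩ := List.mem_product.1 hxy
      obtain ⟨u, hu, v, hv, hs⟩ := mem_shuf.1 hw
      exact mem_shuf.2 ⟨u, ⟨x, hx, hu⟩, v, ⟨y, hy, hv⟩, hs⟩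
  rw [h1]
  exact cond_exists _ _ fun x _ => cond_shuf_cl θ _ _ hθ

/-! ### the dichotomies -/

theorem wpow_add {A : Type} (x : List A) (n m : ℕ) : wpow x (n + m) = wpow x n ++ wpow x m := by
  unfold wpow
  rw [← List.flatten_append, List.replicate_append_replicate]

theorem wpow_wpow {A : Type} (x : List A) (k n : ℕ) : wpow (wpow x k) n = wpow x (k * n) := by
  induction n with
  | zero => rfl
  | succ n ih => rw [wpow_succ, ih, ← wpow_add, Nat.mul_succ, Nat.add_comm]

/-- at most one letter `b` -/
def OneB : Language Bool := PB (fun x y => ¬ (x = b ∧ y = b))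

theorem oneB_mem {V : PosVar} (hF : F ∈ V.mem Bool) : OneB ∈ V.mem Bool := by
  have h1 := pull_mem (E1_memB hF) (fun c : Bool => if c = b then some a else none)
  suffices hEq : OneB = ({w | w.Pairwise (fun α β => ∀ x,
      (fun c : Bool => if c = b then some a else none) α = some x → ∀ y,
      (fun c : Bool => if c = b then some a else none) β = some y → False)} : Language Bool) by
    rw [hEq]; exact h1
  ext w
  constructor
  · intro hw
    have hw' : w.Pairwise (fun x y => ¬ (x = b ∧ y = b)) := hw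
    refine List.Pairwise.imp ?_ hw'
    intro α β h x hx y hy
    apply h
    constructor
    · by_contra hc
      simp only [if_neg hc] at hx
      cases hx
    · by_contra hc
      simp only [if_neg hc] at hy
      cases hy
  · intro hw
    change w.Pairwise (fun x y => ¬ (x = b ∧ y = b))
    refine List.Pairwise.imp ?_ hw
    rintro α β h ⟨rfl, rfl⟩
    exact h a (if_pos rfl) a (if_pos rfl)

theorem sub_ab {w : List Bool} (h : w.Pairwise (fun x _ => x = a)) :
    w.Sublist (wpow [a] w.length ++ [b]) := by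
  induction w with
  | nil => exact List.nil_sublist _
  | cons c w ih =>
    rw [List.pairwise_cons] at h
    rw [List.length_cons, wpow_succ]
    cases w with
    | nil =>
      cases c with
      | false => exact (List.sublist_append_left [a] []).trans (List.sublist_append_left _ _)
      | true => exact List.sublist_append_right _ _
    | cons d w =>
      have hc : c = a := h.1 d (by simp)
      rw [hc]
      exact (ih h.2).cons_cons a

theorem sub_ba {w : List Bool} (h : w.Pairwise (fun _ y => y = a)) :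
    w.Sublist ([b] ++ wpow [a] w.length) := by
  cases w with
  | nil => exact List.nil_sublist _
  | cons c w =>
    rw [List.pairwise_cons] at h
    have hw : w = wpow [a] w.length := by
      rw [wpow_single]
      exact List.eq_replicate_length.2 h.1
    rw [List.length_cons, wpow_succ, ← hw]
    cases c with
    | false => exact List.sublist_append_right _ _
    | true => exact (List.sublist_append_right [a] w).cons_cons b

theorem sub_aabb {w : List Bool} (h : w.Pairwise (fun x y => ¬ (x = b ∧ y = a))) :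
    w.Sublist (wpow [a] w.length ++ wpow [b] w.length) := by
  induction w with
  | nil => exact List.nil_sublist _
  | cons c w ih =>
    rw [List.pairwise_cons] at h
    rw [List.length_cons]
    cases c with
    | false =>
      rw [wpow_succ]
      refine List.Sublist.cons_cons a ((ih h.2).trans ?_)
      exact (List.Sublist.refl _).append (wpow_mono _ (Nat.le_succ _))
    | true =>
      have hw : w = wpow [b] w.length := by
        rw [wpow_single]
        refine List.eq_replicate_length.2 fun d hd => ?_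
        have := h.1 d hd
        cases d with
        | false => exact absurd ⟨rfl, rfl⟩ this
        | true => rfl
      have h1 : true :: w = wpow [b] (w.length + 1) := by
        rw [wpow_succ, ← hw]
        rfl
      rw [h1]
      exact List.sublist_append_right _ _

section dich

variable {V : PosVar} (hF : F ∈ V.mem Bool) (hs : SubwordClosed V) {A : Type} [Finite A]
  {L : Language A} (hL : L ∈ V.mem A)

include hF hs hL

theorem dich_os (h : ¬ MoveR L) : OSL ∈ V.mem Bool := by
  unfold MoveR at h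
  push Not at h
  obtain ⟨p, x, y, q, h, n₀, hn₀⟩ := h
  set φ : Bool → List A := fun t => if t then y else wpow x n₀ with hφ
  have hL' := V.inv Bool A φ _ (V.quot A p q L hL)
  have h1 : ∀ n, wpow [a] n ++ [b] ∈ inv φ (quot p q L) := by
    intro n
    change p ++ (wpow [a] n ++ [b]).flatMap φ ++ q ∈ L
    have h2 := h (n₀ * n)
    rw [List.flatMap_append, flatMap_wpow, List.flatMap_singleton, List.flatMap_singleton]
    change p ++ (wpow (wpow x n₀) n ++ y) ++ q ∈ L
    rw [wpow_wpow, ← List.append_assoc]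
    exact h2
  have h2 : [b, a] ∉ inv φ (quot p q L) := by
    intro h3
    have h4 : p ++ (y ++ (wpow x n₀ ++ [])) ++ q ∈ L := h3
    apply hn₀
    simpa only [List.append_assoc, List.append_nil, List.nil_append] using h4
  have hsub := hs Bool _ hL'
  suffices hEq : OSL = ({w | w ∈ inv φ (quot p q L) ∧ w ∈ OneB} : Language Bool) by
    rw [hEq]
    exact V.inter _ _ _ hL' (oneB_mem hF)
  ext w
  constructor
  · intro hw
    have hw' : w.Pairwise (fun x _ => x = a) := hw
    refine ⟨hsub _ _ (sub_ab hw') (h1 _), ?_⟩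
    change w.Pairwise _
    refine List.Pairwise.imp ?_ hw'
    rintro c d rfl ⟨h3, -⟩
    exact absurd h3 (by decide)
  · rintro ⟨hw1, hw2⟩
    have hw2' : w.Pairwise (fun x y => ¬ (x = b ∧ y = b)) := hw2
    change w.Pairwise (fun x _ => x = a)
    rw [List.pairwise_iff_forall_sublist] at hw2' ⊢
    intro c d hcd
    cases c with
    | false => rfl
    | true =>
      exfalso
      cases d with
      | false => exact h2 (hsub _ _ hcd hw1)
      | true => exact hw2' hcd ⟨rfl, rfl⟩

theorem dich_so (h : ¬ MoveL L) : SOL ∈ V.mem Bool := by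
  unfold MoveL at h
  push Not at h
  obtain ⟨p, x, y, q, h, n₀, hn₀⟩ := h
  set φ : Bool → List A := fun t => if t then y else wpow x n₀ with hφ
  have hL' := V.inv Bool A φ _ (V.quot A p q L hL)
  have h1 : ∀ n, [b] ++ wpow [a] n ∈ inv φ (quot p q L) := by
    intro n
    change p ++ ([b] ++ wpow [a] n).flatMap φ ++ q ∈ L
    have h2 := h (n₀ * n)
    rw [List.flatMap_append, flatMap_wpow, List.flatMap_singleton, List.flatMap_singleton]
    change p ++ (y ++ wpow (wpow x n₀) n) ++ q ∈ L
    rw [wpow_wpow, ← List.append_assoc]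
    exact h2
  have h2 : [a, b] ∉ inv φ (quot p q L) := by
    intro h3
    have h4 : p ++ (wpow x n₀ ++ (y ++ [])) ++ q ∈ L := h3
    apply hn₀
    simpa only [List.append_assoc, List.append_nil, List.nil_append] using h4
  have hsub := hs Bool _ hL'
  suffices hEq : SOL = ({w | w ∈ inv φ (quot p q L) ∧ w ∈ OneB} : Language Bool) by
    rw [hEq]
    exact V.inter _ _ _ hL' (oneB_mem hF)
  ext w
  constructor
  · intro hw
    have hw' : w.Pairwise (fun _ y => y = a) := hw
    refine ⟨hsub _ _ (sub_ba hw') (h1 _), ?_⟩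
    change w.Pairwise _
    refine List.Pairwise.imp ?_ hw'
    rintro c d rfl ⟨-, h3⟩
    exact absurd h3 (by decide)
  · rintro ⟨hw1, hw2⟩
    have hw2' : w.Pairwise (fun x y => ¬ (x = b ∧ y = b)) := hw2
    change w.Pairwise (fun _ y => y = a)
    rw [List.pairwise_iff_forall_sublist] at hw2' ⊢
    intro c d hcd
    cases d with
    | false => rfl
    | true =>
      exfalso
      cases c with
      | false => exact h2 (hsub _ _ hcd hw1)
      | true => exact hw2' hcd ⟨rfl, rfl⟩

omit hF in
theorem dich_ss (h : ¬ CommW L) : SSL ∈ V.mem Bool := by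
  unfold CommW at h
  push Not at h
  obtain ⟨p, x, y, q, h, n₀, hn₀⟩ := h
  set φ : Bool → List A := fun t => if t then wpow y n₀ else wpow x n₀ with hφ
  have hL' := V.inv Bool A φ _ (V.quot A p q L hL)
  have h1 : ∀ n, wpow [a] n ++ wpow [b] n ∈ inv φ (quot p q L) := by
    intro n
    change p ++ (wpow [a] n ++ wpow [b] n).flatMap φ ++ q ∈ L
    have h2 := h (n₀ * n)
    rw [List.flatMap_append, flatMap_wpow, flatMap_wpow, List.flatMap_singleton,
      List.flatMap_singleton]
    change p ++ (wpow (wpow x n₀) n ++ wpow (wpow y n₀) n) ++ q ∈ L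
    rw [wpow_wpow, wpow_wpow, ← List.append_assoc]
    exact h2
  have h2 : [b, a] ∉ inv φ (quot p q L) := by
    intro h3
    have h4 : p ++ (wpow y n₀ ++ (wpow x n₀ ++ [])) ++ q ∈ L := h3
    apply hn₀
    simpa only [List.append_assoc, List.append_nil, List.nil_append] using h4
  have hsub := hs Bool _ hL'
  suffices hEq : SSL = inv φ (quot p q L) by
    rw [hEq]
    exact hL'
  ext w
  constructor
  · intro hw
    exact hsub _ _ (sub_aabb hw) (h1 _)
  · intro hw
    change w.Pairwise (fun x y => ¬ (x = b ∧ y = a))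
    rw [List.pairwise_iff_forall_sublist]
    rintro c d hcd ⟨rfl, rfl⟩
    exact h2 (hsub _ _ hcd hw)

end dich

theorem ss_os {V : PosVar} (hF : F ∈ V.mem Bool) (h : SSL ∈ V.mem Bool) : OSL ∈ V.mem Bool := by
  have h1 := V.inter _ _ _ h (oneB_mem hF)
  suffices hEq : OSL = ({w | w ∈ SSL ∧ w ∈ OneB} : Language Bool) by rw [hEq]; exact h1
  ext w
  change w.Pairwise (fun x _ => x = a) ↔
    w.Pairwise (fun x y => ¬ (x = b ∧ y = a)) ∧ w.Pairwise (fun x y => ¬ (x = b ∧ y = b))
  rw [← List.pairwise_and_iff]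
  constructor
  · intro h
    refine List.Pairwise.imp ?_ h
    decide
  · intro h
    refine List.Pairwise.imp ?_ h
    decide

theorem ss_so {V : PosVar} (hF : F ∈ V.mem Bool) (h : SSL ∈ V.mem Bool) : SOL ∈ V.mem Bool := by
  have h1 := V.inter _ _ _ (pull_mem h (fun c : Bool => some (!c))) (oneB_mem hF)
  refine (congrArg (· ∈ V.mem Bool) ?_).mpr h1
  ext w
  change w.Pairwise (fun _ y => y = a) ↔
    w.Pairwise (fun α β => ∀ x, some (!α) = some x → ∀ y, some (!β) = some y → ¬ (x = b ∧ y = a)) ∧
      w.Pairwise (fun x y => ¬ (x = b ∧ y = b))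
  rw [← List.pairwise_and_iff]
  constructor
  · intro h
    refine List.Pairwise.imp ?_ h
    decide
  · intro h
    refine List.Pairwise.imp ?_ h
    decide

/-- the kind of a variety -/
def kindOf (V : PosVar) : Kind := ⟨OSL ∈ V.mem Bool, SOL ∈ V.mem Bool, SSL ∈ V.mem Bool⟩

theorem eq_wv {V : PosVar} (hV : ShuffleClosed V) (hc : ¬ Commutative V) (hs : SubwordClosed V) :
    V = Wv (kindOf V) := by
  have hF := F_mem hc hs
  apply Le.antisymm
  · intro A _ L hL
    refine ⟨V.regular A L hL, hs A L hL, fun h => ?_, fun h => ?_, fun h => ?_⟩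
    · by_contra hcon
      exact h (dich_os hF hs hL hcon)
    · by_contra hcon
      exact h (dich_so hF hs hL hcon)
    · by_contra hcon
      exact h (dich_ss hs hL hcon)
  · intro A _ L hL
    obtain ⟨E, rfl⟩ := normal_form hL
    exact exists_mem E _ fun x _ => cl_mem hV hF (fun h => h) (fun h => h) (fun h => h) x.2

end Pool.Agent.ShufVar
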