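import Pool.Agent.ShufVar.Fam

/-!
MP_cf3bcc_lc: positive varieties of superword closed languages defined by linear conditions.
-/

namespace Pool.Agent.ShufVar

open Star60

/-- superword closed languages over finite alphabets are regular -/
theorem regular_of_up {A : Type} [Finite A] {L : Language A}
    (h : ∀ u v : List A, u.Sublist v → u ∈ L → v ∈ L) : L.IsRegular := by
  obtain ⟨k, hk⟩ := exists_minor_bound (C := (Lᶜ : Set (List A)))
  have hk' : ∀ w ∈ L, ∃ w', w'.Sublist w ∧ w' ∈ L ∧ w'.length ≤ k := by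
    intro w hw
    obtain ⟨w', h1, h2, h3⟩ := hk w (fun hc => hc hw)
    exact ⟨w', h1, by_contra fun hc => h2 hc, h3⟩
  have : Finite {w : List A // w.length ≤ k} := (List.finite_length_le A k).to_subtype
  refine isRegular_of_index (ι := Set {w : List A // w.length ≤ k}) _
    (fun S => ({y | ∃ w₁ ∈ S, (w₁ : List A) ++ y ∈ L} : Set (List A))) ?_
  intro x
  refine ⟨{w | (w : List A).Sublist x}, fun y => ?_⟩
  constructor
  · intro hxy
    obtain ⟨w', h1, h2, h3⟩ := hk' _ hxy
    obtain ⟨w₁, w₂, rfl, h4, h5⟩ := List.sublist_append_iff.1 h1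
    rw [List.length_append] at h3
    refine ⟨⟨w₁, by omega⟩, h4, ?_⟩
    exact h _ _ ((List.Sublist.refl w₁).append h5) h2
  · rintro ⟨w₁, h1, h2⟩
    exact h _ _ (List.Sublist.append h1 (List.Sublist.refl y)) h2

/-- one of the linear conditions with index in `T` is applied to `u` and gives `v` -/
def Stp (U V : ℕ → List ℕ) (T : Set ℕ) (A : Type) (u v : List A) : Prop :=
  ∃ n ∈ T, ∃ (p q : List A) (s : ℕ → List A),
    u = p ++ (U n).flatMap s ++ q ∧ v = p ++ (V n).flatMap s ++ q

/-- insertion of letters, or one of the linear conditions -/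
def Rel (U V : ℕ → List ℕ) (T : Set ℕ) (A : Type) (u v : List A) : Prop :=
  u.Sublist v ∨ Stp U V T A u v

/-- the superword closed languages that satisfy the conditions with index in `T` -/
def Lin (U V : ℕ → List ℕ) (T : Set ℕ) : PosVar :=
  relVar (Rel U V T)
    (by
      rintro A x y u v (h | ⟨n, hn, p, q, s, rfl, rfl⟩)
      · exact Or.inl (sublist_ctx x y h)
      · exact Or.inr ⟨n, hn, x ++ p, q ++ y, s, by simp only [List.append_assoc],
          by simp only [List.append_assoc]⟩)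
    (by
      rintro A B φ u v (h | ⟨n, hn, p, q, s, rfl, rfl⟩)
      · exact Or.inl (sublist_flatMap φ h)
      · refine Or.inr ⟨n, hn, p.flatMap φ, q.flatMap φ, fun i => (s i).flatMap φ, ?_, ?_⟩
        · simp only [List.flatMap_append, List.flatMap_assoc]
        · simp only [List.flatMap_append, List.flatMap_assoc])

theorem mem_lin {U V : ℕ → List ℕ} {T : Set ℕ} {A : Type} [Finite A] {L : Language A} :
    L ∈ (Lin U V T).mem A ↔ (∀ u v : List A, u.Sublist v → u ∈ L → v ∈ L) ∧
      ∀ n ∈ T, ∀ (p q : List A) (s : ℕ → List A), p ++ (U n).flatMap s ++ q ∈ L →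
        p ++ (V n).flatMap s ++ q ∈ L := by
  constructor
  · intro h
    exact ⟨fun u v huv => h.2 u v (Or.inl huv), fun n hn p q s =>
      h.2 _ _ (Or.inr ⟨n, hn, p, q, s, rfl, rfl⟩)⟩
  · rintro ⟨h1, h2⟩
    refine ⟨regular_of_up h1, ?_⟩
    rintro u v (h | ⟨n, hn, p, q, s, rfl, rfl⟩)
    · exact h1 u v h
    · exact h2 n hn p q s

theorem lin_superwordClosed (U V : ℕ → List ℕ) (T : Set ℕ) : SuperwordClosed (Lin U V T) :=
  fun _ _ _ hL => (mem_lin.1 hL).1

theorem lin_anti {U V : ℕ → List ℕ} {S T : Set ℕ} (h : T ⊆ S) : Le (Lin U V S) (Lin U V T) := by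
  intro A _ L hL
  rw [mem_lin] at hL ⊢
  exact ⟨hL.1, fun n hn => hL.2 n (h hn)⟩

/-- splitting a shuffle along a linear word -/
theorem sh_flatMap_split {A : Type} (s : ℕ → List A) : ∀ (U : List ℕ), U.Nodup → ∀ u v : List A,
    Sh u v (U.flatMap s) → ∃ s₁ s₂ : ℕ → List A, u = U.flatMap s₁ ∧ v = U.flatMap s₂ ∧
      ∀ i, Sh (s₁ i) (s₂ i) (s i) := by
  intro U
  induction U with
  | nil =>
    intro _ u v h
    cases h
    exact ⟨s, fun _ => [], rfl, rfl, fun i => Sh.of_left _⟩
  | cons x U ih =>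
    intro hU u v h
    rw [List.nodup_cons] at hU
    rw [List.flatMap_cons] at h
    obtain ⟨u₁, u₂, v₁, v₂, rfl, rfl, h1, h2⟩ := h.split _ _ rfl
    obtain ⟨s₁, s₂, rfl, rfl, h3⟩ := ih hU.2 _ _ h2
    refine ⟨Function.update s₁ x u₁, Function.update s₂ x v₁, ?_, ?_, ?_⟩
    · rw [List.flatMap_cons, Function.update_self]
      congr 1
      apply List.flatMap_congr
      intro i hi
      rw [Function.update_of_ne (by rintro rfl; exact hU.1 hi)]
    · rw [List.flatMap_cons, Function.update_self]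
      congr 1
      apply List.flatMap_congr
      intro i hi
      rw [Function.update_of_ne (by rintro rfl; exact hU.1 hi)]
    · intro i
      by_cases hi : i = x
      · subst hi
        rw [Function.update_self, Function.update_self]
        exact h1
      · rw [Function.update_of_ne hi, Function.update_of_ne hi]
        exact h3 i

theorem sh_flatMap {A : Type} {s s₁ s₂ : ℕ → List A} (h : ∀ i, Sh (s₁ i) (s₂ i) (s i))
    (V : List ℕ) : Sh (V.flatMap s₁) (V.flatMap s₂) (V.flatMap s) := by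
  induction V with
  | nil => exact Sh.nil
  | cons x V ih =>
    simp only [List.flatMap_cons]
    exact (h x).append ih

theorem lin_shuffleClosed {U V : ℕ → List ℕ} (hU : ∀ n, (U n).Nodup) (T : Set ℕ) :
    ShuffleClosed (Lin U V T) := by
  intro A _ L M hL hM
  rw [mem_lin] at hL hM ⊢
  refine ⟨?_, ?_⟩
  · intro w w' hw h
    obtain ⟨u, hu, v, hv, hs⟩ := mem_shuf.1 h
    obtain ⟨u', h1, h2⟩ := Sh.sup hw u v hs
    exact mem_shuf.2 ⟨u', hL.1 _ _ h1 hu, v, hv, h2⟩
  · intro n hn p q s h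
    obtain ⟨u, hu, v, hv, hs⟩ := mem_shuf.1 h
    obtain ⟨u₁, u₂, v₁, v₂, rfl, rfl, h1, h2⟩ := hs.split _ _ rfl
    obtain ⟨u₃, u₄, v₃, v₄, rfl, rfl, h3, h4⟩ := h1.split _ _ rfl
    obtain ⟨s₁, s₂, rfl, rfl, h5⟩ := sh_flatMap_split s _ (hU n) _ _ h4
    exact mem_shuf.2 ⟨_, hL.2 n hn _ _ _ hu, _, hM.2 n hn _ _ _ hv,
      (h3.append (sh_flatMap h5 _)).append h2⟩

end Pool.Agent.ShufVar
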