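import Pool.Agent.ShufVar.ContinA

/-!
MP_cf3bcc_lc: an infinite independent family of linear conditions.
-/

namespace Pool.Agent.ShufVar

open Star60

/-! ### lists -/

section lists

variable {A : Type}

theorem pair_append {a b : A} {l m : List A} : [a, b].Sublist (l ++ m) ↔
    [a, b].Sublist l ∨ (a ∈ l ∧ b ∈ m) ∨ [a, b].Sublist m := by
  rw [List.sublist_append_iff]
  constructor
  · rintro ⟨l₁, l₂, h, h1, h2⟩
    rcases l₁ with _ | ⟨c, l₁⟩
    · rw [List.nil_append] at h
      exact Or.inr (Or.inr (h ▸ h2))
    · rw [List.cons_append, List.cons.injEq] at h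
      obtain ⟨rfl, h⟩ := h
      rcases l₁ with _ | ⟨d, l₁⟩
      · rw [List.nil_append] at h
        subst h
        exact Or.inr (Or.inl ⟨List.singleton_sublist.1 h1, List.singleton_sublist.1 h2⟩)
      · rw [List.cons_append, List.cons.injEq] at h
        obtain ⟨rfl, h⟩ := h
        obtain ⟨rfl, rfl⟩ := List.append_eq_nil_iff.1 h.symm
        exact Or.inl h1
  · rintro (h | ⟨h1, h2⟩ | h)
    · exact ⟨[a, b], [], by simp, h, List.nil_sublist _⟩
    · exact ⟨[a], [b], rfl, List.singleton_sublist.2 h1, List.singleton_sublist.2 h2⟩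
    · exact ⟨[], [a, b], rfl, List.nil_sublist _, h⟩

theorem pair_mem {a b : A} {l : List A} (h : [a, b].Sublist l) : a ∈ l ∧ b ∈ l :=
  ⟨h.subset (by simp), h.subset (by simp)⟩

theorem pair_total [DecidableEq A] {a b : A} (hab : a ≠ b) {l : List A} (ha : a ∈ l) (hb : b ∈ l) :
    [a, b].Sublist l ∨ [b, a].Sublist l := by
  induction l with
  | nil => simp at ha
  | cons c l ih =>
    by_cases h1 : c = a
    · subst h1
      left
      rw [List.mem_cons] at hb
      rcases hb with hb | hb
      · exact absurd hb.symm hab
      · exact (List.singleton_sublist.2 hb).cons_cons _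
    · by_cases h2 : c = b
      · subst h2
        right
        rw [List.mem_cons] at ha
        rcases ha with ha | ha
        · exact absurd ha hab
        · exact (List.singleton_sublist.2 ha).cons_cons _
      · rw [List.mem_cons] at ha hb
        rcases ih (ha.resolve_left fun h => h1 h.symm) (hb.resolve_left fun h => h2 h.symm) with h | h
        · exact Or.inl (h.cons _)
        · exact Or.inr (h.cons _)

theorem pair_three [DecidableEq A] {a b : A} (hab : a ≠ b) {l : List A} (h1 : [a, b].Sublist l)
    (h2 : [b, a].Sublist l) : 3 ≤ l.count a + l.count b := by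
  induction l with
  | nil => simp at h1
  | cons c l ih =>
    rw [List.count_cons, List.count_cons]
    by_cases ha : c = a
    · subst ha
      have h3 : [b, c].Sublist l := by
        rcases List.sublist_cons_iff.1 h2 with h | ⟨r, h, _⟩
        · exact h
        · rw [List.cons.injEq] at h
          exact absurd h.1.symm hab
      have h4 := List.count_pos_iff.2 (pair_mem h3).1
      have h5 := List.count_pos_iff.2 (pair_mem h3).2
      simp only [beq_self_eq_true, if_true]
      omega
    · by_cases hb : c = b
      · subst hb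
        have h3 : [a, c].Sublist l := by
          rcases List.sublist_cons_iff.1 h1 with h | ⟨r, h, _⟩
          · exact h
          · rw [List.cons.injEq] at h
            exact absurd h.1 hab
        have h4 := List.count_pos_iff.2 (pair_mem h3).1
        have h5 := List.count_pos_iff.2 (pair_mem h3).2
        simp only [beq_self_eq_true, if_true]
        omega
      · have h3 : [a, b].Sublist l := by
          rcases List.sublist_cons_iff.1 h1 with h | ⟨r, h, _⟩
          · exact h
          · rw [List.cons.injEq] at h
            exact absurd h.1.symm ha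
        have h4 : [b, a].Sublist l := by
          rcases List.sublist_cons_iff.1 h2 with h | ⟨r, h, _⟩
          · exact h
          · rw [List.cons.injEq] at h
            exact absurd h.1.symm hb
        have := ih h3 h4
        omega

theorem pair_of_key {key : ℕ → ℕ} {l : List ℕ} (hl : l.Pairwise (fun i j => key i ≤ key j))
    {x y : ℕ} (hx : x ∈ l) (hy : y ∈ l) (h : key x < key y) : [x, y].Sublist l := by
  have hne : x ≠ y := by rintro rfl; exact lt_irrefl _ h
  rcases pair_total hne hx hy with h1 | h1
  · exact h1
  · have h2 := hl.sublist h1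
    rw [List.pairwise_pair] at h2
    omega

theorem pair_flatMap {s : ℕ → List A} {l : List ℕ} {x y : ℕ} (h : [x, y].Sublist l) {a b : A}
    (ha : a ∈ s x) (hb : b ∈ s y) : [a, b].Sublist (l.flatMap s) := by
  refine List.Sublist.trans ?_ (sublist_flatMap s h)
  simp only [List.flatMap_cons, List.flatMap_nil, List.append_nil]
  exact pair_append.2 (Or.inr (Or.inl ⟨ha, hb⟩))

end lists

/-! ### the words -/

/-- the position of a letter -/
def pos (N i : ℕ) : ℕ := if i = 0 then 0 else min (i - 1) (N - 1)

/-- the second of two letters with the same position -/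
def twin (N i : ℕ) : ℕ := if i = 1 ∨ i = N + 1 then 1 else 0

/-- order of the left side -/
def keyU (N i : ℕ) : ℕ :=
  2 * (if pos N i % 2 = 0 then pos N i + 1 else pos N i - 1) + twin N i

/-- order of the right side -/
def keyV (N i : ℕ) : ℕ :=
  2 * (if pos N i % 2 = 0 then pos N i - 1 else pos N i + 1) + twin N i

/-- adjacent letters -/
def Adj (N i j : ℕ) : Prop := pos N i + 1 = pos N j ∨ pos N j + 1 = pos N i

theorem key_adj {N i j : ℕ} (_ : 4 ≤ N) (_ : i < N + 2) (_ : j < N + 2) (h : Adj N i j)
    (ho : pos N i % 2 = 1) : keyU N i < keyU N j ∧ keyV N j < keyV N i := by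
  unfold Adj at h
  have h1 : twin N i ≤ 1 := by unfold twin; split_ifs <;> omega
  have h2 : twin N j ≤ 1 := by unfold twin; split_ifs <;> omega
  unfold keyU keyV
  generalize twin N i = t at h1 ⊢
  generalize twin N j = t' at h2 ⊢
  generalize pos N i = a at h ho ⊢
  generalize pos N j = b at h ⊢
  constructor
  · split_ifs <;> omega
  · split_ifs <;> omega

theorem key_nonadj {N i j : ℕ} (hN : 4 ≤ N) (hi : i < N + 2) (hj : j < N + 2) (h : ¬ Adj N i j)
    (hij : i < j) : keyU N i < keyU N j ∧ keyV N i < keyV N j := by
  unfold Adj at h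
  by_cases hp : pos N i = pos N j
  · have h1 : twin N i = 0 ∧ twin N j = 1 := by
      unfold pos at hp
      unfold twin
      split_ifs at hp ⊢ <;> omega
    unfold keyU keyV
    rw [hp, h1.1, h1.2]
    omega
  · have h3 : pos N i + 1 < pos N j := by
      unfold pos at *
      split_ifs at * <;> omega
    have h1 : twin N i ≤ 1 := by unfold twin; split_ifs <;> omega
    have h2 : twin N j ≤ 1 := by unfold twin; split_ifs <;> omega
    unfold keyU keyV
    generalize twin N i = t at h1 ⊢
    generalize twin N j = t' at h2 ⊢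
    generalize pos N i = a at h3 ⊢
    generalize pos N j = b at h3 ⊢
    split_ifs <;> omega

theorem adj_of_key {N i j : ℕ} (hN : 4 ≤ N) (hi : i < N + 2) (hj : j < N + 2)
    (h1 : keyU N i < keyU N j) (h2 : keyV N j < keyV N i) : Adj N i j := by
  by_contra h
  rcases lt_trichotomy i j with hij | hij | hij
  · have := key_nonadj hN hi hj h hij
    omega
  · subst hij; omega
  · have := key_nonadj hN hj hi (fun h' => h (by unfold Adj at *; omega)) hij
    omega

/-- left side, a linear word -/
def wU (N : ℕ) : List ℕ := (List.range (N + 2)).insertionSort (fun i j => keyU N i ≤ keyU N j)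

/-- the letters in the order of the right side -/
def wV0 (N : ℕ) : List ℕ := (List.range (N + 2)).insertionSort (fun i j => keyV N i ≤ keyV N j)

/-- right side, every letter twice -/
def wV (N : ℕ) : List ℕ := (wV0 N).flatMap (fun i => [i, i])

theorem perm_wU (N : ℕ) : (wU N).Perm (List.range (N + 2)) := List.perm_insertionSort _ _

theorem perm_wV0 (N : ℕ) : (wV0 N).Perm (List.range (N + 2)) := List.perm_insertionSort _ _

theorem nodup_wU (N : ℕ) : (wU N).Nodup := (perm_wU N).nodup_iff.2 List.nodup_range

theorem nodup_wV0 (N : ℕ) : (wV0 N).Nodup := (perm_wV0 N).nodup_iff.2 List.nodup_range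

theorem mem_wU {N i : ℕ} : i ∈ wU N ↔ i < N + 2 := by
  rw [(perm_wU N).mem_iff, List.mem_range]

theorem mem_wV0 {N i : ℕ} : i ∈ wV0 N ↔ i < N + 2 := by
  rw [(perm_wV0 N).mem_iff, List.mem_range]

theorem sorted_wU (N : ℕ) : (wU N).Pairwise (fun i j => keyU N i ≤ keyU N j) := by
  have : Std.Total (fun i j : ℕ => keyU N i ≤ keyU N j) := ⟨fun _ _ => le_total _ _⟩
  have : IsTrans ℕ (fun i j => keyU N i ≤ keyU N j) := ⟨fun _ _ _ => le_trans⟩
  exact List.pairwise_insertionSort _ _

theorem sorted_wV0 (N : ℕ) : (wV0 N).Pairwise (fun i j => keyV N i ≤ keyV N j) := by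
  have : Std.Total (fun i j : ℕ => keyV N i ≤ keyV N j) := ⟨fun _ _ => le_total _ _⟩
  have : IsTrans ℕ (fun i j => keyV N i ≤ keyV N j) := ⟨fun _ _ _ => le_trans⟩
  exact List.pairwise_insertionSort _ _

theorem wV_flatMap {A : Type} (N : ℕ) (s : ℕ → List A) :
    (wV N).flatMap s = (wV0 N).flatMap (fun i => s i ++ s i) := by
  unfold wV
  rw [List.flatMap_assoc]
  simp

theorem mem_wV_flatMap {A : Type} {N : ℕ} {s : ℕ → List A} {a : A} :
    a ∈ (wV N).flatMap s ↔ a ∈ (wU N).flatMap s := by
  rw [wV_flatMap, List.mem_flatMap, List.mem_flatMap]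
  constructor
  · rintro ⟨x, hx, hs⟩
    rw [List.mem_append, or_self] at hs
    exact ⟨x, mem_wU.2 (mem_wV0.1 hx), hs⟩
  · rintro ⟨x, hx, hs⟩
    exact ⟨x, mem_wV0.2 (mem_wU.1 hx), List.mem_append.2 (Or.inl hs)⟩

theorem count_wV_flatMap {A : Type} [DecidableEq A] (N : ℕ) (s : ℕ → List A) (a : A) :
    ((wV N).flatMap s).count a = 2 * ((wU N).flatMap s).count a := by
  rw [wV_flatMap, List.count_flatMap, List.count_flatMap]
  have h1 : ((wU N).map (List.count a ∘ s)).sum = ((wV0 N).map (List.count a ∘ s)).sum :=
    (((perm_wU N).trans (perm_wV0 N).symm).map _).sum_eq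
  rw [h1]
  generalize wV0 N = l
  induction l with
  | nil => simp
  | cons x l ih =>
    rw [List.map_cons, List.map_cons, List.sum_cons, List.sum_cons, ih]
    simp only [Function.comp_apply, List.count_append]
    ring

end Pool.Agent.ShufVar
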