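import Pool.Agent.ShufVar.ContinB

/-!
MP_cf3bcc_lc: continuum many noncommutative positive varieties closed under shuffle.
-/

namespace Pool.Agent.ShufVar

open Star60

/-! ### the graphs -/

theorem pos_lt {N i : ℕ} (hN : 4 ≤ N) (hi : i < N + 2) : pos N i < N := by
  unfold pos
  split_ifs <;> omega

theorem star {M x y₁ y₂ y₃ : ℕ} (hM : 4 ≤ M) (hx : x < M + 2) (h1 : y₁ < M + 2) (h2 : y₂ < M + 2)
    (h3 : y₃ < M + 2) (h12 : y₁ ≠ y₂) (h13 : y₁ ≠ y₃) (h23 : y₂ ≠ y₃) (a1 : Adj M x y₁)
    (a2 : Adj M x y₂) (a3 : Adj M x y₃) : pos M x = 1 ∨ pos M x + 2 = M := by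
  unfold Adj at *
  by_contra hc
  push Not at hc
  have hp := pos_lt hM hx
  have e1 : pos M y₁ < M := pos_lt hM h1
  have e2 : pos M y₂ < M := pos_lt hM h2
  have e3 : pos M y₃ < M := pos_lt hM h3
  have key : ∀ y, y < M + 2 → pos M y ≠ 0 → pos M y + 1 ≠ M → y = pos M y + 1 := by
    intro y hy h0 hM1
    unfold pos at *
    split_ifs at * <;> omega
  generalize hX : pos M x = X at *
  -- neighbours have interior positions unless `X ∈ {0, 1, M-2, M-1}`
  by_cases hX0 : X = 0
  · have k1 := key y₁ h1 (by omega) (by omega)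
    have k2 := key y₂ h2 (by omega) (by omega)
    omega
  by_cases hX1 : X + 1 = M
  · have k1 := key y₁ h1 (by omega) (by omega)
    have k2 := key y₂ h2 (by omega) (by omega)
    omega
  have k1 := key y₁ h1 (by omega) (by omega)
  have k2 := key y₂ h2 (by omega) (by omega)
  have k3 := key y₃ h3 (by omega) (by omega)
  omega

theorem adj_symm {N i j : ℕ} (h : Adj N i j) : Adj N j i := by
  unfold Adj at *
  omega

theorem pos_mid {N i : ℕ} (h1 : 1 ≤ i) (h2 : i ≤ N) : pos N i = i - 1 := by
  unfold pos
  rw [if_neg (by omega), Nat.min_eq_left (by omega)]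

theorem pos_zero (N : ℕ) : pos N 0 = 0 := by
  unfold pos
  rw [if_pos rfl]

theorem pos_last (N : ℕ) : pos N (N + 1) = N - 1 := by
  unfold pos
  rw [if_neg (by omega), Nat.min_eq_right (by omega)]

theorem adj_succ {N i : ℕ} (_ : 4 ≤ N) (h2 : 2 ≤ i) (hi : i < N) : Adj N i (i + 1) := by
  left
  rw [pos_mid (by omega) (by omega), pos_mid (by omega) (by omega)]
  omega

theorem adj_twoA {N : ℕ} (hN : 4 ≤ N) : Adj N 2 0 := by
  right
  rw [pos_zero, pos_mid (by omega) (by omega)]

theorem adj_twoB {N : ℕ} (hN : 4 ≤ N) : Adj N 2 1 := by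
  right
  rw [pos_mid (by omega) (by omega), pos_mid (by omega) (by omega)]

theorem adj_last {N : ℕ} (hN : 4 ≤ N) : Adj N (N - 1) (N + 1) := by
  left
  rw [pos_last, pos_mid (by omega) (by omega)]
  omega

theorem graph_le {N M : ℕ} (hN : 4 ≤ N) (hM : 4 ≤ M) (g : ℕ → ℕ) (hg : ∀ i < N + 2, g i < M + 2)
    (hinj : ∀ i < N + 2, ∀ j < N + 2, g i = g j → i = j)
    (hadj : ∀ i < N + 2, ∀ j < N + 2, Adj N i j → Adj M (g i) (g j)) : M ≤ N := by
  have s1 : pos M (g 2) = 1 ∨ pos M (g 2) + 2 = M :=
    star hM (hg 2 (by omega)) (hg 0 (by omega)) (hg 1 (by omega)) (hg 3 (by omega))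
      (fun h => by have := hinj 0 (by omega) 1 (by omega) h; omega)
      (fun h => by have := hinj 0 (by omega) 3 (by omega) h; omega)
      (fun h => by have := hinj 1 (by omega) 3 (by omega) h; omega)
      (hadj 2 (by omega) 0 (by omega) (adj_twoA hN)) (hadj 2 (by omega) 1 (by omega) (adj_twoB hN))
      (hadj 2 (by omega) 3 (by omega) (adj_succ hN (by omega) (by omega)))
  have s2 : pos M (g (N - 1)) = 1 ∨ pos M (g (N - 1)) + 2 = M :=
    star hM (hg _ (by omega)) (hg N (by omega)) (hg (N + 1) (by omega)) (hg (N - 2) (by omega))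
      (fun h => by have := hinj N (by omega) (N + 1) (by omega) h; omega)
      (fun h => by have := hinj N (by omega) (N - 2) (by omega) h; omega)
      (fun h => by have := hinj (N + 1) (by omega) (N - 2) (by omega) h; omega)
      (hadj (N - 1) (by omega) N (by omega) (by
        have := adj_succ hN (i := N - 1) (by omega) (by omega)
        rwa [Nat.sub_add_cancel (by omega)] at this))
      (hadj (N - 1) (by omega) (N + 1) (by omega) (adj_last hN))
      (hadj (N - 1) (by omega) (N - 2) (by omega) (by
        have := adj_succ hN (i := N - 2) (by omega) (by omega)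
        rw [show N - 2 + 1 = N - 1 by omega] at this
        exact adj_symm this))
  have hne : g 2 ≠ g (N - 1) := fun h => by
    have := hinj 2 (by omega) (N - 1) (by omega) h
    omega
  have hpne : pos M (g 2) ≠ pos M (g (N - 1)) := by
    intro h
    apply hne
    have l1 := hg 2 (by omega)
    have l2 := hg (N - 1) (by omega)
    generalize g 2 = x at *
    generalize g (N - 1) = y at *
    unfold pos at *
    split_ifs at * <;> omega
  have walk : ∀ k, 2 + k < N → pos M (g (2 + k)) ≤ pos M (g 2) + k ∧
      pos M (g 2) ≤ pos M (g (2 + k)) + k := by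
    intro k
    induction k with
    | zero => intro _; simp
    | succ k ih =>
      intro hk
      have h1 := ih (by omega)
      have h2 := hadj (2 + k) (by omega) (2 + k + 1) (by omega)
        (adj_succ hN (by omega) (by omega))
      unfold Adj at h2
      rw [show 2 + (k + 1) = 2 + k + 1 by omega]
      omega
  have h3 := walk (N - 3) (by omega)
  rw [show 2 + (N - 3) = N - 1 by omega] at h3
  omega

theorem graph_connected {N : ℕ} (hN : 4 ≤ N) (P : ℕ → Prop)
    (hP : ∀ i < N + 2, ∀ j < N + 2, Adj N i j → P i → P j) {a : ℕ} (ha : a < N + 2) (h : P a) :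
    ∀ i < N + 2, P i := by
  have down : ∀ k, 2 + k ≤ N → P (2 + k) → P 2 := by
    intro k
    induction k with
    | zero => intro _ h; exact h
    | succ k ih =>
      intro hk h
      refine ih (by omega) (hP (2 + k + 1) (by omega) (2 + k) (by omega)
        (adj_symm (adj_succ hN (by omega) (by omega))) h)
  have h2 : P 2 := by
    rcases Nat.lt_or_ge a 2 with h0 | h0
    · have : a = 0 ∨ a = 1 := by omega
      rcases this with rfl | rfl
      · exact hP 0 (by omega) 2 (by omega) (adj_symm (adj_twoA hN)) h
      · exact hP 1 (by omega) 2 (by omega) (adj_symm (adj_twoB hN)) h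
    · rcases Nat.lt_or_ge N a with h1 | h1
      · have : a = N + 1 := by omega
        subst this
        have h3 := hP (N + 1) (by omega) (N - 1) (by omega) (adj_symm (adj_last hN)) h
        refine down (N - 3) (by omega) ?_
        rwa [show 2 + (N - 3) = N - 1 by omega]
      · refine down (a - 2) (by omega) ?_
        rwa [show 2 + (a - 2) = a by omega]
  have up : ∀ k, 2 + k ≤ N → P (2 + k) := by
    intro k
    induction k with
    | zero => intro _; exact h2
    | succ k ih =>
      intro hk
      exact hP (2 + k) (by omega) (2 + k + 1) (by omega) (adj_succ hN (by omega) (by omega))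
        (ih (by omega))
  intro i hi
  rcases Nat.lt_or_ge i 2 with h0 | h0
  · have : i = 0 ∨ i = 1 := by omega
    rcases this with rfl | rfl
    · exact hP 2 (by omega) 0 (by omega) (adj_twoA hN) h2
    · exact hP 2 (by omega) 1 (by omega) (adj_twoB hN) h2
  · rcases Nat.lt_or_ge N i with h1 | h1
    · have : i = N + 1 := by omega
      subst this
      have h3 := up (N - 3) (by omega)
      rw [show 2 + (N - 3) = N - 1 by omega] at h3
      exact hP (N - 1) (by omega) (N + 1) (by omega) (adj_last hN) h3
    · have h3 := up (i - 2) (by omega)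
      rwa [show 2 + (i - 2) = i by omega] at h3

end Pool.Agent.ShufVar
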