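import Pool.Agent.ShufVar.ContinC

/-!
MP_cf3bcc_lc: continuum many noncommutative positive varieties closed under shuffle.
-/

namespace Pool.Agent.ShufVar

open Star60

/-- the witness language: a superword closed language that satisfies all conditions but the one
with index `N` -/
def Jn (N : ℕ) : Language (Fin (N + 2)) := {w | (∀ a, a ∈ w) ∧
  ((∃ a, 2 < w.count a) ∨
   (∃ i j : Fin (N + 2), i < j ∧ ¬ Adj N i j ∧ [j, i].Sublist w ∧ (2 ≤ w.count i ∨ 2 ≤ w.count j)) ∨
   ((∃ x y : Fin (N + 2), Adj N x y ∧ pos N x % 2 = 1 ∧ [x, y].Sublist w) ∧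
    (∀ x y : Fin (N + 2), Adj N x y → pos N x % 2 = 1 → ¬ [x, y].Sublist w →
      2 ≤ w.count x ∧ 2 ≤ w.count y) ∧
    (∀ i j : Fin (N + 2), i < j → ¬ Adj N i j → [j, i].Sublist w →
      2 ≤ w.count i ∨ 2 ≤ w.count j)))}

theorem jn_up {N : ℕ} {u v : List (Fin (N + 2))} (h : u.Sublist v) (hu : u ∈ Jn N) : v ∈ Jn N := by
  obtain ⟨h0, h1⟩ := hu
  have hcnt : ∀ a, u.count a ≤ v.count a := fun a => h.count_le a
  refine ⟨fun a => h.subset (h0 a), ?_⟩
  rcases h1 with ⟨a, ha⟩ | ⟨i, j, hij, hadj, hs, hc⟩ | ⟨⟨x, y, hxy, hx, hs⟩, h2, h3⟩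
  · exact Or.inl ⟨a, lt_of_lt_of_le ha (hcnt a)⟩
  · refine Or.inr (Or.inl ⟨i, j, hij, hadj, hs.trans h, ?_⟩)
    rcases hc with hc | hc
    · exact Or.inl (hc.trans (hcnt i))
    · exact Or.inr (hc.trans (hcnt j))
  · refine Or.inr (Or.inr ⟨⟨x, y, hxy, hx, hs.trans h⟩, ?_, ?_⟩)
    · intro x y hxy hx hns
      obtain ⟨h4, h5⟩ := h2 x y hxy hx (fun h' => hns (h'.trans h))
      exact ⟨h4.trans (hcnt x), h5.trans (hcnt y)⟩
    · intro i j hij hadj hs'
      have hne : i ≠ j := hij.ne
      rcases pair_total hne (h0 i) (h0 j) with h4 | h4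
      · have := pair_three hne (h4.trans h) hs'
        omega
      · rcases h3 i j hij hadj h4 with h5 | h5
        · exact Or.inl (h5.trans (hcnt i))
        · exact Or.inr (h5.trans (hcnt j))

/-- the letter `i` as a word -/
def sing (N : ℕ) (i : ℕ) : List (Fin (N + 2)) := if h : i < N + 2 then [⟨i, h⟩] else []

theorem mem_sing {N : ℕ} (a : Fin (N + 2)) : a ∈ sing N a := by
  unfold sing
  rw [dif_pos a.2]
  exact List.mem_singleton.2 rfl

theorem eq_of_mem_sing {N i : ℕ} {a : Fin (N + 2)} (h : a ∈ sing N i) : (a : ℕ) = i := by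
  unfold sing at h
  split_ifs at h with h1
  · rw [List.mem_singleton.1 h]
  · simp at h

theorem sing_pairwise {N : ℕ} {key : ℕ → ℕ} {l : List ℕ}
    (hl : l.Pairwise (fun i j => key i ≤ key j)) :
    (l.flatMap (sing N)).Pairwise (fun a b : Fin (N + 2) => key a ≤ key b) := by
  rw [List.pairwise_flatMap]
  refine ⟨fun i _ => ?_, hl.imp fun {i j} h a ha b hb => ?_⟩
  · unfold sing
    split_ifs <;> simp
  · rw [eq_of_mem_sing ha, eq_of_mem_sing hb]
    exact h

theorem sing_nodup {N : ℕ} {l : List ℕ} (hl : l.Nodup) : (l.flatMap (sing N)).Nodup := by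
  rw [List.nodup_flatMap]
  refine ⟨fun i _ => ?_, hl.imp fun {i j} h => ?_⟩
  · unfold sing
    split_ifs <;> simp
  · intro a ha hb
    exact h ((eq_of_mem_sing ha).symm.trans (eq_of_mem_sing hb))

theorem wU_mem_jn {N : ℕ} (hN : 4 ≤ N) : (wU N).flatMap (sing N) ∈ Jn N := by
  have hp := sing_pairwise (N := N) (sorted_wU N)
  have hmem : ∀ a : Fin (N + 2), (a : ℕ) ∈ wU N := fun a => mem_wU.2 a.2
  have hlt : ∀ a b : Fin (N + 2), keyU N a < keyU N b →
      [a, b].Sublist ((wU N).flatMap (sing N)) := fun a b h =>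
    pair_flatMap (pair_of_key (sorted_wU N) (hmem a) (hmem b) h) (mem_sing a) (mem_sing b)
  refine ⟨fun a => List.mem_flatMap.2 ⟨a, hmem a, mem_sing a⟩, Or.inr (Or.inr ⟨?_, ?_, ?_⟩)⟩
  · refine ⟨⟨2, by omega⟩, ⟨0, by omega⟩, adj_twoA hN, ?_, ?_⟩
    · change pos N 2 % 2 = 1
      rw [pos_mid (by omega) (by omega)]
    · exact hlt _ _ (key_adj hN (by omega) (by omega) (adj_twoA hN) (by
        rw [pos_mid (by omega) (by omega)])).1
  · intro x y hxy hx hns
    exact absurd (hlt x y (key_adj hN x.2 y.2 hxy hx).1) hns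
  · intro i j hij hadj hs
    have h1 := hp.sublist hs
    rw [List.pairwise_pair] at h1
    have h2 := (key_nonadj hN i.2 j.2 hadj hij).1
    omega

theorem wV_notMem_jn {N : ℕ} (hN : 4 ≤ N) : (wV N).flatMap (sing N) ∉ Jn N := by
  have hp : ((wV N).flatMap (sing N)).Pairwise
      (fun a b : Fin (N + 2) => keyV N a ≤ keyV N b) := by
    apply sing_pairwise
    unfold wV
    rw [List.pairwise_flatMap]
    refine ⟨fun i _ => by simp, (sorted_wV0 N).imp fun {i j} h a ha b hb => ?_⟩
    simp only [List.mem_cons, List.not_mem_nil, or_false, or_self] at ha hb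
    rw [ha, hb]
    exact h
  have hcnt : ∀ a, ((wV N).flatMap (sing N)).count a ≤ 2 := by
    intro a
    rw [count_wV_flatMap]
    have := List.nodup_iff_count_le_one.1 (sing_nodup (N := N) (nodup_wU N)) a
    omega
  rintro ⟨-, ⟨a, ha⟩ | ⟨i, j, hij, hadj, hs, -⟩ | ⟨⟨x, y, hxy, hx, hs⟩, -, -⟩⟩
  · have := hcnt a
    omega
  · have h1 := hp.sublist hs
    rw [List.pairwise_pair] at h1
    have h2 := (key_nonadj hN i.2 j.2 hadj hij).2
    omega
  · have h1 := hp.sublist hs
    rw [List.pairwise_pair] at h1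
    have h2 := (key_adj hN x.2 y.2 hxy hx).2
    omega

theorem pair_append3 {A : Type} {a b : A} {p r q : List A} : [a, b].Sublist (p ++ r ++ q) ↔
    [a, b].Sublist p ∨ (a ∈ p ∧ b ∈ r) ∨ [a, b].Sublist r ∨ (a ∈ p ∧ b ∈ q) ∨ (a ∈ r ∧ b ∈ q) ∨
      [a, b].Sublist q := by
  rw [pair_append, pair_append, List.mem_append]
  tauto

theorem jn_step {N M : ℕ} (hN : 4 ≤ N) (hM : 4 ≤ M) (hne : M ≠ N) (p q : List (Fin (N + 2)))
    (s : ℕ → List (Fin (N + 2))) (h : p ++ (wU M).flatMap s ++ q ∈ Jn N) :
    p ++ (wV M).flatMap s ++ q ∈ Jn N := by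
  obtain ⟨h0, h1⟩ := h
  have hmem : ∀ a, a ∈ (wV M).flatMap s ↔ a ∈ (wU M).flatMap s := fun a => mem_wV_flatMap
  have hcr : ∀ a, ((wV M).flatMap s).count a = 2 * ((wU M).flatMap s).count a :=
    count_wV_flatMap M s
  have hsU : ∀ x y a b, x < M + 2 → y < M + 2 → keyU M x < keyU M y → a ∈ s x → b ∈ s y →
      [a, b].Sublist ((wU M).flatMap s) := fun x y a b hx hy hk ha hb =>
    pair_flatMap (pair_of_key (sorted_wU M) (mem_wU.2 hx) (mem_wU.2 hy) hk) ha hb
  have hsV : ∀ x y a b, x < M + 2 → y < M + 2 → keyV M x < keyV M y → a ∈ s x → b ∈ s y →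
      [a, b].Sublist ((wV M).flatMap s) := by
    intro x y a b hx hy hk ha hb
    rw [wV_flatMap]
    exact pair_flatMap (pair_of_key (sorted_wV0 M) (mem_wV0.2 hx) (mem_wV0.2 hy) hk)
      (List.mem_append.2 (Or.inl ha)) (List.mem_append.2 (Or.inl hb))
  have hsS : ∀ x a b, x < M + 2 → a ∈ s x → b ∈ s x → [a, b].Sublist ((wV M).flatMap s) := by
    intro x a b hx ha hb
    rw [wV_flatMap]
    refine List.Sublist.trans ?_ (sublist_flatMap (fun i => s i ++ s i)
      (List.singleton_sublist.2 (mem_wV0.2 hx)))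
    simp only [List.flatMap_cons, List.flatMap_nil, List.append_nil]
    exact pair_append.2 (Or.inr (Or.inl ⟨ha, hb⟩))
  have hmU : ∀ a, a ∈ (wU M).flatMap s → ∃ x, x < M + 2 ∧ a ∈ s x := by
    intro a ha
    obtain ⟨x, hx, hs⟩ := List.mem_flatMap.1 ha
    exact ⟨x, mem_wU.1 hx, hs⟩
  generalize (wV M).flatMap s = r' at *
  generalize (wU M).flatMap s = r at *
  have hc0 : ∀ a, (p ++ r ++ q).count a = p.count a + r.count a + q.count a := fun a => by
    rw [List.count_append, List.count_append]
  have hc1 : ∀ a, (p ++ r' ++ q).count a = p.count a + 2 * r.count a + q.count a := fun a => by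
    rw [List.count_append, List.count_append, hcr]
  have hle : ∀ a, (p ++ r ++ q).count a ≤ (p ++ r' ++ q).count a := fun a => by
    rw [hc0, hc1]; omega
  have hun : ∀ a b, (a ∉ r ∨ b ∉ r) → ([a, b].Sublist (p ++ r' ++ q) ↔
      [a, b].Sublist (p ++ r ++ q)) := by
    intro a b hab
    have e1 : ¬ [a, b].Sublist r := fun h => by
      have := pair_mem h
      tauto
    have e2 : ¬ [a, b].Sublist r' := fun h => by
      have := pair_mem h
      rw [hmem, hmem] at this
      tauto
    rw [pair_append3, pair_append3, hmem, hmem]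
    tauto
  refine ⟨fun a => ?_, ?_⟩
  · have := h0 a
    simp only [List.mem_append, hmem] at this ⊢
    exact this
  by_cases hD1 : ∃ a, 2 < (p ++ r' ++ q).count a
  · exact Or.inl hD1
  push Not at hD1
  have hr : ∀ a, a ∈ r → (p ++ r ++ q).count a = 1 ∧ (p ++ r' ++ q).count a = 2 := by
    intro a ha
    have h2 := List.count_pos_iff.2 ha
    have h3 := hD1 a
    rw [hc0]
    rw [hc1] at h3 ⊢
    omega
  rcases h1 with ⟨a, ha⟩ | ⟨i, j, hij, hadj, hs, hc⟩ | ⟨⟨x₀, y₀, hxy₀, hx₀, hs₀⟩, h2, h3⟩
  · exact absurd (lt_of_lt_of_le ha (hle a)) (not_lt.2 (hD1 a))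
  · refine Or.inr (Or.inl ⟨i, j, hij, hadj, ?_, ?_⟩)
    · refine (hun j i ?_).2 hs
      by_contra hcon
      push Not at hcon
      have := (hr i hcon.2).1
      have := (hr j hcon.1).1
      omega
    · rcases hc with hc | hc
      · exact Or.inl (hc.trans (hle i))
      · exact Or.inr (hc.trans (hle j))
  · by_cases hD2 : ∃ i j : Fin (N + 2), i < j ∧ ¬ Adj N i j ∧ [j, i].Sublist (p ++ r' ++ q) ∧
      (2 ≤ (p ++ r' ++ q).count i ∨ 2 ≤ (p ++ r' ++ q).count j)
    · exact Or.inr (Or.inl hD2)
    have hNA : ∀ i j : Fin (N + 2), i < j → ¬ Adj N i j → ¬ [j, i].Sublist (p ++ r' ++ q) := by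
      intro i j hij hadj hs
      apply hD2
      refine ⟨i, j, hij, hadj, hs, ?_⟩
      by_cases hb : j ∈ r ∧ i ∈ r
      · exact Or.inl (hr i hb.2).2.ge
      · have h4 := (hun j i (by tauto)).1 hs
        rcases h3 i j hij hadj h4 with h5 | h5
        · exact Or.inl (h5.trans (hle i))
        · exact Or.inr (h5.trans (hle j))
    refine Or.inr (Or.inr ⟨?_, ?_, fun i j hij hadj hs => absurd hs (hNA i j hij hadj)⟩)
    · by_contra hcon
      push Not at hcon
      -- all letters are in the region
      have hall : ∀ a : Fin (N + 2), a ∈ r := by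
        have hx0 : x₀ ∈ r := by
          by_contra hx
          exact hcon x₀ y₀ hxy₀ hx₀ ((hun x₀ y₀ (Or.inl hx)).2 hs₀)
        have hcl : ∀ a b : Fin (N + 2), Adj N a b → a ∈ r → b ∈ r := by
          intro a b hab ha
          by_contra hb
          have h5 := (hr a ha).1
          rcases Nat.mod_two_eq_zero_or_one (pos N a) with h6 | h6
          · have h7 : pos N b % 2 = 1 := by
              unfold Adj at hab
              omega
            have h8 := hcon b a (adj_symm hab) h7
            rw [hun b a (Or.inl hb)] at h8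
            have := (h2 b a (adj_symm hab) h7 h8).2
            omega
          · have h8 := hcon a b hab h6
            rw [hun a b (Or.inr hb)] at h8
            have := (h2 a b hab h6 h8).1
            omega
        have h9 := graph_connected hN (fun i => ∃ h : i < N + 2, (⟨i, h⟩ : Fin (N + 2)) ∈ r)
          (by
            rintro i hi j hj hij ⟨hi', h⟩
            exact ⟨hj, hcl ⟨i, hi'⟩ ⟨j, hj⟩ hij h⟩) x₀.2 ⟨x₀.2, hx0⟩
        intro a
        obtain ⟨_, h10⟩ := h9 a a.2
        exact h10
      choose f hf1 hf2 using fun a => hmU a (hall a)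
      have hr'sub : ∀ a b : Fin (N + 2), [a, b].Sublist r' → [a, b].Sublist (p ++ r' ++ q) :=
        fun a b h => pair_append3.2 (Or.inr (Or.inr (Or.inl h)))
      have hrsub : ∀ a b : Fin (N + 2), [a, b].Sublist r → [a, b].Sublist (p ++ r ++ q) :=
        fun a b h => pair_append3.2 (Or.inr (Or.inr (Or.inl h)))
      have hinj : ∀ a b, f a = f b → a = b := by
        intro a b hab
        by_contra hne'
        have e1 := hr'sub a b (hsS (f a) a b (hf1 a) (hf2 a) (hab ▸ hf2 b))
        have e2 := hr'sub b a (hsS (f a) b a (hf1 a) (hab ▸ hf2 b) (hf2 a))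
        by_cases hadj : Adj N a b
        · rcases Nat.mod_two_eq_zero_or_one (pos N a) with h6 | h6
          · have h7 : pos N b % 2 = 1 := by
              unfold Adj at hadj
              omega
            exact hcon b a (adj_symm hadj) h7 e2
          · exact hcon a b hadj h6 e1
        · rcases lt_or_gt_of_ne hne' with h6 | h6
          · exact hNA a b h6 hadj e2
          · exact hNA b a h6 (fun h => hadj (adj_symm h)) e1
      have hodd : ∀ a b : Fin (N + 2), Adj N a b → pos N a % 2 = 1 → Adj M (f a) (f b) := by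
        intro a b hab ha
        have hnab : a ≠ b := by
          rintro rfl
          unfold Adj at hab
          omega
        have hnf : f a ≠ f b := fun h => hnab (hinj a b h)
        have e1 : [a, b].Sublist (p ++ r ++ q) := by
          by_contra hc
          have := (h2 a b hab ha hc).1
          have := (hr a (hall a)).1
          omega
        have e2 := hcon a b hab ha
        have e3 : ¬ keyU M (f b) < keyU M (f a) := by
          intro hk
          have h8 := hrsub b a (hsU _ _ b a (hf1 b) (hf1 a) hk (hf2 b) (hf2 a))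
          have h9 := pair_three hnab e1 h8
          have := (hr a (hall a)).1
          have := (hr b (hall b)).1
          omega
        have e4 : ¬ keyV M (f a) < keyV M (f b) := by
          intro hk
          exact e2 (hr'sub a b (hsV _ _ a b (hf1 a) (hf1 b) hk (hf2 a) (hf2 b)))
        by_contra hnadj
        rcases lt_or_gt_of_ne hnf with h6 | h6
        · have := key_nonadj hM (hf1 a) (hf1 b) hnadj h6
          omega
        · have := key_nonadj hM (hf1 b) (hf1 a) (fun h => hnadj (adj_symm h)) h6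
          omega
      have hadjf : ∀ a b : Fin (N + 2), Adj N a b → Adj M (f a) (f b) := by
        intro a b hab
        rcases Nat.mod_two_eq_zero_or_one (pos N a) with h6 | h6
        · have h7 : pos N b % 2 = 1 := by
            unfold Adj at hab
            omega
          exact adj_symm (hodd b a (adj_symm hab) h7)
        · exact hodd a b hab h6
      have hMN : M ≤ N := by
        refine graph_le hN hM (fun i => if h : i < N + 2 then f ⟨i, h⟩ else 0) ?_ ?_ ?_
        · intro i hi
          simp only [hi, dif_pos]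
          exact hf1 _
        · intro i hi j hj h
          simp only [hi, hj, dif_pos] at h
          have := hinj _ _ h
          exact congrArg Fin.val this
        · intro i hi j hj h
          simp only [hi, hj, dif_pos]
          exact hadjf ⟨i, hi⟩ ⟨j, hj⟩ h
      have hNM : N ≤ M := by
        have h5 : Function.Injective (fun a : Fin (N + 2) => (⟨f a, hf1 a⟩ : Fin (M + 2))) := by
          intro a b hab
          exact hinj a b (congrArg Fin.val hab)
        have := Fintype.card_le_of_injective _ h5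
        simp only [Fintype.card_fin] at this
        omega
      omega
    · intro x y hxy hx hns
      by_cases hb : x ∈ r ∧ y ∈ r
      · exact ⟨(hr x hb.1).2.ge, (hr y hb.2).2.ge⟩
      · rw [hun x y (by tauto)] at hns
        obtain ⟨h4, h5⟩ := h2 x y hxy hx hns
        exact ⟨h4.trans (hle x), h5.trans (hle y)⟩

/-! ### the family -/

/-- the conditions: left sides -/
def cU (n : ℕ) : List ℕ := wU (n + 4)

/-- the conditions: right sides -/
def cV (n : ℕ) : List ℕ := wV (n + 4)

theorem K_mem_lin (T : Set ℕ) : K ∈ (Lin cU cV T).mem Bool := by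
  rw [mem_lin]
  refine ⟨K_mem_up.2, ?_⟩
  intro n _ p q s h
  have hmem : ∀ c, c ∈ (cV n).flatMap s ↔ c ∈ (cU n).flatMap s := fun c => mem_wV_flatMap
  have hlen : ((cV n).flatMap s).length = 2 * ((cU n).flatMap s).length := by
    have h1 : ∀ l : List Bool, l.length = l.count true + l.count false := by
      intro l
      induction l with
      | nil => rfl
      | cons c l ih =>
        rw [List.length_cons, List.count_cons, List.count_cons, ih]
        cases c <;> simp <;> omega
    have h2 : ∀ c, ((cV n).flatMap s).count c = 2 * ((cU n).flatMap s).count c := fun c =>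
      count_wV_flatMap (n + 4) s c
    rw [h1, h1, h2, h2]
    ring
  generalize (cV n).flatMap s = r' at *
  generalize (cU n).flatMap s = r at *
  have ha : ∀ c, c ∈ p ++ r ++ q → c ∈ p ++ r' ++ q := by
    intro c hc
    simp only [List.mem_append, hmem] at hc ⊢
    exact hc
  have hl : (p ++ r' ++ q).length = (p ++ r ++ q).length + r.length := by
    simp only [List.length_append, hlen]
    ring
  rcases h with h | ⟨h1, h2, h3⟩
  · rcases Nat.eq_zero_or_pos r.length with h0 | h0
    · have hr : r = [] := List.length_eq_zero_iff.1 h0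
      have hr' : r' = [] := List.length_eq_zero_iff.1 (by rw [hlen, h0])
      left
      rw [hr']
      rw [hr] at h
      exact h
    · right
      have h4 : (p ++ r ++ q).length = 2 := by rw [h]; rfl
      refine ⟨by omega, ha _ ?_, ha _ ?_⟩
      · rw [h]; simp
      · rw [h]; simp
  · exact Or.inr ⟨by omega, ha _ h2, ha _ h3⟩

theorem K_not_comm {V : PosVar} (h : K ∈ V.mem Bool) : ¬ Commutative V := by
  intro hc
  have h1 := hc Bool K h [a, b] [b, a] (List.Perm.swap _ _ _) (Or.inl rfl)
  rcases h1 with h1 | h1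
  · simp at h1
  · simp at h1

theorem lin_le_iff {S T : Set ℕ} : Le (Lin cU cV S) (Lin cU cV T) ↔ T ⊆ S := by
  refine ⟨fun h n hn => ?_, lin_anti⟩
  by_contra hnS
  have h1 : Jn (n + 4) ∈ (Lin cU cV S).mem (Fin (n + 4 + 2)) := by
    rw [mem_lin]
    refine ⟨fun u v huv hu => jn_up huv hu, fun m hm p q s hs => ?_⟩
    refine jn_step (by omega) (by omega) ?_ p q s hs
    rintro h2
    have : m = n := by omega
    exact hnS (this ▸ hm)
  have h2 := (mem_lin.1 (h _ h1)).2 n hn [] [] (sing (n + 4))
  simp only [List.nil_append, List.append_nil] at h2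
  exact wV_notMem_jn (by omega) (h2 (wU_mem_jn (by omega)))

/-- the power set of `ℕ` embeds in the ordered set of the noncommutative positive varieties of
superword closed languages that are closed under shuffle -/
theorem powerset_embeds : ∃ Φ : Set ℕ → PosVar,
    (∀ S, ShuffleClosed (Φ S) ∧ ¬ Commutative (Φ S) ∧ SuperwordClosed (Φ S)) ∧
      ∀ S T, Le (Φ S) (Φ T) ↔ S ⊆ T :=
  ⟨fun S => Lin cU cV Sᶜ, fun S => ⟨lin_shuffleClosed (fun n => nodup_wU (n + 4)) _,
    K_not_comm (K_mem_lin _), lin_superwordClosed _ _ _⟩, fun S T => by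
      rw [lin_le_iff, Set.compl_subset_compl]⟩

end Pool.Agent.ShufVar
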