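import Pool.Agent.ShufVar.Bubble

/-!
MP_cf3bcc_lc: a regular subword closed language is a finite union of products.
-/

namespace Pool.Agent.ShufVar

variable {A : Type}

/-- products -/
abbrev Expr (A : Type) : Type := Σ N : ℕ, (Fin N → Atom A)

theorem okk_full_le {N : ℕ} {e : Fin N → Atom A} {i j : Fin N} (h : okk full e i j) : i ≤ j := by
  by_cases hi : isStar (e i)
  · by_cases hj : isStar (e j)
    · exact h.2.2.2 hi hj trivial
    · exact (h.2.2.1 hi hj trivial).le
  · by_cases hj : isStar (e j)
    · exact (h.2.1 hi hj trivial).le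
    · exact (h.1 hi hj).le

theorem okk_of_lt {N : ℕ} {e : Fin N → Atom A} {i j : Fin N} (h : i < j) : okk full e i j :=
  ⟨fun _ _ => h, fun _ _ _ => h, fun _ _ _ => h, fun _ _ _ => h.le⟩

theorem okk_succ {N : ℕ} {at_ : Atom A} {e : Fin N → Atom A} {i j : Fin N} :
    okk full (Fin.cons at_ e : Fin (N + 1) → Atom A) i.succ j.succ ↔ okk full e i j := by
  unfold okk
  simp only [Fin.cons_succ, Fin.succ_lt_succ_iff, Fin.succ_le_succ_iff]

theorem split_zero {N : ℕ} (W : List (A × Fin (N + 1)))
    (hW : W.Pairwise (fun x y => x.2 ≤ y.2)) :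
    ∃ (W₀ : List (A × Fin (N + 1))) (W₁ : List (A × Fin N)),
      W = W₀ ++ W₁.map (fun x => (x.1, x.2.succ)) ∧ ∀ x ∈ W₀, x.2 = 0 := by
  induction W with
  | nil => exact ⟨[], [], rfl, by simp⟩
  | cons x W ih =>
    rw [List.pairwise_cons] at hW
    obtain ⟨W₀, W₁, h1, h2⟩ := ih hW.2
    obtain ⟨c, l⟩ := x
    rcases Fin.eq_zero_or_eq_succ l with rfl | ⟨l', rfl⟩
    · refine ⟨(c, 0) :: W₀, W₁, by rw [h1]; rfl, ?_⟩
      intro x hx
      rcases List.mem_cons.1 hx with rfl | hx
      · rfl
      · exact h2 x hx
    · have h3 : W₀ = [] := by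
        cases W₀ with
        | nil => rfl
        | cons y W₀ =>
          have h4 := hW.1 y (by rw [h1]; simp)
          rw [h2 y (List.mem_cons_self ..)] at h4
          exact absurd h4 (by simp)
      subst h3
      exact ⟨[], (c, l') :: W₁, by rw [h1]; rfl, by simp⟩

theorem cl_zero (e : Fin 0 → Atom A) (w : List A) : w ∈ Cl full e ↔ w = [] := by
  constructor
  · rintro ⟨W, rfl, -, -⟩
    cases W with
    | nil => rfl
    | cons x W => exact x.2.elim0
  · rintro rfl
    exact ⟨[], rfl, by simp, List.Pairwise.nil⟩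

theorem cl_cons {N : ℕ} {at_ : Atom A} {e : Fin N → Atom A} {w : List A}
    (h : w ∈ Cl full (Fin.cons at_ e : Fin (N + 1) → Atom A)) :
    ∃ p q, w = p ++ q ∧ (∀ c ∈ p, fits c at_) ∧ (¬ isStar at_ → p.length ≤ 1) ∧ q ∈ Cl full e := by
  obtain ⟨W, rfl, h1, h2⟩ := h
  obtain ⟨W₀, W₁, rfl, h3⟩ := split_zero W (h2.imp fun h => okk_full_le h)
  refine ⟨W₀.map Prod.fst, W₁.map Prod.fst, ?_, ?_, ?_, ?_⟩
  · rw [List.map_append, List.map_map]
    rfl
  · intro c hc
    obtain ⟨x, hx, rfl⟩ := List.mem_map.1 hc
    have := h1 x (List.mem_append_left _ hx)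
    rwa [h3 x hx, Fin.cons_zero] at this
  · intro hs
    rw [List.length_map]
    match W₀, h2, h3 with
    | [], _, _ => simp
    | [_], _, _ => simp
    | x :: y :: W₀, h2, h3 =>
      exfalso
      rw [List.cons_append, List.pairwise_cons] at h2
      have h4 := h2.1 y (by simp)
      rw [h3 x (by simp), h3 y (by simp)] at h4
      exact absurd (h4.1 (by rwa [Fin.cons_zero]) (by rwa [Fin.cons_zero])) (lt_irrefl _)
  · refine ⟨W₁, rfl, ?_, ?_⟩
    · intro x hx
      have := h1 (x.1, x.2.succ) (List.mem_append_right _ (List.mem_map_of_mem hx))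
      simpa only [Fin.cons_succ] using this
    · rw [List.pairwise_append, List.pairwise_map] at h2
      exact h2.2.1.imp fun h => okk_succ.1 h

theorem cl_cons_of {N : ℕ} {at_ : Atom A} {e : Fin N → Atom A} {p q : List A}
    (h1 : ∀ c ∈ p, fits c at_) (h2 : ¬ isStar at_ → p.length ≤ 1) (h3 : q ∈ Cl full e) :
    p ++ q ∈ Cl full (Fin.cons at_ e : Fin (N + 1) → Atom A) := by
  obtain ⟨W, rfl, h4, h5⟩ := h3
  refine ⟨p.map (fun c => (c, 0)) ++ W.map (fun x => (x.1, x.2.succ)), ?_, ?_, ?_⟩
  · rw [List.map_append, List.map_map, List.map_map]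
    congr 1
    exact List.map_id p
  · intro x hx
    rcases List.mem_append.1 hx with hx | hx
    · obtain ⟨c, hc, rfl⟩ := List.mem_map.1 hx
      simp only [Fin.cons_zero]
      exact h1 c hc
    · obtain ⟨y, hy, rfl⟩ := List.mem_map.1 hx
      simp only [Fin.cons_succ]
      exact h4 y hy
  · rw [List.pairwise_append, List.pairwise_map, List.pairwise_map]
    refine ⟨?_, h5.imp fun h => okk_succ.2 h, ?_⟩
    · by_cases hs : isStar at_
      · refine List.pairwise_of_forall_mem_list fun _ _ _ _ => ?_
        exact ⟨fun h => absurd (by rwa [Fin.cons_zero]) h, fun h => absurd (by rwa [Fin.cons_zero]) h,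
          fun _ h => absurd (by rwa [Fin.cons_zero]) h, fun _ _ _ => le_refl _⟩
      · match p, h2 hs with
        | [], _ => exact List.Pairwise.nil
        | [_], _ => exact List.pairwise_singleton _ _
    · intro x hx y hy
      obtain ⟨c, _, rfl⟩ := List.mem_map.1 hx
      obtain ⟨z, _, rfl⟩ := List.mem_map.1 hy
      exact okk_of_lt (Fin.succ_pos _)

/-- the first letter outside `B` -/
theorem split_first (B : Set A) (w : List A) : (∀ c ∈ w, c ∈ B) ∨
    ∃ p x q, w = p ++ x :: q ∧ (∀ c ∈ p, c ∈ B) ∧ x ∉ B := by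
  induction w with
  | nil => left; simp
  | cons c w ih =>
    by_cases hc : c ∈ B
    · rcases ih with h | ⟨p, x, q, rfl, h1, h2⟩
      · left
        intro d hd
        rcases List.mem_cons.1 hd with rfl | hd
        · exact hc
        · exact h d hd
      · right
        refine ⟨c :: p, x, q, rfl, ?_, h2⟩
        intro d hd
        rcases List.mem_cons.1 hd with rfl | hd
        · exact hc
        · exact h1 d hd
    · right
      exact ⟨[], c, w, rfl, by simp, hc⟩

/-- residuals -/
def res (L : Language A) (p : List A) : Set (List A) := {w | p ++ w ∈ L}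

theorem finite_res {L : Language A} (hL : L.IsRegular) : (Set.range (res L)).Finite :=
  hL.finite_range_leftQuotient

theorem decomp_aux [Finite A] {L : Language A} (hL : L.IsRegular) (hs : SubC L) : ∀ (n : ℕ)
    (p : List A), {M | M ∈ Set.range (res L) ∧ M ⊂ res L p}.ncard = n →
    ∃ E : List (Expr A), ∀ w, p ++ w ∈ L ↔ ∃ x ∈ E, w ∈ Cl full x.2 := by
  intro n
  induction n using Nat.strong_induction_on with
  | _ n ih =>
    intro p hn
    by_cases hp : p ∈ L
    · have := Fintype.ofFinite A
      -- letters which are loops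
      set B : Set A := {x | ∀ w, p ++ x :: w ∈ L ↔ p ++ w ∈ L} with hB
      have hdel : ∀ x w, p ++ x :: w ∈ L → p ++ w ∈ L := by
        intro x w h
        refine hs _ _ ?_ h
        exact (List.Sublist.refl p).append (List.sublist_cons_self x w)
      have hloop : ∀ (u : List A) (_ : ∀ c ∈ u, c ∈ B) (w : List A), p ++ (u ++ w) ∈ L ↔ p ++ w ∈ L := by
        intro u
        induction u with
        | nil => intro _ w; rfl
        | cons c u ihu =>
          intro hu w
          rw [← ihu (fun d hd => hu d (List.mem_cons_of_mem _ hd)) w]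
          exact hu c (List.mem_cons_self ..) (u ++ w)
      have hrec : ∀ x, x ∉ B → ∃ E : List (Expr A), ∀ w, p ++ x :: w ∈ L ↔
          ∃ y ∈ E, w ∈ Cl full y.2 := by
        intro x hx
        have hlt : res L (p ++ [x]) ⊂ res L p := by
          constructor
          · intro w hw
            have hw' : (p ++ [x]) ++ w ∈ L := hw
            rw [List.append_assoc] at hw'
            exact hdel x w hw'
          · intro hle
            apply hx
            intro w
            refine ⟨hdel x w, fun h => ?_⟩
            have h1 : (p ++ [x]) ++ w ∈ L := hle (a := w) h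
            rwa [List.append_assoc] at h1
        obtain ⟨E, hE⟩ := ih _ (by
          rw [← hn]
          refine Set.ncard_lt_ncard ?_ ((finite_res hL).subset fun M hM => hM.1)
          refine ⟨fun M hM => ⟨hM.1, hM.2.trans hlt⟩, fun hle => ?_⟩
          have h1 := hle (a := res L (p ++ [x])) ⟨⟨_, rfl⟩, hlt⟩
          exact (ssubset_irrefl _ h1.2)) (p ++ [x]) rfl
        refine ⟨E, fun w => ?_⟩
        rw [← hE w, List.append_assoc]
        rfl
      choose! E hE using hrec
      classical
      refine ⟨⟨1, Fin.cons (.star B) Fin.elim0⟩ ::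
        (Finset.univ.toList.filter (fun x : A => x ∉ B)).flatMap (fun x => (E x).map
          (fun y => ⟨y.1 + 2, Fin.cons (.star B) (Fin.cons (.opt x) y.2)⟩)), fun w => ?_⟩
      constructor
      · intro hw
        rcases split_first B w with h | ⟨u, x, v, rfl, h1, h2⟩
        · refine ⟨_, List.mem_cons_self .., ?_⟩
          have h3 := cl_cons_of (at_ := Atom.star B) (e := Fin.elim0) (p := w) (q := [])
            (fun c hc => h c hc) (fun h => absurd trivial h) ((cl_zero _ _).2 rfl)
          rwa [List.append_nil] at h3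
        · have h3 : p ++ x :: v ∈ L := (hloop u h1 _).1 hw
          obtain ⟨y, hy, hv⟩ := (hE x h2 v).1 h3
          refine ⟨⟨y.1 + 2, Fin.cons (.star B) (Fin.cons (.opt x) y.2)⟩, ?_, ?_⟩
          · apply List.mem_cons_of_mem
            rw [List.mem_flatMap]
            refine ⟨x, ?_, List.mem_map_of_mem hy⟩
            rw [List.mem_filter]
            exact ⟨Finset.mem_toList.2 (Finset.mem_univ x), by simpa using h2⟩
          · refine cl_cons_of (fun c hc => h1 c hc) (fun h => absurd trivial h) ?_
            have h4 := cl_cons_of (at_ := Atom.opt x) (e := y.2) (p := [x]) (q := v)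
              (fun c hc => by simpa [fits] using hc) (fun _ => le_refl _) hv
            exact h4
      · rintro ⟨y, hy, hw⟩
        rcases List.mem_cons.1 hy with rfl | hy
        · obtain ⟨u, v, rfl, h1, -, h3⟩ := cl_cons hw
          rw [cl_zero] at h3
          subst h3
          rw [hloop u (fun c hc => h1 c hc), List.append_nil]
          exact hp
        · obtain ⟨x, hx, hy⟩ := List.mem_flatMap.1 hy
          obtain ⟨z, hz, rfl⟩ := List.mem_map.1 hy
          rw [List.mem_filter] at hx
          have hx' : x ∉ B := by simpa using hx.2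
          obtain ⟨u, v, rfl, h1, -, h3⟩ := cl_cons hw
          rw [hloop u (fun c hc => h1 c hc)]
          obtain ⟨u', v', rfl, h4, h5, h6⟩ := cl_cons h3
          have h7 : p ++ x :: v' ∈ L := (hE x hx' v').2 ⟨z, hz, h6⟩
          have h8 := h5 (fun h => h)
          match u', h8, h4 with
          | [], _, _ => exact hdel x _ h7
          | [c], _, h4 =>
            have h9 : c = x := h4 c (by simp)
            subst h9
            exact h7
    · refine ⟨[], fun w => ⟨fun h => absurd ?_ hp, by simp⟩⟩
      exact hs _ _ (List.sublist_append_left p w) h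

theorem exists_decomp [Finite A] {L : Language A} (hL : L.IsRegular) (hs : SubC L) :
    ∃ E : List (Expr A), ∀ w, w ∈ L ↔ ∃ x ∈ E, w ∈ Cl full x.2 := by
  obtain ⟨E, hE⟩ := decomp_aux hL hs _ [] rfl
  exact ⟨E, fun w => hE w⟩

end Pool.Agent.ShufVar
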