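import Mathlib

/-!
MP_cf3bcc_lc: positive varieties of languages closed under shuffle: definitions.
-/

namespace Pool.Agent.ShufVar

/-- the quotient `x⁻¹ L y⁻¹` -/
def quot {A : Type} (x y : List A) (L : Language A) : Language A := {u | x ++ u ++ y ∈ L}

/-- the inverse image of `L` under the morphism `A* → B*` given by `φ` on letters -/
def inv {A B : Type} (φ : A → List B) (L : Language B) : Language A := {u | u.flatMap φ ∈ L}

/-- the shuffle: all `u₁v₁⋯uₙvₙ` with `u₁⋯uₙ ∈ L₁` and `v₁⋯vₙ ∈ L₂` -/
def shuf {A : Type} (L₁ L₂ : Language A) : Language A :=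
  {w | ∃ l : List (List A × List A), w = l.flatMap (fun p => p.1 ++ p.2) ∧
    l.flatMap Prod.fst ∈ L₁ ∧ l.flatMap Prod.snd ∈ L₂}

/-- positive varieties of languages -/
@[ext] structure PosVar where
  /-- the languages over the finite alphabet `A` -/
  mem : ∀ (A : Type) [Finite A], Set (Language A)
  regular : ∀ (A : Type) [Finite A] (L : Language A), L ∈ mem A → L.IsRegular
  empty : ∀ (A : Type) [Finite A], ({w | False} : Language A) ∈ mem A
  univ : ∀ (A : Type) [Finite A], ({w | True} : Language A) ∈ mem A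
  union : ∀ (A : Type) [Finite A] (L M : Language A), L ∈ mem A → M ∈ mem A →
    ({w | w ∈ L ∨ w ∈ M} : Language A) ∈ mem A
  inter : ∀ (A : Type) [Finite A] (L M : Language A), L ∈ mem A → M ∈ mem A →
    ({w | w ∈ L ∧ w ∈ M} : Language A) ∈ mem A
  quot : ∀ (A : Type) [Finite A] (x y : List A) (L : Language A), L ∈ mem A →
    quot x y L ∈ mem A
  inv : ∀ (A B : Type) [Finite A] [Finite B] (φ : A → List B) (L : Language B), L ∈ mem B →
    inv φ L ∈ mem A

/-- inclusion of positive varieties -/
def Le (U V : PosVar) : Prop := ∀ (A : Type) [Finite A], U.mem A ⊆ V.mem A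

/-- closed under shuffle -/
def ShuffleClosed (V : PosVar) : Prop :=
  ∀ (A : Type) [Finite A] (L M : Language A), L ∈ V.mem A → M ∈ V.mem A → shuf L M ∈ V.mem A

/-- all languages are commutative -/
def Commutative (V : PosVar) : Prop :=
  ∀ (A : Type) [Finite A] (L : Language A), L ∈ V.mem A → ∀ u v : List A, u.Perm v → u ∈ L → v ∈ L

/-- all languages are closed under (scattered) subwords -/
def SubwordClosed (V : PosVar) : Prop :=
  ∀ (A : Type) [Finite A] (L : Language A), L ∈ V.mem A → ∀ u v : List A, v.Sublist u → u ∈ L → v ∈ L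

/-- all languages are closed under superwords -/
def SuperwordClosed (V : PosVar) : Prop :=
  ∀ (A : Type) [Finite A] (L : Language A), L ∈ V.mem A → ∀ u v : List A, u.Sublist v → u ∈ L → v ∈ L

/-- `U` is the smallest positive variety closed under shuffle containing `L₀` -/
def IsLeastWith (L₀ : Language Bool) (U : PosVar) : Prop :=
  ShuffleClosed U ∧ L₀ ∈ U.mem Bool ∧ ∀ V : PosVar, ShuffleClosed V → L₀ ∈ V.mem Bool → Le U V

/-- minimal among the noncommutative positive varieties closed under shuffle -/
def IsMinimalNC (V : PosVar) : Prop :=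
  ShuffleClosed V ∧ ¬ Commutative V ∧
    ∀ U : PosVar, ShuffleClosed U → ¬ Commutative U → Le U V → Le V U

/-- the letter `a` -/
abbrev a : Bool := false
/-- the letter `b` -/
abbrev b : Bool := true

/-- `K = {w ∈ {a,b}* : w = ab, or |w| ≥ 3 and both letters occur in w}` -/
def K : Language Bool := {w | w = [a, b] ∨ (3 ≤ w.length ∧ a ∈ w ∧ b ∈ w)}

/-- `F = {1, a, b, ab}` -/
def F : Language Bool := {w | w = [] ∨ w = [a] ∨ w = [b] ∨ w = [a, b]}

end Pool.Agent.ShufVar
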