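import Pool.Agent.ShufVar.Defs

/-!
MP_cf3bcc_lc: inequalities for positive varieties of subword closed languages.
-/

namespace Pool.Agent.ShufVar

/-- the power `xⁿ` of a word -/
def wpow {A : Type} (x : List A) (n : ℕ) : List A := (List.replicate n x).flatten

/-- `L` is closed under (scattered) subwords -/
def SubC {A : Type} (L : Language A) : Prop := ∀ u v : List A, v.Sublist u → u ∈ L → v ∈ L

/-- the inequality `x^ω y → y x^ω`: if `p xⁿ y q ∈ L` for all `n` then `p y xⁿ q ∈ L` for all `n` -/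
def MoveR {A : Type} (L : Language A) : Prop := ∀ p x y q : List A,
  (∀ n, p ++ wpow x n ++ y ++ q ∈ L) → ∀ n, p ++ y ++ wpow x n ++ q ∈ L

/-- the inequality `y x^ω → x^ω y`: if `p y xⁿ q ∈ L` for all `n` then `p xⁿ y q ∈ L` for all `n` -/
def MoveL {A : Type} (L : Language A) : Prop := ∀ p x y q : List A,
  (∀ n, p ++ y ++ wpow x n ++ q ∈ L) → ∀ n, p ++ wpow x n ++ y ++ q ∈ L

/-- the equality `x^ω y^ω = y^ω x^ω`: if `p xⁿ yⁿ q ∈ L` for all `n` then `p yⁿ xⁿ q ∈ L` for all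
`n` -/
def CommW {A : Type} (L : Language A) : Prop := ∀ p x y q : List A,
  (∀ n, p ++ wpow x n ++ wpow y n ++ q ∈ L) → ∀ n, p ++ wpow y n ++ wpow x n ++ q ∈ L

end Pool.Agent.ShufVar
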