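import Pool.Agent.ShufVar.Decomp

/-!
MP_cf3bcc_lc: tools: finite intersections, pairwise conditions, shuffles of families, Higman.
-/

namespace Pool.Agent.ShufVar

/-! ### finite lattice operations -/

theorem forall_mem {V : PosVar} {A ι : Type} [Finite A] [Finite ι] (L : ι → Language A)
    (h : ∀ i, L i ∈ V.mem A) : ({w | ∀ i, w ∈ L i} : Language A) ∈ V.mem A := by
  have := Fintype.ofFinite ι
  classical
  have key : ∀ s : Finset ι, ({w | ∀ i ∈ s, w ∈ L i} : Language A) ∈ V.mem A := by
    intro s
    induction s using Finset.induction_on with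
    | empty =>
      have h1 : ({w | ∀ i ∈ (∅ : Finset ι), w ∈ L i} : Language A) = ({w | True} : Language A) := by
        ext w
        constructor
        · intro _; trivial
        · intro _ i hi; simp at hi
      rw [h1]
      exact V.univ A
    | insert i s _ ih =>
      have h1 : ({w | ∀ j ∈ insert i s, w ∈ L j} : Language A) =
          ({w | w ∈ L i ∧ w ∈ ({w | ∀ j ∈ s, w ∈ L j} : Language A)} : Language A) := by
        ext w
        constructor
        · intro hw
          exact ⟨hw i (Finset.mem_insert_self i s), fun j hj => hw j (Finset.mem_insert_of_mem hj)⟩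
        · rintro ⟨h2, h3⟩ j hj
          rcases Finset.mem_insert.1 hj with rfl | hj
          · exact h2
          · exact h3 j hj
      rw [h1]
      exact V.inter A _ _ (h i) ih
  have h1 : ({w | ∀ i, w ∈ L i} : Language A) =
      ({w | ∀ i ∈ (Finset.univ : Finset ι), w ∈ L i} : Language A) := by
    ext w
    constructor
    · intro hw i _; exact hw i
    · intro hw i; exact hw i (Finset.mem_univ i)
  rw [h1]
  exact key _

theorem exists_mem {V : PosVar} {A ι : Type} [Finite A] (E : List ι) (f : ι → Language A)
    (h : ∀ x ∈ E, f x ∈ V.mem A) : ({w | ∃ x ∈ E, w ∈ f x} : Language A) ∈ V.mem A := by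
  induction E with
  | nil =>
    have h1 : ({w | ∃ x ∈ ([] : List ι), w ∈ f x} : Language A) = ({w | False} : Language A) := by
      ext w
      constructor
      · rintro ⟨x, hx, _⟩; simp at hx
      · intro hf; exact hf.elim
    rw [h1]
    exact V.empty A
  | cons x E ih =>
    have h1 : ({w | ∃ y ∈ x :: E, w ∈ f y} : Language A) =
        ({w | w ∈ f x ∨ w ∈ ({w | ∃ y ∈ E, w ∈ f y} : Language A)} : Language A) := by
      ext w
      constructor
      · rintro ⟨y, hy, hw⟩
        rcases List.mem_cons.1 hy with rfl | hy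
        · exact Or.inl hw
        · exact Or.inr ⟨y, hy, hw⟩
      · rintro (hw | ⟨y, hy, hw⟩)
        · exact ⟨x, List.mem_cons_self .., hw⟩
        · exact ⟨y, List.mem_cons_of_mem _ hy, hw⟩
    rw [h1]
    exact V.union A _ _ (h x (List.mem_cons_self ..))
      (ih fun y hy => h y (List.mem_cons_of_mem _ hy))

/-! ### pairwise conditions -/

/-- words over two letters with a pairwise condition -/
def PB (R : Bool → Bool → Prop) : Language Bool := {w | w.Pairwise R}

theorem pull_mem {V : PosVar} {A : Type} [Finite A] {R : Bool → Bool → Prop}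
    (hR : PB R ∈ V.mem Bool) (ψ : A → Option Bool) :
    ({w | w.Pairwise (fun α β => ∀ x, ψ α = some x → ∀ y, ψ β = some y → R x y)} : Language A) ∈
      V.mem A := by
  have h1 := V.inv A Bool (fun α => (ψ α).toList) _ hR
  suffices hEq : ({w | w.Pairwise (fun α β => ∀ x, ψ α = some x → ∀ y, ψ β = some y → R x y)} :
      Language A) = inv (fun α => (ψ α).toList) (PB R) by rw [hEq]; exact h1
  ext w
  change w.Pairwise _ ↔ (w.flatMap (fun α => (ψ α).toList)).Pairwise R
  rw [← List.filterMap_eq_flatMap_toList, List.pairwise_filterMap]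

theorem pairwise_mem {V : PosVar} {A : Type} [Finite A] (rel : A → A → Prop)
    (h : ∀ α₀ β₀, ¬ rel α₀ β₀ → ∃ R' : A → A → Prop,
      ({w | w.Pairwise R'} : Language A) ∈ V.mem A ∧ (∀ α β, rel α β → R' α β) ∧ ¬ R' α₀ β₀) :
    ({w | w.Pairwise rel} : Language A) ∈ V.mem A := by
  have h' : ∀ p : A × A, ∃ R' : A → A → Prop, ({w | w.Pairwise R'} : Language A) ∈ V.mem A ∧
      (∀ α β, rel α β → R' α β) ∧ (R' p.1 p.2 → rel p.1 p.2) := by
    intro p
    by_cases hp : rel p.1 p.2
    · refine ⟨fun _ _ => True, ?_, fun _ _ _ => trivial, fun _ => hp⟩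
      have h1 : ({w | w.Pairwise (fun _ _ => True)} : Language A) = ({w | True} : Language A) := by
        ext w
        constructor
        · intro _; trivial
        · intro _
          exact List.pairwise_of_forall_mem_list fun _ _ _ _ => trivial
      rw [h1]
      exact V.univ A
    · obtain ⟨R', h1, h2, h3⟩ := h p.1 p.2 hp
      exact ⟨R', h1, h2, fun h => absurd h h3⟩
  choose R' h1 h2 h3 using h'
  have h4 := forall_mem (V := V) (fun p : A × A => ({w | w.Pairwise (R' p)} : Language A)) h1
  suffices hEq : ({w | w.Pairwise rel} : Language A) =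
      ({w | ∀ p : A × A, w ∈ ({w | w.Pairwise (R' p)} : Language A)} : Language A) by
    rw [hEq]; exact h4
  ext w
  constructor
  · intro hw p
    have hw' : w.Pairwise rel := hw
    exact hw'.imp fun h => h2 p _ _ h
  · intro hw
    change w.Pairwise rel
    rw [List.pairwise_iff_forall_sublist]
    intro α β hs
    have h5 : w.Pairwise (R' (α, β)) := hw (α, β)
    exact h3 (α, β) (List.pairwise_iff_forall_sublist.1 h5 hs)

theorem two_test {V : PosVar} {A : Type} [Finite A] {R : Bool → Bool → Prop}
    (hR : PB R ∈ V.mem Bool) (rel : A → A → Prop) {α₀ β₀ : A} (hne : α₀ ≠ β₀) (x₀ y₀ : Bool)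
    (h1 : ¬ R x₀ y₀) (h2 : rel α₀ α₀ → R x₀ x₀) (h3 : rel β₀ β₀ → R y₀ y₀)
    (h4 : rel β₀ α₀ → R y₀ x₀) (h5 : ¬ rel α₀ β₀) :
    ∃ R' : A → A → Prop, ({w | w.Pairwise R'} : Language A) ∈ V.mem A ∧
      (∀ α β, rel α β → R' α β) ∧ ¬ R' α₀ β₀ := by
  classical
  refine ⟨_, pull_mem hR (fun γ => if γ = α₀ then some x₀ else if γ = β₀ then some y₀ else none),
    ?_, ?_⟩
  · intro α β hr x hx y hy
    by_cases hα : α = α₀
    · rw [if_pos hα, Option.some.injEq] at hx
      subst hα hx
      by_cases hβ : β = α
      · rw [if_pos hβ, Option.some.injEq] at hy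
        subst hβ hy
        exact h2 hr
      · rw [if_neg hβ] at hy
        by_cases hβ' : β = β₀
        · subst hβ'
          exact absurd hr h5
        · rw [if_neg hβ'] at hy
          cases hy
    · rw [if_neg hα] at hx
      by_cases hα' : α = β₀
      · rw [if_pos hα', Option.some.injEq] at hx
        subst hα' hx
        by_cases hβ : β = α₀
        · rw [if_pos hβ, Option.some.injEq] at hy
          subst hβ hy
          exact h4 hr
        · rw [if_neg hβ] at hy
          by_cases hβ' : β = α
          · rw [if_pos hβ', Option.some.injEq] at hy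
            subst hβ' hy
            exact h3 hr
          · rw [if_neg hβ'] at hy
            cases hy
      · rw [if_neg hα'] at hx
        cases hx
  · intro h
    exact h1 (h x₀ (if_pos rfl) y₀ (by rw [if_neg (Ne.symm hne), if_pos rfl]))

/-! ### shuffles of families -/

/-- the part of a labelled word with label `i` -/
def part {B ι : Type} [DecidableEq ι] (i : ι) (W : List (B × ι)) : List B :=
  (W.filter (fun x => x.2 = i)).map Prod.fst

theorem part_cons {B ι : Type} [DecidableEq ι] (i : ι) (x : B × ι) (W : List (B × ι)) :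
    part i (x :: W) = if x.2 = i then x.1 :: part i W else part i W := by
  unfold part
  rw [List.filter_cons]
  by_cases h : x.2 = i
  · simp [h]
  · simp [h]

theorem part_pos {B ι : Type} [DecidableEq ι] {i : ι} {x : B × ι} (W : List (B × ι))
    (h : x.2 = i) : part i (x :: W) = x.1 :: part i W := by
  rw [part_cons, if_pos h]

theorem part_neg {B ι : Type} [DecidableEq ι] {i : ι} {x : B × ι} (W : List (B × ι))
    (h : x.2 ≠ i) : part i (x :: W) = part i W := by
  rw [part_cons, if_neg h]

/-- the shuffle of the languages `M 0, …, M (m-1)` -/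
def ShufFam {B : Type} {m : ℕ} (M : Fin m → Language B) : Language B :=
  {w | ∃ W : List (B × Fin m), W.map Prod.fst = w ∧ ∀ i, part i W ∈ M i}

/-- relabelling -/
def toSum {m : ℕ} : Fin (m + 1) → Unit ⊕ Fin m := Fin.cases (Sum.inl ()) Sum.inr

/-- relabelling -/
def ofSum {m : ℕ} : Unit ⊕ Fin m → Fin (m + 1)
  | .inl _ => 0
  | .inr i => i.succ

theorem ofSum_toSum {m : ℕ} (i : Fin (m + 1)) : ofSum (toSum i) = i := by
  refine Fin.cases rfl (fun j => rfl) i

theorem part_zero {B : Type} {m : ℕ} (W : List (B × (Unit ⊕ Fin m))) :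
    part 0 (W.map (fun x => (x.1, ofSum x.2))) = (W.filterMap lft).map Prod.fst := by
  induction W with
  | nil => rfl
  | cons x W ih =>
    obtain ⟨c, l⟩ := x
    cases l with
    | inl l =>
      rw [List.map_cons, part_pos _ (rfl : ofSum (Sum.inl l) = 0), ih]
      rfl
    | inr l =>
      rw [List.map_cons, part_neg _ (Fin.succ_ne_zero l : ofSum (Sum.inr l) ≠ 0), ih]
      rfl

theorem part_succ {B : Type} {m : ℕ} (i : Fin m) (W : List (B × (Unit ⊕ Fin m))) :
    part i.succ (W.map (fun x => (x.1, ofSum x.2))) = part i (W.filterMap rgt) := by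
  induction W with
  | nil => rfl
  | cons x W ih =>
    obtain ⟨c, l⟩ := x
    cases l with
    | inl l =>
      rw [List.map_cons, part_neg _ ((Fin.succ_ne_zero i).symm : ofSum (Sum.inl l) ≠ i.succ), ih]
      rfl
    | inr l =>
      have h1 : List.filterMap rgt ((c, Sum.inr l) :: W) = (c, l) :: W.filterMap (rgt (Λ := Unit)) :=
        rfl
      rw [List.map_cons, h1]
      by_cases hl : l = i
      · subst hl
        rw [part_pos _ (rfl : ofSum (Sum.inr l) = l.succ), part_pos (i := l) (x := (c, l)) _ rfl, ih]
      · rw [part_neg _ ((fun h => hl (Fin.succ_injective _ h)) : ofSum (Sum.inr l) ≠ i.succ),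
          part_neg _ hl, ih]

theorem shufFam_mem {V : PosVar} (hV : ShuffleClosed V) {B : Type} [Finite B]
    (h1 : ({w | w = []} : Language B) ∈ V.mem B) : ∀ (m : ℕ) (M : Fin m → Language B)
    (_ : ∀ i, M i ∈ V.mem B), ShufFam M ∈ V.mem B := by
  intro m
  induction m with
  | zero =>
    intro M _
    suffices hEq : ShufFam M = ({w | w = []} : Language B) by rw [hEq]; exact h1
    ext w
    constructor
    · rintro ⟨W, rfl, -⟩
      cases W with
      | nil => rfl
      | cons x W => exact x.2.elim0
    · intro hw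
      exact ⟨[], hw.symm, fun i => i.elim0⟩
  | succ m ih =>
    intro M hM
    have h2 := hV B _ _ (hM 0) (ih (fun i => M i.succ) (fun i => hM i.succ))
    suffices hEq : ShufFam M = shuf (M 0) (ShufFam (fun i => M i.succ)) by rw [hEq]; exact h2
    ext w
    constructor
    · rintro ⟨W, rfl, hW⟩
      set W₂ : List (B × (Unit ⊕ Fin m)) := W.map (fun x => (x.1, toSum x.2)) with hW₂
      have hWW : W = W₂.map (fun x => (x.1, ofSum x.2)) := by
        rw [hW₂, List.map_map]
        conv_lhs => rw [← List.map_id W]
        refine List.map_congr_left fun x _ => ?_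
        simp only [Function.comp, ofSum_toSum]
        rfl
      have hs := sh_filterMap W₂
      have h3 : W₂.map Prod.fst = W.map Prod.fst := by
        rw [hW₂, List.map_map]
        rfl
      rw [h3] at hs
      refine mem_shuf.2 ⟨_, ?_, _, ⟨W₂.filterMap rgt, rfl, ?_⟩, hs⟩
      · have := hW 0
        rw [hWW, part_zero] at this
        exact this
      · intro i
        have := hW i.succ
        rw [hWW, part_succ] at this
        exact this
    · intro h
      obtain ⟨u, hu, v, ⟨W', rfl, hW'⟩, hs⟩ := mem_shuf.1 h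
      obtain ⟨W₂, h3, h4, h5⟩ := exists_merge hs (u.map (fun c => (c, ()))) W'
        (by rw [List.map_map]; exact List.map_id u) rfl
      refine ⟨W₂.map (fun x => (x.1, ofSum x.2)), ?_, ?_⟩
      · rw [List.map_map]
        exact h3
      · intro i
        refine Fin.cases ?_ (fun i => ?_) i
        · rw [part_zero, h4, List.map_map]
          have : List.map (Prod.fst ∘ fun c => (c, ())) u = u := List.map_id u
          rw [this]
          exact hu
        · rw [part_succ, h5]
          exact hW' i

theorem shufFam_sub {B : Type} {m : ℕ} {M : Fin m → Language B} (h : ∀ i, SubC (M i)) :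
    SubC (ShufFam M) := by
  rintro _ v hv ⟨W, rfl, hW⟩
  obtain ⟨W', hW', rfl⟩ := List.sublist_map_iff.1 hv
  exact ⟨W', rfl, fun i => h i _ _ ((hW'.filter _).map _) (hW i)⟩

/-! ### Higman -/

theorem exists_minor_bound {A : Type} [Finite A] {C : Language A} :
    ∃ k, ∀ w, w ∉ C → ∃ w', w'.Sublist w ∧ w' ∉ C ∧ w'.length ≤ k := by
  set T : Set (List A) := {w | w ∉ C ∧ ∀ w', w'.Sublist w → w' ≠ w → w' ∈ C} with hT
  have hpwo : (Set.univ : Set (List A)).PartiallyWellOrderedOn (List.SublistForall₂ (· = ·)) := by
    have h1 := Set.PartiallyWellOrderedOn.partiallyWellOrderedOn_sublistForall₂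
      (r := ((· = ·) : A → A → Prop)) (s := Set.univ)
      ((Set.toFinite (Set.univ : Set A)).partiallyWellOrderedOn)
    refine h1.mono ?_
    intro w _ x _
    trivial
  have hfin : T.Finite := by
    have hanti : IsAntichain (List.SublistForall₂ ((· = ·) : A → A → Prop)) T := by
      intro w hw w' hw' hne h
      rw [List.sublistForall₂_iff] at h
      obtain ⟨l, h1, h2⟩ := h
      rw [List.forall₂_eq_eq_eq] at h1
      subst h1
      exact hw.1 (hw'.2 w h2 hne)
    exact hanti.finite_of_partiallyWellOrderedOn (hpwo.mono (Set.subset_univ _))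
  obtain ⟨k, hk⟩ := (hfin.image List.length).bddAbove
  refine ⟨k, ?_⟩
  have key : ∀ n, ∀ w : List A, w.length = n → w ∉ C → ∃ w', w'.Sublist w ∧ w' ∈ T := by
    intro n
    induction n using Nat.strong_induction_on with
    | _ n ih =>
      intro w hw hwC
      by_cases h : ∀ w', w'.Sublist w → w' ≠ w → w' ∈ C
      · exact ⟨w, List.Sublist.refl w, hwC, h⟩
      · push Not at h
        obtain ⟨w', h1, h2, h3⟩ := h
        have h4 : w'.length < n := by
          rw [← hw]
          exact lt_of_le_of_ne h1.length_le fun heq => h2 (h1.eq_of_length heq)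
        obtain ⟨w'', h5, h6⟩ := ih _ h4 w' rfl h3
        exact ⟨w'', h5.trans h1, h6⟩
  intro w hw
  obtain ⟨w', h1, h2⟩ := key _ w rfl hw
  exact ⟨w', h1, h2.1, hk ⟨w', h2, rfl⟩⟩

end Pool.Agent.ShufVar
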