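import Pool.Agent.ShufVar.Class

/-!
MP_cf3bcc_lc: the five varieties are different and have the required properties.
-/

namespace Pool.Agent.ShufVar

theorem wpow_nil {A : Type} (n : ℕ) : wpow ([] : List A) n = [] := by
  induction n with
  | zero => rfl
  | succ n ih => rw [wpow_succ, ih]; rfl

theorem wpow_two {A : Type} (x : List A) : wpow x 2 = x ++ x := by
  rw [wpow_succ, wpow_one]

theorem moveR_comm {A : Type} {L : Language A} (hs : SubC L) (h : MoveR L) : CommW L := by
  intro p x y q hn m
  refine h p x (wpow y m) q (fun n => ?_) m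
  refine hs _ _ ?_ (hn (max n m))
  exact (((List.Sublist.refl p).append (wpow_mono x (le_max_left _ _))).append
    (wpow_mono y (le_max_right _ _))).append (List.Sublist.refl q)

theorem moveL_comm {A : Type} {L : Language A} (hs : SubC L) (h : MoveL L) : CommW L := by
  intro p x y q hn m
  refine h p y (wpow x m) q (fun n => ?_) m
  refine hs _ _ ?_ (hn (max n m))
  exact (((List.Sublist.refl p).append (wpow_mono x (le_max_right _ _))).append
    (wpow_mono y (le_max_left _ _))).append (List.Sublist.refl q)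

theorem isRegular_PB (R : Bool → Bool → Prop) : (PB R).IsRegular := by
  classical
  refine Star60.isRegular_of_index (ι := Bool × Set Bool) _ (fun i =>
    ({y | i.1 = true ∧ y.Pairwise R ∧ ∀ c ∈ i.2, ∀ d ∈ y, R c d} : Language Bool)) ?_
  intro x
  refine ⟨(decide (x.Pairwise R), {c | c ∈ x}), fun y => ?_⟩
  change (x ++ y).Pairwise R ↔ decide (x.Pairwise R) = true ∧ y.Pairwise R ∧
    ∀ c ∈ {c | c ∈ x}, ∀ d ∈ y, R c d
  rw [List.pairwise_append, decide_eq_true_iff]
  rfl

theorem subC_PB (R : Bool → Bool → Prop) : SubC (PB R) := fun _ _ hv hu => List.Pairwise.sublist hv hu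

/-! ### `F` -/

theorem len_F {w : List Bool} (h : w ∈ F) : w.length ≤ 2 := by
  rcases h with rfl | rfl | rfl | rfl <;> decide

theorem nil_of_len {A : Type} {x : List A} (h : (wpow x 3).length ≤ 2) : x = [] := by
  cases x with
  | nil => rfl
  | cons c x =>
    rw [wpow_succ, wpow_two] at h
    simp only [List.length_append, List.length_cons] at h
    omega

theorem cond_F (θ : Kind) : Cond θ F := by
  refine ⟨?_, fun _ => ?_, fun _ => ?_, fun _ => ?_⟩
  · rw [F_eq]; exact subC_PB _
  · intro p x y q h n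
    have hx : x = [] := nil_of_len (by
      have := len_F (h 3)
      simp only [List.length_append] at this
      omega)
    subst hx
    have := h 0
    rw [wpow_nil] at this ⊢
    simpa using this
  · intro p x y q h n
    have hx : x = [] := nil_of_len (by
      have := len_F (h 3)
      simp only [List.length_append] at this
      omega)
    subst hx
    have := h 0
    rw [wpow_nil] at this ⊢
    simpa using this
  · intro p x y q h n
    have hx : x = [] := nil_of_len (by
      have := len_F (h 3)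
      simp only [List.length_append] at this
      omega)
    have hy : y = [] := nil_of_len (by
      have := len_F (h 3)
      simp only [List.length_append] at this
      omega)
    subst hx hy
    have := h 0
    rw [wpow_nil] at this ⊢
    simpa using this

theorem F_mem_wv (θ : Kind) : F ∈ (Wv θ).mem Bool := ⟨isRegular_F, cond_F θ⟩

/-! ### `a*(1+b)` -/

theorem os_intro {l q : List Bool} (h : ∀ c ∈ l, c = a) (hq : q.Pairwise (fun x _ => x = a)) :
    (l ++ q).Pairwise (fun x _ => x = a) := by
  rw [List.pairwise_append]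
  exact ⟨List.pairwise_of_forall_mem_list fun c hc _ _ => h c hc, hq, fun c hc _ _ => h c hc⟩

theorem os_all {l r : List Bool} (h : (l ++ r).Pairwise (fun x _ => x = a)) (hr : r ≠ []) :
    ∀ c ∈ l, c = a := by
  intro c hc
  obtain ⟨d, r', rfl⟩ := List.exists_cons_of_ne_nil hr
  exact (List.pairwise_append.1 h).2.2 c hc d (by simp)

theorem os_moveL : MoveL OSL := by
  intro p x y q h n
  change (p ++ wpow x n ++ y ++ q).Pairwise (fun x _ => x = a)
  by_cases hx : x = []
  · subst hx
    have h0 : (p ++ y ++ wpow [] 0 ++ q).Pairwise (fun x _ => x = a) := h 0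
    rw [wpow_nil] at h0 ⊢
    simpa using h0
  · have h2 : (p ++ y ++ wpow x 2 ++ q).Pairwise (fun x _ => x = a) := h 2
    rw [wpow_two] at h2
    have h3 : (p ++ y ++ x ++ (x ++ q)).Pairwise (fun x _ => x = a) := by
      simpa only [List.append_assoc] using h2
    have h4 := os_all h3 (by simp [hx])
    refine os_intro ?_ (h3.sublist ((List.sublist_append_right x q).trans
      (List.sublist_append_right _ _)))
    intro c hc
    apply h4
    simp only [List.mem_append] at hc ⊢
    rcases hc with (hc | hc) | hc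
    · exact Or.inl (Or.inl hc)
    · exact Or.inr (mem_wpow hc)
    · exact Or.inl (Or.inr hc)

theorem os_comm : CommW OSL := moveL_comm (subC_PB _) os_moveL

theorem os_not_moveR : ¬ MoveR OSL := by
  intro h
  have h1 := h [] [a] [b] [] (fun n => by
    change ([] ++ wpow [a] n ++ [b] ++ []).Pairwise (fun x _ => x = a)
    rw [List.append_nil, List.nil_append]
    refine os_intro ?_ (List.pairwise_singleton _ _)
    intro c hc
    have := mem_wpow hc
    simpa using this) 1
  have h2 : [b, a].Pairwise (fun x _ => x = a) := h1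
  simp at h2

/-! ### `(1+b)a*` -/

theorem so_intro {l q : List Bool} (h : ∀ c ∈ q, c = a) (hl : l.Pairwise (fun _ y => y = a)) :
    (l ++ q).Pairwise (fun _ y => y = a) := by
  rw [List.pairwise_append]
  exact ⟨hl, List.pairwise_of_forall_mem_list fun _ _ c hc => h c hc, fun _ _ c hc => h c hc⟩

theorem so_all {l r : List Bool} (h : (l ++ r).Pairwise (fun _ y => y = a)) (hl : l ≠ []) :
    ∀ c ∈ r, c = a := by
  intro c hc
  obtain ⟨d, l', rfl⟩ := List.exists_cons_of_ne_nil hl
  exact (List.pairwise_append.1 h).2.2 d (by simp) c hc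

theorem so_moveR : MoveR SOL := by
  intro p x y q h n
  change (p ++ y ++ wpow x n ++ q).Pairwise (fun _ y => y = a)
  by_cases hx : x = []
  · subst hx
    have h0 : (p ++ wpow [] 0 ++ y ++ q).Pairwise (fun _ y => y = a) := h 0
    rw [wpow_nil] at h0 ⊢
    simpa using h0
  · have h2 : (p ++ wpow x 2 ++ y ++ q).Pairwise (fun _ y => y = a) := h 2
    rw [wpow_two] at h2
    have h3 : (p ++ x ++ (x ++ y ++ q)).Pairwise (fun _ y => y = a) := by
      simpa only [List.append_assoc] using h2
    have h4 := so_all h3 (by simp [hx])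
    have h5 : (p ++ (y ++ wpow x n ++ q)).Pairwise (fun _ y => y = a) := by
      refine so_intro ?_ (h3.sublist ((List.sublist_append_left p x).trans
        (List.sublist_append_left _ _)))
      intro c hc
      apply h4
      simp only [List.mem_append] at hc ⊢
      rcases hc with (hc | hc) | hc
      · exact Or.inl (Or.inr hc)
      · exact Or.inl (Or.inl (mem_wpow hc))
      · exact Or.inr hc
    simpa only [List.append_assoc] using h5

theorem so_comm : CommW SOL := moveR_comm (subC_PB _) so_moveR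

theorem so_not_moveL : ¬ MoveL SOL := by
  intro h
  have h1 := h [] [a] [b] [] (fun n => by
    change ([] ++ [b] ++ wpow [a] n ++ []).Pairwise (fun _ y => y = a)
    rw [List.append_nil, List.nil_append]
    refine so_intro ?_ (List.pairwise_singleton _ _)
    intro c hc
    have := mem_wpow hc
    simpa using this) 1
  have h2 : [a, b].Pairwise (fun _ y => y = a) := h1
  simp at h2

/-! ### `a*b*` -/

theorem ss_not_comm : ¬ CommW SSL := by
  intro h
  have h1 := h [] [a] [b] [] (fun n => by
    change ([] ++ wpow [a] n ++ wpow [b] n ++ []).Pairwise (fun x y => ¬ (x = b ∧ y = a))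
    rw [List.append_nil, List.nil_append, List.pairwise_append]
    refine ⟨List.pairwise_of_forall_mem_list ?_, List.pairwise_of_forall_mem_list ?_, ?_⟩
    · rintro c hc d hd ⟨rfl, rfl⟩
      have := mem_wpow hc
      simp at this
    · rintro c hc d hd ⟨rfl, rfl⟩
      have := mem_wpow hd
      simp at this
    · rintro c hc d hd ⟨rfl, rfl⟩
      have := mem_wpow hc
      simp at this) 1
  have h2 : [b, a].Pairwise (fun x y => ¬ (x = b ∧ y = a)) := h1
  simp at h2

/-! ### the five kinds -/

/-- both inequalities -/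
def k1 : Kind := ⟨False, False, False⟩
/-- `x^ω y → y x^ω` -/
def k2 : Kind := ⟨False, True, False⟩
/-- `y x^ω → x^ω y` -/
def k3 : Kind := ⟨True, False, False⟩
/-- `x^ω y^ω = y^ω x^ω` -/
def k4 : Kind := ⟨True, True, False⟩

theorem mem_k1 (A : Type) [Finite A] (L : Language A) :
    L ∈ (Wv k1).mem A ↔ L.IsRegular ∧ SubC L ∧ MoveR L ∧ MoveL L := by
  constructor
  · rintro ⟨h1, h2, h3, h4, -⟩
    exact ⟨h1, h2, h3 id, h4 id⟩
  · rintro ⟨h1, h2, h3, h4⟩
    exact ⟨h1, h2, fun _ => h3, fun _ => h4, fun _ => moveR_comm h2 h3⟩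

theorem mem_k2 (A : Type) [Finite A] (L : Language A) :
    L ∈ (Wv k2).mem A ↔ L.IsRegular ∧ SubC L ∧ MoveR L := by
  constructor
  · rintro ⟨h1, h2, h3, -, -⟩
    exact ⟨h1, h2, h3 id⟩
  · rintro ⟨h1, h2, h3⟩
    exact ⟨h1, h2, fun _ => h3, fun h => absurd trivial h, fun _ => moveR_comm h2 h3⟩

theorem mem_k3 (A : Type) [Finite A] (L : Language A) :
    L ∈ (Wv k3).mem A ↔ L.IsRegular ∧ SubC L ∧ MoveL L := by
  constructor
  · rintro ⟨h1, h2, -, h3, -⟩
    exact ⟨h1, h2, h3 id⟩
  · rintro ⟨h1, h2, h3⟩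
    exact ⟨h1, h2, fun h => absurd trivial h, fun _ => h3, fun _ => moveL_comm h2 h3⟩

theorem mem_k4 (A : Type) [Finite A] (L : Language A) :
    L ∈ (Wv k4).mem A ↔ L.IsRegular ∧ SubC L ∧ CommW L := by
  constructor
  · rintro ⟨h1, h2, -, -, h3⟩
    exact ⟨h1, h2, h3 id⟩
  · rintro ⟨h1, h2, h3⟩
    exact ⟨h1, h2, fun h => absurd trivial h, fun h => absurd trivial h, fun _ => h3⟩

theorem mem_k5 (A : Type) [Finite A] (L : Language A) :
    L ∈ (Wv full).mem A ↔ L.IsRegular ∧ SubC L := by
  constructor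
  · rintro ⟨h1, h2, -⟩
    exact ⟨h1, h2⟩
  · rintro ⟨h1, h2⟩
    exact ⟨h1, h2, fun h => absurd trivial h, fun h => absurd trivial h, fun h => absurd trivial h⟩

theorem five_distinct : [Wv k1, Wv k2, Wv k3, Wv k4, Wv full].Nodup := by
  have o2 : OSL ∉ (Wv k2).mem Bool := fun h => os_not_moveR ((mem_k2 _ _).1 h).2.2
  have o1 : OSL ∉ (Wv k1).mem Bool := fun h => os_not_moveR ((mem_k1 _ _).1 h).2.2.1
  have o3 : OSL ∈ (Wv k3).mem Bool := (mem_k3 _ _).2 ⟨isRegular_PB _, subC_PB _, os_moveL⟩
  have o4 : OSL ∈ (Wv k4).mem Bool := (mem_k4 _ _).2 ⟨isRegular_PB _, subC_PB _, os_comm⟩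
  have o5 : OSL ∈ (Wv full).mem Bool := (mem_k5 _ _).2 ⟨isRegular_PB _, subC_PB _⟩
  have s1 : SOL ∉ (Wv k1).mem Bool := fun h => so_not_moveL ((mem_k1 _ _).1 h).2.2.2
  have s3 : SOL ∉ (Wv k3).mem Bool := fun h => so_not_moveL ((mem_k3 _ _).1 h).2.2
  have s2 : SOL ∈ (Wv k2).mem Bool := (mem_k2 _ _).2 ⟨isRegular_PB _, subC_PB _, so_moveR⟩
  have s4 : SOL ∈ (Wv k4).mem Bool := (mem_k4 _ _).2 ⟨isRegular_PB _, subC_PB _, so_comm⟩
  have t4 : SSL ∉ (Wv k4).mem Bool := fun h => ss_not_comm ((mem_k4 _ _).1 h).2.2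
  have t5 : SSL ∈ (Wv full).mem Bool := (mem_k5 _ _).2 ⟨isRegular_PB _, subC_PB _⟩
  have n12 : Wv k1 ≠ Wv k2 := fun h => s1 (h ▸ s2)
  have n13 : Wv k1 ≠ Wv k3 := fun h => o1 (h ▸ o3)
  have n14 : Wv k1 ≠ Wv k4 := fun h => o1 (h ▸ o4)
  have n15 : Wv k1 ≠ Wv full := fun h => o1 (h ▸ o5)
  have n23 : Wv k2 ≠ Wv k3 := fun h => o2 (h ▸ o3)
  have n24 : Wv k2 ≠ Wv k4 := fun h => o2 (h ▸ o4)
  have n25 : Wv k2 ≠ Wv full := fun h => o2 (h ▸ o5)
  have n34 : Wv k3 ≠ Wv k4 := fun h => s3 (h ▸ s4)
  have n35 : Wv k3 ≠ Wv full := fun h => s3 (h ▸ (mem_k5 _ _).2 ⟨isRegular_PB _, subC_PB _⟩)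
  have n45 : Wv k4 ≠ Wv full := fun h => t4 (h ▸ t5)
  simp only [List.nodup_cons, List.mem_cons, List.not_mem_nil, not_or, or_false, not_false_eq_true,
    List.nodup_nil, and_true]
  exact ⟨⟨n12, n13, n14, n15⟩, ⟨n23, n24, n25⟩, ⟨n34, n35⟩, n45⟩

theorem five_iff (V : PosVar) : (ShuffleClosed V ∧ ¬ Commutative V ∧ SubwordClosed V) ↔
    V = Wv k1 ∨ V = Wv k2 ∨ V = Wv k3 ∨ V = Wv k4 ∨ V = Wv full := by
  constructor
  · rintro ⟨hV, hc, hs⟩
    have hF := F_mem hc hs
    have heq := eq_wv hV hc hs
    by_cases h3 : SSL ∈ V.mem Bool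
    · have h1 := ss_os hF h3
      have h2 := ss_so hF h3
      have hk : kindOf V = full := by
        unfold kindOf full
        simp only [h1, h2, h3]
      rw [hk] at heq
      exact Or.inr (Or.inr (Or.inr (Or.inr heq)))
    · by_cases h1 : OSL ∈ V.mem Bool
      · by_cases h2 : SOL ∈ V.mem Bool
        · have hk : kindOf V = k4 := by
            unfold kindOf k4
            simp only [h1, h2, h3]
          rw [hk] at heq
          exact Or.inr (Or.inr (Or.inr (Or.inl heq)))
        · have hk : kindOf V = k3 := by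
            unfold kindOf k3
            simp only [h1, h2, h3]
          rw [hk] at heq
          exact Or.inr (Or.inr (Or.inl heq))
      · by_cases h2 : SOL ∈ V.mem Bool
        · have hk : kindOf V = k2 := by
            unfold kindOf k2
            simp only [h1, h2, h3]
          rw [hk] at heq
          exact Or.inr (Or.inl heq)
        · have hk : kindOf V = k1 := by
            unfold kindOf k1
            simp only [h1, h2, h3]
          rw [hk] at heq
          exact Or.inl heq
  · have key : ∀ θ : Kind, (θ.ss → θ.os ∧ θ.so) →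
        (ShuffleClosed (Wv θ) ∧ ¬ Commutative (Wv θ) ∧ SubwordClosed (Wv θ)) := by
      intro θ hθ
      refine ⟨wv_shuffleClosed hθ, ?_, fun A _ L hL => hL.2.1⟩
      intro h
      have h1 := h Bool F (F_mem_wv θ) [a, b] [b, a] (List.Perm.swap _ _ _)
        (Or.inr (Or.inr (Or.inr rfl)))
      rcases h1 with h1 | h1 | h1 | h1 <;> simp at h1
    rintro (rfl | rfl | rfl | rfl | rfl)
    · exact key _ (fun h => h.elim)
    · exact key _ (fun h => h.elim)
    · exact key _ (fun h => h.elim)
    · exact key _ (fun h => h.elim)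
    · exact key _ (fun _ => ⟨trivial, trivial⟩)

end Pool.Agent.ShufVar
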