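import Pool.Agent.ShufVar.Fam

/-!
MP_cf3bcc_lc: closures of products belong to the varieties.
-/

namespace Pool.Agent.ShufVar

section

variable {A : Type} {N m : ℕ}

/-- the letters of the auxiliary alphabet -/
abbrev Let (A : Type) (N m : ℕ) : Type := A × (Fin N ↪ Fin m) × Bool

/-- order constraint -/
def cnd (θ : Kind) (e : Fin N → Atom A) (α β : Let A N m) (j j' : Fin N) : Prop :=
  (¬ isStar (e j) → ¬ isStar (e j') →
    j < j' ∨ (j = j' ∧ ((α.2.2 = false ∧ β.2.2 = true) ∨ (α.2.2 = β.2.2 ∧ α ≠ β)))) ∧
  (¬ isStar (e j) → isStar (e j') → θ.os → j < j') ∧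
  (isStar (e j) → ¬ isStar (e j') → θ.so → j < j') ∧
  (isStar (e j) → isStar (e j') → θ.ss → j ≤ j')

/-- order constraint in the component `i` -/
def rel (θ : Kind) (e : Fin N → Atom A) (i : Fin m) (α β : Let A N m) : Prop :=
  ∀ j j', α.2.1 j = i → β.2.1 j' = i → cnd θ e α β j j'

/-- the letter is present in the component `i` -/
def pres (e : Fin N → Atom A) (i : Fin m) (α : Let A N m) : Prop :=
  ∃ j, α.2.1 j = i ∧ fits α.1 (e j)

/-- the language of the component `i` -/
def CM (θ : Kind) (e : Fin N → Atom A) (i : Fin m) : Language (Let A N m) :=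
  {w | (∀ α ∈ w, pres e i α) ∧ w.Pairwise (rel θ e i)}

/-- the substitution -/
noncomputable def sub (N m : ℕ) (c : A) : List (Let A N m) :=
  (Finset.univ : Finset (Fin N ↪ Fin m)).toList.map (fun s => (c, s, false)) ++
    (Finset.univ : Finset (Fin N ↪ Fin m)).toList.map (fun s => (c, s, true))

theorem mem_sub (c : A) (s : Fin N ↪ Fin m) (t : Bool) : ((c, s, t) : Let A N m) ∈ sub N m c := by
  unfold sub
  rw [List.mem_append]
  cases t with
  | false => left; exact List.mem_map.2 ⟨s, Finset.mem_toList.2 (Finset.mem_univ s), rfl⟩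
  | true => right; exact List.mem_map.2 ⟨s, Finset.mem_toList.2 (Finset.mem_univ s), rfl⟩

theorem fst_of_mem_sub {c : A} {α : Let A N m} (h : α ∈ sub N m c) : α.1 = c := by
  unfold sub at h
  rcases List.mem_append.1 h with h | h
  · obtain ⟨s, _, rfl⟩ := List.mem_map.1 h
    rfl
  · obtain ⟨s, _, rfl⟩ := List.mem_map.1 h
    rfl

theorem sub_pairwise (c : A) : (sub N m c).Pairwise (fun α β =>
    (α.2.2 = false ∧ β.2.2 = true) ∨ (α.2.2 = β.2.2 ∧ α ≠ β)) := by
  unfold sub
  have hnd := Finset.nodup_toList (Finset.univ : Finset (Fin N ↪ Fin m))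
  rw [List.pairwise_append]
  refine ⟨?_, ?_, ?_⟩
  · rw [List.pairwise_map]
    refine List.Pairwise.imp ?_ hnd
    intro s s' hne
    right
    refine ⟨rfl, fun h => hne ?_⟩
    rw [Prod.mk.injEq, Prod.mk.injEq] at h
    exact h.2.1
  · rw [List.pairwise_map]
    refine List.Pairwise.imp ?_ hnd
    intro s s' hne
    right
    refine ⟨rfl, fun h => hne ?_⟩
    rw [Prod.mk.injEq, Prod.mk.injEq] at h
    exact h.2.1
  · intro α hα β hβ
    obtain ⟨s, _, rfl⟩ := List.mem_map.1 hα
    obtain ⟨s', _, rfl⟩ := List.mem_map.1 hβ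
    left
    exact ⟨rfl, rfl⟩

theorem cm_sub (θ : Kind) (e : Fin N → Atom A) (i : Fin m) : SubC (CM θ e i) := by
  intro u v hv hu
  exact ⟨fun α hα => hu.1 α (hv.subset hα), hu.2.sublist hv⟩

/-! ### the closure is contained in the inverse image -/

theorem cl_sub_inv {θ : Kind} {e : Fin N → Atom A} {w : List A} (h : w ∈ Cl θ e) :
    w.flatMap (sub N m) ∈ ShufFam (fun i : Fin m => CM θ e i) := by
  obtain ⟨W, rfl, hW1, hW2⟩ := h
  refine ⟨W.flatMap (fun x => (sub N m x.1).map (fun α => (α, α.2.1 x.2))), ?_, ?_⟩
  · rw [List.map_flatMap, List.flatMap_map]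
    refine List.flatMap_congr fun x _ => ?_
    rw [List.map_map]
    exact List.map_id _
  · intro i
    have hpart : part i (W.flatMap (fun x => (sub N m x.1).map (fun α => (α, α.2.1 x.2)))) =
        W.flatMap (fun x => (sub N m x.1).filter (fun α => α.2.1 x.2 = i)) := by
      unfold part
      rw [List.filter_flatMap, List.map_flatMap]
      refine List.flatMap_congr fun x _ => ?_
      rw [List.filter_map, List.map_map]
      exact List.map_id _
    rw [hpart]
    refine ⟨?_, ?_⟩
    · intro α hα
      obtain ⟨x, hx, hα⟩ := List.mem_flatMap.1 hα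
      rw [List.mem_filter, decide_eq_true_iff] at hα
      refine ⟨x.2, hα.2, ?_⟩
      rw [fst_of_mem_sub hα.1]
      exact hW1 x hx
    · rw [List.pairwise_flatMap]
      constructor
      · intro x _
        refine List.Pairwise.imp_of_mem ?_ ((sub_pairwise x.1).filter _)
        intro α β hα hβ hαβ j j' hj hj'
        rw [List.mem_filter, decide_eq_true_iff] at hα hβ
        have h1 : j = x.2 := α.2.1.injective (hj.trans hα.2.symm)
        have h2 : j' = x.2 := β.2.1.injective (hj'.trans hβ.2.symm)
        subst h1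
        rw [h2]
        exact ⟨fun _ _ => Or.inr ⟨rfl, hαβ⟩, fun h h' => absurd h' h, fun h h' => absurd h h',
          fun _ _ _ => le_refl _⟩
      · refine hW2.imp ?_
        intro x y hxy α hα β hβ j j' hj hj'
        rw [List.mem_filter, decide_eq_true_iff] at hα hβ
        have h1 : j = x.2 := α.2.1.injective (hj.trans hα.2.symm)
        have h2 : j' = y.2 := β.2.1.injective (hj'.trans hβ.2.symm)
        rw [h1, h2]
        exact ⟨fun h h' => Or.inl (hxy.1 h h'), hxy.2.1, hxy.2.2.1, hxy.2.2.2⟩

/-! ### the converse for short words -/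

theorem inv_short {θ : Kind} {e : Fin N → Atom A} {k : ℕ} (hm : 2 * N * k < m) {w : List A}
    (hk : w.length ≤ k) (hw : w.flatMap (sub N m) ∈ ShufFam (fun i : Fin m => CM θ e i)) :
    w ∈ Cl θ e := by
  classical
  obtain ⟨W, hW, hM⟩ := hw
  obtain ⟨Z, hZ1, rfl, hZ2⟩ := exists_blocks (sub N m) Prod.fst w W hW
  -- presence
  have hpres : ∀ z ∈ Z, ∀ x ∈ z.2, pres e x.2 x.1 := by
    intro z hz x hx
    refine (hM x.2).1 x.1 ?_
    unfold part
    rw [List.mem_map]
    refine ⟨x, ?_, rfl⟩
    rw [List.mem_filter, decide_eq_true_iff]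
    exact ⟨List.mem_flatMap.2 ⟨z, hz, hx⟩, rfl⟩
  -- the places used by a block
  set Good : (A × List (Let A N m × Fin m)) → Bool → Fin N → Fin m → Prop := fun z t j i =>
    ∃ s : Fin N ↪ Fin m, s j = i ∧ (((z.1, s, t) : Let A N m), i) ∈ z.2 ∧ fits z.1 (e j) with hGood
  have hJ : ∀ z ∈ Z, ∀ t : Bool, ∃ j, (Finset.univ.filter (fun i => ¬ Good z t j i)).card < N := by
    intro z hz t
    by_contra hcon
    push Not at hcon
    have hall : ∀ T : Finset (Fin N), T.card ≤
        (T.biUnion (fun j => Finset.univ.filter (fun i => ¬ Good z t j i))).card := by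
      intro T
      rcases T.eq_empty_or_nonempty with rfl | ⟨j, hj⟩
      · simp
      · calc T.card ≤ N := by simpa using T.card_le_univ
          _ ≤ _ := hcon j
          _ ≤ _ := Finset.card_le_card (Finset.subset_biUnion_of_mem
            (fun j => Finset.univ.filter (fun i => ¬ Good z t j i)) hj)
    obtain ⟨f, hf1, hf2⟩ := (Finset.all_card_le_biUnion_card_iff_exists_injective _).1 hall
    have h1 : (((z.1, ⟨f, hf1⟩, t) : Let A N m)) ∈ z.2.map Prod.fst := by
      rw [hZ2 z hz]
      exact mem_sub _ _ _
    obtain ⟨x, hx, hx1⟩ := List.mem_map.1 h1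
    obtain ⟨j, hj1, hj2⟩ := hpres z hz x hx
    rw [hx1] at hj1 hj2
    have h2 := hf2 j
    rw [Finset.mem_filter] at h2
    apply h2.2
    refine ⟨⟨f, hf1⟩, rfl, ?_, hj2⟩
    have h3 : x = (((z.1, ⟨f, hf1⟩, t) : Let A N m), f j) := Prod.ext hx1 hj1.symm
    rw [← h3]
    exact hx
  rcases List.eq_nil_or_concat' Z with hZn | hZn
  · subst hZn
    rw [List.map_nil] at hZ1
    subst hZ1
    exact ⟨[], rfl, by simp, List.Pairwise.nil⟩
  have hne : Nonempty (Fin N) := by
    obtain ⟨_, z, rfl⟩ := hZn
    exact ⟨(hJ z (by simp) true).choose⟩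
  choose! J hJ using hJ
  have hi : ∃ i, ∀ z ∈ Z, ∀ t, Good z t (J z t) i := by
    by_contra hcon
    push Not at hcon
    have h1 : (Finset.univ : Finset (Fin m)) ⊆ Z.toFinset.biUnion (fun z =>
        (Finset.univ : Finset Bool).biUnion (fun t =>
          Finset.univ.filter (fun i => ¬ Good z t (J z t) i))) := by
      intro i _
      obtain ⟨z, hz, t, ht⟩ := hcon i
      exact Finset.mem_biUnion.2 ⟨z, List.mem_toFinset.2 hz, Finset.mem_biUnion.2
        ⟨t, Finset.mem_univ t, Finset.mem_filter.2 ⟨Finset.mem_univ i, ht⟩⟩⟩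
    have h2 := Finset.card_le_card h1
    rw [Finset.card_univ, Fintype.card_fin] at h2
    have h3 : (Z.toFinset.biUnion (fun z =>
        (Finset.univ : Finset Bool).biUnion (fun t =>
          Finset.univ.filter (fun i => ¬ Good z t (J z t) i)))).card ≤
          Z.toFinset.card * (2 * N) := by
      refine Finset.card_biUnion_le_card_mul _ _ _ fun z hz => ?_
      have hz' := List.mem_toFinset.1 hz
      have h4 := Finset.card_biUnion_le_card_mul (Finset.univ : Finset Bool)
        (fun t => Finset.univ.filter (fun i => ¬ Good z t (J z t) i)) N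
        (fun t _ => (hJ z hz' t).le)
      simpa using h4
    have h5 : Z.toFinset.card ≤ k := by
      refine (List.toFinset_card_le Z).trans ?_
      rw [← hZ1, List.length_map] at hk
      exact hk
    have h6 : Z.toFinset.card * (2 * N) ≤ k * (2 * N) := Nat.mul_le_mul_right _ h5
    have h7 : k * (2 * N) = 2 * N * k := by ring
    omega
  obtain ⟨i, hi⟩ := hi
  have hne' : Nonempty (Fin N ↪ Fin m) := by
    obtain ⟨_, z, rfl⟩ := hZn
    exact ⟨(hi z (by simp) true).choose⟩
  choose! σ hσ1 hσ2 hσ3 using hi
  have hpw := (hM i).2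
  have hpart : part i (Z.flatMap Prod.snd) = Z.flatMap (fun z => part i z.2) := by
    unfold part
    rw [List.filter_flatMap, List.map_flatMap]
  rw [hpart, List.pairwise_flatMap] at hpw
  have hmem : ∀ z ∈ Z, ∀ t, ((z.1, σ z t, t) : Let A N m) ∈ part i z.2 := by
    intro z hz t
    unfold part
    rw [List.mem_map]
    exact ⟨_, List.mem_filter.2 ⟨hσ2 z hz t, by simp⟩, rfl⟩
  have hwithin : ∀ z ∈ Z, rel θ e i ((z.1, σ z false, false) : Let A N m)
      ((z.1, σ z true, true) : Let A N m) := by
    intro z hz
    have h1 := hZ2 z hz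
    unfold sub at h1
    obtain ⟨P, Q, hPQ, hP, hQ⟩ := List.map_eq_append_iff.1 h1
    have h2 := hpw.1 z hz
    have h3 : part i z.2 = part i P ++ part i Q := by
      unfold part
      rw [hPQ, List.filter_append, List.map_append]
    rw [h3, List.pairwise_append] at h2
    refine h2.2.2 _ ?_ _ ?_
    · have h4 := hσ2 z hz false
      rw [hPQ, List.mem_append] at h4
      rcases h4 with h4 | h4
      · exact List.mem_map.2 ⟨_, List.mem_filter.2 ⟨h4, by simp⟩, rfl⟩
      · have h5 : ((z.1, σ z false, false) : Let A N m) ∈ Q.map Prod.fst :=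
          List.mem_map.2 ⟨_, h4, rfl⟩
        rw [hQ] at h5
        obtain ⟨s, _, hs⟩ := List.mem_map.1 h5
        rw [Prod.mk.injEq, Prod.mk.injEq] at hs
        exact absurd hs.2.2 (by decide)
    · have h4 := hσ2 z hz true
      rw [hPQ, List.mem_append] at h4
      rcases h4 with h4 | h4
      · have h5 : ((z.1, σ z true, true) : Let A N m) ∈ P.map Prod.fst :=
          List.mem_map.2 ⟨_, h4, rfl⟩
        rw [hP] at h5
        obtain ⟨s, _, hs⟩ := List.mem_map.1 h5
        rw [Prod.mk.injEq, Prod.mk.injEq] at hs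
        exact absurd hs.2.2 (by decide)
      · exact List.mem_map.2 ⟨_, List.mem_filter.2 ⟨h4, by simp⟩, rfl⟩
  -- the labelling
  set lab : (A × List (Let A N m × Fin m)) → Fin N := fun z =>
    if isStar (e (J z false)) then J z false else J z true with hlab
  have hlab' : ∀ z, ∃ t, lab z = J z t := by
    intro z
    by_cases h : isStar (e (J z false))
    · exact ⟨false, if_pos h⟩
    · exact ⟨true, if_neg h⟩
  refine ⟨Z.map (fun z => (z.1, lab z)), ?_, ?_, ?_⟩
  · rw [List.map_map]
    exact hZ1
  · intro x hx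
    obtain ⟨z, hz, rfl⟩ := List.mem_map.1 hx
    obtain ⟨t, ht⟩ := hlab' z
    simp only
    rw [ht]
    exact hσ3 z hz t
  · rw [List.pairwise_map]
    refine List.Pairwise.imp_of_mem ?_ hpw.2
    intro z z' hz hz' hzz
    have hc : ∀ t t', cnd θ e ((z.1, σ z t, t) : Let A N m) ((z'.1, σ z' t', t') : Let A N m)
        (J z t) (J z' t') := fun t t' =>
      hzz _ (hmem z hz t) _ (hmem z' hz' t') _ _ (hσ1 z hz t) (hσ1 z' hz' t')
    obtain ⟨t, ht⟩ := hlab' z
    obtain ⟨t', ht'⟩ := hlab' z'
    refine ⟨?_, ?_, ?_, ?_⟩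
    · intro h1 h2
      have h3 : ¬ isStar (e (J z' false)) := by
        intro h
        apply h2
        simp only [hlab, if_pos h]
        exact h
      have h4 : ¬ isStar (e (J z false)) := by
        intro h
        apply h1
        simp only [hlab, if_pos h]
        exact h
      have h5 : lab z = J z true := if_neg h4
      have h6 : lab z' = J z' true := if_neg h3
      simp only at h1 h2
      rw [h5] at h1
      rw [h6] at h2
      have h7 := (hc true false).1 h1 h3
      have h8 := (hwithin z' hz' (J z' false) (J z' true) (hσ1 z' hz' false)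
        (hσ1 z' hz' true)).1 h3 h2
      have h9 : J z true < J z' false := by
        rcases h7 with h7 | ⟨_, h7 | h7⟩
        · exact h7
        · have h12 : true = false := h7.1
          exact absurd h12 (by decide)
        · have h12 : true = false := h7.1
          exact absurd h12 (by decide)
      have h10 : J z' false ≤ J z' true := by
        rcases h8 with h8 | ⟨h8, _⟩
        · exact h8.le
        · exact h8.le
      simp only
      rw [h5, h6]
      exact h9.trans_le h10
    · simp only
      rw [ht, ht']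
      exact (hc t t').2.1
    · simp only
      rw [ht, ht']
      exact (hc t t').2.2.1
    · simp only
      rw [ht, ht']
      exact (hc t t').2.2.2

end

/-! ### membership in the variety -/

/-- `a*(1+b)` -/
def OSL : Language Bool := PB (fun x _ => x = a)
/-- `(1+b)a*` -/
def SOL : Language Bool := PB (fun _ y => y = a)
/-- `a*b*` -/
def SSL : Language Bool := PB (fun x y => ¬ (x = b ∧ y = a))

theorem F_eq : F = PB (fun x y => x = a ∧ y = b) := by
  ext w
  constructor
  · rintro (rfl | rfl | rfl | rfl)
    · exact List.Pairwise.nil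
    · exact List.pairwise_singleton _ _
    · exact List.pairwise_singleton _ _
    · change List.Pairwise _ _
      simp
  · intro hw
    have hw' : w.Pairwise (fun x y => x = a ∧ y = b) := hw
    match w, hw' with
    | [], _ => left; rfl
    | [false], _ => right; left; rfl
    | [true], _ => right; right; left; rfl
    | [c, d], h =>
      rw [List.pairwise_cons] at h
      obtain ⟨rfl, rfl⟩ := h.1 d (by simp)
      right; right; right; rfl
    | c :: d :: f :: w, h =>
      exfalso
      rw [List.pairwise_cons, List.pairwise_cons] at h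
      have h1 := (h.1 d (by simp)).2
      have h2 := (h.2.1 f (by simp)).1
      rw [h1] at h2
      exact absurd h2 (by decide)

theorem nil_mem {V : PosVar} (hF : F ∈ V.mem Bool) (B : Type) [Finite B] (P : B → Prop) :
    ({w | ∀ c ∈ w, P c} : Language B) ∈ V.mem B := by
  classical
  have h1 := V.inv B Bool (fun c => if P c then [] else [b, a]) _ hF
  suffices hEq : ({w | ∀ c ∈ w, P c} : Language B) =
      inv (fun c => if P c then [] else [b, a]) F by rw [hEq]; exact h1
  have hno : ∀ v : List Bool, b :: a :: v ∉ F := by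
    rintro v (h | h | h | h) <;> simp at h
  have hsub : SubC F := by
    intro u v hv hu
    rw [F_eq] at hu ⊢
    exact List.Pairwise.sublist hv hu
  ext w
  constructor
  · intro hw
    have hw' : ∀ c ∈ w, P c := hw
    change w.flatMap _ ∈ F
    have h2 : w.flatMap (fun c => if P c then [] else [b, a]) = [] := by
      rw [List.flatMap_eq_nil_iff]
      intro c hc
      rw [if_pos (hw' c hc)]
    rw [h2]
    left; rfl
  · intro hw c hc
    by_contra hP
    obtain ⟨u, v, rfl⟩ := List.append_of_mem hc
    have hw' : (u ++ c :: v).flatMap (fun c => if P c then [] else [b, a]) ∈ F := hw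
    rw [List.flatMap_append, List.flatMap_cons, if_neg hP] at hw'
    refine hno [] (hsub _ _ ?_ hw')
    exact (List.sublist_append_left _ _).trans (List.sublist_append_right _ _)

theorem E1_memB {V : PosVar} (hF : F ∈ V.mem Bool) : PB (fun _ _ => False) ∈ V.mem Bool := by
  have h1 := V.inv Bool Bool (fun _ => [a, b]) _ hF
  suffices hEq : PB (fun _ _ => False) = inv (fun _ => [a, b]) F by rw [hEq]; exact h1
  ext w
  constructor
  · intro hw
    have hw' : w.Pairwise (fun _ _ => False) := hw
    change w.flatMap _ ∈ F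
    match w, hw' with
    | [], _ => left; rfl
    | [_], _ => right; right; right; rfl
    | c :: d :: w, h =>
      rw [List.pairwise_cons] at h
      exact absurd (h.1 d (by simp)) id
  · intro hw
    have hw' : w.flatMap (fun _ => [a, b]) ∈ F := hw
    change w.Pairwise _
    match w, hw' with
    | [], _ => exact List.Pairwise.nil
    | [_], _ => exact List.pairwise_singleton _ _
    | c :: d :: w, h =>
      rcases h with h | h | h | h <;> simp at h

theorem cm_mem {V : PosVar} (hF : F ∈ V.mem Bool) {θ : Kind}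
    (hos : θ.os → OSL ∈ V.mem Bool) (hso : θ.so → SOL ∈ V.mem Bool)
    (hss : θ.ss → SSL ∈ V.mem Bool) {A : Type} [Finite A] {N m : ℕ} (e : Fin N → Atom A)
    (i : Fin m) : CM θ e i ∈ V.mem (Let A N m) := by
  refine V.inter _ _ _ (nil_mem hF _ (pres e i)) (pairwise_mem (rel θ e i) ?_)
  intro α₀ β₀ hn
  have hn' := hn
  unfold rel at hn'
  push Not at hn'
  obtain ⟨j, j', hj, hj', hc⟩ := hn'
  -- letters used at most once
  have hopt : ∀ (α : Let A N m) (l : Fin N), α.2.1 l = i → ¬ isStar (e l) → ¬ rel θ e i α α := by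
    intro α l hl hs h
    rcases (h l l hl hl).1 hs hs with h1 | ⟨_, h1 | h1⟩
    · exact lt_irrefl _ h1
    · rw [h1.1] at h1
      exact absurd h1.2 (by decide)
    · exact h1.2 rfl
  have hne : (isStar (e j) ∨ isStar (e j')) → α₀ ≠ β₀ := by
    rintro hs rfl
    have hjj : j = j' := α₀.2.1.injective (hj.trans hj'.symm)
    subst hjj
    have hs' : isStar (e j) := hs.elim id id
    exact hc ⟨fun h => absurd hs' h, fun h => absurd hs' h, fun _ h => absurd hs' h,
      fun _ _ _ => le_refl _⟩
  by_cases h1 : isStar (e j)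
  · by_cases h2 : isStar (e j')
    · have h3 : θ.ss ∧ ¬ j ≤ j' := by
        by_contra h
        refine hc ⟨fun h => absurd h1 h, fun h => absurd h1 h, fun _ h => absurd h2 h,
          fun _ _ h4 => ?_⟩
        by_contra h5
        exact h ⟨h4, h5⟩
      refine two_test (hss h3.1) (rel θ e i) (hne (Or.inl h1)) b a ?_ ?_ ?_ ?_ hn
      · intro h; exact h ⟨rfl, rfl⟩
      · rintro - ⟨-, h⟩; exact absurd h (by decide)
      · rintro - ⟨h, -⟩; exact absurd h (by decide)
      · rintro - ⟨h, -⟩; exact absurd h (by decide)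
    · have h3 : θ.so ∧ ¬ j < j' := by
        by_contra h
        refine hc ⟨fun h => absurd h1 h, fun h => absurd h1 h, fun _ _ h4 => ?_,
          fun _ h => absurd h h2⟩
        by_contra h5
        exact h ⟨h4, h5⟩
      refine two_test (hso h3.1) (rel θ e i) (hne (Or.inl h1)) a b ?_ ?_ ?_ ?_ hn
      · intro h; exact absurd h (by decide)
      · intro _; rfl
      · intro h; exact absurd h (hopt β₀ j' hj' h2)
      · intro _; rfl
  · by_cases h2 : isStar (e j')
    · have h3 : θ.os ∧ ¬ j < j' := by
        by_contra h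
        refine hc ⟨fun _ h => absurd h2 h, fun _ _ h4 => ?_, fun h => absurd h h1,
          fun h => absurd h h1⟩
        by_contra h5
        exact h ⟨h4, h5⟩
      refine two_test (hos h3.1) (rel θ e i) (hne (Or.inr h2)) b a ?_ ?_ ?_ ?_ hn
      · intro h; exact absurd h (by decide)
      · intro h; exact absurd h (hopt α₀ j hj h1)
      · intro _; rfl
      · intro _; rfl
    · by_cases h3 : α₀ = β₀
      · subst h3
        classical
        refine ⟨_, pull_mem (E1_memB hF) (fun γ => if γ = α₀ then some a else none), ?_, ?_⟩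
        · intro α β hr x hx y hy
          have h4 : α = α₀ := by
            by_contra h
            rw [if_neg h] at hx
            cases hx
          have h5 : β = α₀ := by
            by_contra h
            rw [if_neg h] at hy
            cases hy
          subst h4 h5
          exact hopt _ j hj h1 hr
        · intro h
          exact h a (if_pos rfl) a (if_pos rfl)
      · have hF' := hF
        rw [F_eq] at hF'
        refine two_test hF' (rel θ e i) h3 b a ?_ ?_ ?_ ?_ hn
        · rintro ⟨h, -⟩; exact absurd h (by decide)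
        · intro h; exact absurd h (hopt α₀ j hj h1)
        · intro h; exact absurd h (hopt β₀ j' hj' h2)
        · intro _; exact ⟨rfl, rfl⟩

theorem cl_mem {V : PosVar} (hV : ShuffleClosed V) (hF : F ∈ V.mem Bool) {θ : Kind}
    (hos : θ.os → OSL ∈ V.mem Bool) (hso : θ.so → SOL ∈ V.mem Bool)
    (hss : θ.ss → SSL ∈ V.mem Bool) {A : Type} [Finite A] {N : ℕ} (e : Fin N → Atom A) :
    Cl θ e ∈ V.mem A := by
  obtain ⟨k, hk⟩ := exists_minor_bound (C := Cl θ e)
  set m := 2 * N * k + 1 with hm
  have h0 : ({w | w = []} : Language (Let A N m)) ∈ V.mem (Let A N m) := by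
    have h1 := nil_mem hF (Let A N m) (fun _ => False)
    suffices hEq : ({w | w = []} : Language (Let A N m)) =
        ({w | ∀ c ∈ w, (fun _ => False) c} : Language (Let A N m)) by rw [hEq]; exact h1
    ext w
    constructor
    · intro hw c hc
      have hw' : w = [] := hw
      rw [hw'] at hc
      simp at hc
    · intro hw
      cases w with
      | nil => rfl
      | cons c w => exact (hw c (List.mem_cons_self ..)).elim
  have h1 := shufFam_mem hV h0 m (fun i => CM θ e i) (fun i => cm_mem hF hos hso hss e i)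
  have h2 := V.inv A (Let A N m) (sub N m) _ h1
  suffices hEq : Cl θ e = inv (sub N m) (ShufFam (fun i : Fin m => CM θ e i)) by
    rw [hEq]; exact h2
  ext w
  constructor
  · intro hw
    exact cl_sub_inv hw
  · intro hw
    by_contra hcon
    obtain ⟨w', h3, h4, h5⟩ := hk w hcon
    apply h4
    refine inv_short (m := m) (by omega) h5 ?_
    exact shufFam_sub (fun i => cm_sub θ e i) _ _ (sublist_flatMap _ h3) hw

end Pool.Agent.ShufVar
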