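import Pool.Agent.ShufVar.Main
import Pool.Agent.ShufVar.Defs2

/-!
MP_cf3bcc_lc: languages given by labellings.
-/

namespace Pool.Agent.ShufVar

theorem wpow_succ {A : Type} (x : List A) (n : ℕ) : wpow x (n + 1) = x ++ wpow x n := by
  unfold wpow
  rw [List.replicate_succ, List.flatten_cons]

theorem wpow_zero {A : Type} (x : List A) : wpow x 0 = [] := rfl

theorem wpow_one {A : Type} (x : List A) : wpow x 1 = x := by
  rw [wpow_succ, wpow_zero, List.append_nil]

theorem wpow_mono {A : Type} (x : List A) {n m : ℕ} (h : n ≤ m) :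
    (wpow x n).Sublist (wpow x m) := by
  obtain ⟨k, rfl⟩ := Nat.exists_eq_add_of_le h
  induction k with
  | zero => exact List.Sublist.refl _
  | succ k ih =>
    rw [← Nat.add_assoc, wpow_succ]
    exact (ih (Nat.le_add_right _ _)).trans (List.sublist_append_right _ _)

theorem map_wpow {A B : Type} (f : A → B) (x : List A) (n : ℕ) :
    (wpow x n).map f = wpow (x.map f) n := by
  induction n with
  | zero => rfl
  | succ n ih => rw [wpow_succ, wpow_succ, List.map_append, ih]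

theorem flatMap_wpow {A B : Type} (f : A → List B) (x : List A) (n : ℕ) :
    (wpow x n).flatMap f = wpow (x.flatMap f) n := by
  induction n with
  | zero => rfl
  | succ n ih => rw [wpow_succ, wpow_succ, List.flatMap_append, ih]

theorem mem_wpow {A : Type} {x : List A} {n : ℕ} {a : A} (h : a ∈ wpow x n) : a ∈ x := by
  induction n with
  | zero => simp [wpow_zero] at h
  | succ n ih =>
    rw [wpow_succ, List.mem_append] at h
    exact h.elim id ih

/-- the language of the words with an admissible labelling -/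
def Lab {A Λ : Type} (P : A → Λ → Prop) (R : Λ → Λ → Prop) : Language A :=
  {w | ∃ W : List (A × Λ), W.map Prod.fst = w ∧ (∀ x ∈ W, P x.1 x.2) ∧
    W.Pairwise (fun x y => R x.2 y.2)}

theorem lab_sub {A Λ : Type} (P : A → Λ → Prop) (R : Λ → Λ → Prop) : SubC (Lab P R) := by
  rintro _ v h ⟨W, rfl, hP, hR⟩
  obtain ⟨W', hW', rfl⟩ := List.sublist_map_iff.1 h
  exact ⟨W', rfl, fun x hx => hP x (hW'.subset hx), hR.sublist hW'⟩

theorem exists_blocks {α β γ : Type} (φ : α → List β) (g : γ → β) : ∀ (l : List α) (W : List γ),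
    W.map g = l.flatMap φ → ∃ Z : List (α × List γ), Z.map Prod.fst = l ∧ Z.flatMap Prod.snd = W ∧
      ∀ z ∈ Z, z.2.map g = φ z.1 := by
  intro l
  induction l with
  | nil =>
    intro W hW
    rw [List.flatMap_nil, List.map_eq_nil_iff] at hW
    subst hW
    exact ⟨[], rfl, rfl, by simp⟩
  | cons a l ih =>
    intro W hW
    rw [List.flatMap_cons, List.map_eq_append_iff] at hW
    obtain ⟨W₁, W₂, rfl, h1, h2⟩ := hW
    obtain ⟨Z, rfl, rfl, hZ⟩ := ih W₂ h2
    refine ⟨(a, W₁) :: Z, rfl, rfl, ?_⟩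
    intro z hz
    rcases List.mem_cons.1 hz with rfl | hz
    · exact h1
    · exact hZ z hz

theorem exists_star_block {A Λ : Type} [Finite Λ] {R : Λ → Λ → Prop} {St : Λ → Prop}
    (hO : ∀ l, ¬ St l → ¬ R l l) (x : List A) (W : List (A × Λ))
    (hW : W.Pairwise (fun x y => R x.2 y.2)) (hx : W.map Prod.fst = wpow x (Nat.card Λ + 1)) :
    ∃ W₁ X W₂, W = W₁ ++ X ++ W₂ ∧ X.map Prod.fst = x ∧ ∀ z ∈ X, St z.2 := by
  have hx' : W.map Prod.fst = (List.replicate (Nat.card Λ + 1) x).flatMap id := by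
    rw [hx, wpow, List.flatMap_id]
  obtain ⟨Z, hZ1, rfl, hZ2⟩ := exists_blocks id Prod.fst _ W hx'
  have hZx : ∀ z ∈ Z, z.2.map Prod.fst = x := by
    intro z hz
    rw [hZ2 z hz]
    have h1 : z.1 ∈ Z.map Prod.fst := List.mem_map_of_mem hz
    rw [hZ1] at h1
    exact List.eq_of_mem_replicate h1
  by_cases hex : ∃ z ∈ Z, ∀ c ∈ z.2, St c.2
  · obtain ⟨z, hz, hst⟩ := hex
    obtain ⟨Z₁, Z₂, rfl⟩ := List.append_of_mem hz
    refine ⟨Z₁.flatMap Prod.snd, z.2, Z₂.flatMap Prod.snd, ?_, hZx z hz, hst⟩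
    rw [List.flatMap_append, List.flatMap_cons, List.append_assoc]
  · exfalso
    push Not at hex
    have hlen : Z.length = Nat.card Λ + 1 := by
      have := congrArg List.length hZ1
      rwa [List.length_map, List.length_replicate] at this
    have hne : Nonempty Λ := by
      cases Z with
      | nil => simp at hlen
      | cons z Z =>
        obtain ⟨c, _, _⟩ := hex z (List.mem_cons_self ..)
        exact ⟨c.2⟩
    have hex' : ∀ z ∈ Z, ∃ l : Λ, (∃ c ∈ z.2, c.2 = l) ∧ ¬ St l := by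
      intro z hz
      obtain ⟨c, hc, hs⟩ := hex z hz
      exact ⟨c.2, ⟨c, hc, rfl⟩, hs⟩
    choose! f hf using hex'
    rw [List.pairwise_flatMap] at hW
    have hnd : (Z.map f).Nodup := by
      rw [List.Nodup, List.pairwise_map]
      refine List.Pairwise.imp_of_mem ?_ hW.2
      intro z z' hz hz' h heq
      obtain ⟨⟨c, hc, hcl⟩, hs⟩ := hf z hz
      obtain ⟨⟨c', hc', hcl'⟩, _⟩ := hf z' hz'
      have h1 := h c hc c' hc'
      rw [hcl, hcl', ← heq] at h1
      exact hO _ hs h1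
    have := Fintype.ofFinite Λ
    have h1 := hnd.length_le_card
    rw [List.length_map, hlen, Nat.card_eq_fintype_card] at h1
    omega

theorem pairwise_wpow {B : Type} {T : B → B → Prop} {X : List B} (h : ∀ x ∈ X, ∀ y ∈ X, T x y)
    (n : ℕ) : (wpow X n).Pairwise T :=
  List.pairwise_of_forall_mem_list fun x hx y hy => h x (mem_wpow hx) y (mem_wpow hy)

section moves

variable {A Λ : Type} [Finite Λ] {P : A → Λ → Prop} {R : Λ → Λ → Prop} {St : Λ → Prop}

theorem lab_moveR (hO : ∀ l, ¬ St l → ¬ R l l) (hS : ∀ l l', St l' → R l l') :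
    MoveR (Lab P R) := by
  intro p x y q h n
  obtain ⟨W, hW, hP, hR⟩ := h (Nat.card Λ + 1)
  obtain ⟨W', Wq, rfl, hW', rfl⟩ := List.map_eq_append_iff.1 hW
  obtain ⟨W'', Wy, rfl, hW'', rfl⟩ := List.map_eq_append_iff.1 hW'
  obtain ⟨Wp, Wx, rfl, rfl, hx⟩ := List.map_eq_append_iff.1 hW''
  have hRx : Wx.Pairwise (fun x y => R x.2 y.2) :=
    hR.sublist (((List.sublist_append_right _ _).trans (List.sublist_append_left _ _)).trans
      (List.sublist_append_left _ _))
  obtain ⟨W₁, X, W₂, rfl, rfl, hst⟩ := exists_star_block hO x Wx hRx hx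
  refine ⟨Wp ++ Wy ++ wpow X n ++ Wq, ?_, ?_, ?_⟩
  · simp only [List.map_append, map_wpow]
  · intro z hz
    apply hP z
    simp only [List.mem_append] at hz ⊢
    rcases hz with ((hz | hz) | hz) | hz
    · tauto
    · tauto
    · have := mem_wpow hz; tauto
    · tauto
  · have hXX := pairwise_wpow (T := fun x y : A × Λ => R x.2 y.2) (X := X)
      (fun a _ c hc => hS _ _ (hst c hc)) n
    simp only [List.pairwise_append, List.mem_append] at hR ⊢
    obtain ⟨⟨⟨hp, ⟨⟨h1, hX, h1X⟩, h2, h12⟩, hpx⟩, hy, hxy⟩, hq, hxq⟩ := hR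
    refine ⟨⟨⟨hp, hy, ?_⟩, hXX, ?_⟩, hq, ?_⟩
    · intro a ha c hc
      exact hxy a (Or.inl ha) c hc
    · intro a _ c hc
      exact hS _ _ (hst c (mem_wpow hc))
    · rintro a ((ha | ha) | ha) c hc
      · exact hxq a (Or.inl (Or.inl ha)) c hc
      · exact hxq a (Or.inr ha) c hc
      · exact hxq a (Or.inl (Or.inr (Or.inl (Or.inr (mem_wpow ha))))) c hc

theorem lab_moveL (hO : ∀ l, ¬ St l → ¬ R l l) (hS : ∀ l l', St l → R l l') :
    MoveL (Lab P R) := by
  intro p x y q h n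
  obtain ⟨W, hW, hP, hR⟩ := h (Nat.card Λ + 1)
  obtain ⟨W', Wq, rfl, hW', rfl⟩ := List.map_eq_append_iff.1 hW
  obtain ⟨W'', Wx, rfl, hW'', hx⟩ := List.map_eq_append_iff.1 hW'
  obtain ⟨Wp, Wy, rfl, rfl, rfl⟩ := List.map_eq_append_iff.1 hW''
  have hRx : Wx.Pairwise (fun x y => R x.2 y.2) :=
    hR.sublist ((List.sublist_append_right _ _).trans (List.sublist_append_left _ _))
  obtain ⟨W₁, X, W₂, rfl, rfl, hst⟩ := exists_star_block hO x Wx hRx hx
  refine ⟨Wp ++ wpow X n ++ Wy ++ Wq, ?_, ?_, ?_⟩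
  · simp only [List.map_append, map_wpow]
  · intro z hz
    apply hP z
    simp only [List.mem_append] at hz ⊢
    rcases hz with ((hz | hz) | hz) | hz
    · tauto
    · have := mem_wpow hz; tauto
    · tauto
    · tauto
  · have hXX := pairwise_wpow (T := fun x y : A × Λ => R x.2 y.2) (X := X)
      (fun a ha c _ => hS _ _ (hst a ha)) n
    simp only [List.pairwise_append, List.mem_append] at hR ⊢
    obtain ⟨⟨⟨hp, hy, hpy⟩, ⟨⟨h1, hX, h1X⟩, h2, h12⟩, hpyx⟩, hq, hxq⟩ := hR
    refine ⟨⟨⟨hp, hXX, ?_⟩, hy, ?_⟩, hq, ?_⟩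
    · intro a ha c hc
      exact hpyx a (Or.inl ha) c (Or.inl (Or.inr (mem_wpow hc)))
    · rintro a (ha | ha) c hc
      · exact hpy a ha c hc
      · exact hS _ _ (hst a (mem_wpow ha))
    · rintro a ((ha | ha) | ha) c hc
      · exact hxq a (Or.inl (Or.inl ha)) c hc
      · exact hxq a (Or.inr (Or.inl (Or.inr (mem_wpow ha)))) c hc
      · exact hxq a (Or.inl (Or.inr ha)) c hc

theorem lab_comm (hO : ∀ l, ¬ St l → ¬ R l l) (hS : ∀ l l', St l → St l' → R l l') :
    CommW (Lab P R) := by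
  intro p x y q h n
  obtain ⟨W, hW, hP, hR⟩ := h (Nat.card Λ + 1)
  obtain ⟨W', Wq, rfl, hW', rfl⟩ := List.map_eq_append_iff.1 hW
  obtain ⟨W'', Wy, rfl, hW'', hy⟩ := List.map_eq_append_iff.1 hW'
  obtain ⟨Wp, Wx, rfl, rfl, hx⟩ := List.map_eq_append_iff.1 hW''
  have hRx : Wx.Pairwise (fun x y => R x.2 y.2) :=
    hR.sublist (((List.sublist_append_right _ _).trans (List.sublist_append_left _ _)).trans
      (List.sublist_append_left _ _))
  have hRy : Wy.Pairwise (fun x y => R x.2 y.2) :=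
    hR.sublist ((List.sublist_append_right _ _).trans (List.sublist_append_left _ _))
  obtain ⟨W₁, X, W₂, rfl, rfl, hst⟩ := exists_star_block hO x Wx hRx hx
  obtain ⟨Y₁, Y, Y₂, rfl, rfl, hst'⟩ := exists_star_block hO y Wy hRy hy
  refine ⟨Wp ++ wpow Y n ++ wpow X n ++ Wq, ?_, ?_, ?_⟩
  · simp only [List.map_append, map_wpow]
  · intro z hz
    apply hP z
    simp only [List.mem_append] at hz ⊢
    rcases hz with ((hz | hz) | hz) | hz
    · tauto
    · have := mem_wpow hz; tauto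
    · have := mem_wpow hz; tauto
    · tauto
  · have hXX := pairwise_wpow (T := fun x y : A × Λ => R x.2 y.2) (X := X)
      (fun a ha c hc => hS _ _ (hst a ha) (hst c hc)) n
    have hYY := pairwise_wpow (T := fun x y : A × Λ => R x.2 y.2) (X := Y)
      (fun a ha c hc => hS _ _ (hst' a ha) (hst' c hc)) n
    rw [List.pairwise_append] at hR
    obtain ⟨h1, hq, hxq⟩ := hR
    rw [List.pairwise_append] at h1
    obtain ⟨h2, _, hpxy⟩ := h1
    rw [List.pairwise_append] at h2
    obtain ⟨hp, _, hpx⟩ := h2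
    simp only [List.pairwise_append, List.mem_append] at hxq hpxy hpx ⊢
    refine ⟨⟨⟨hp, hYY, ?_⟩, hXX, ?_⟩, hq, ?_⟩
    · intro a ha c hc
      exact hpxy a (Or.inl ha) c (Or.inl (Or.inr (mem_wpow hc)))
    · rintro a (ha | ha) c hc
      · exact hpx a ha c (Or.inl (Or.inr (mem_wpow hc)))
      · exact hS _ _ (hst' a (mem_wpow ha)) (hst c (mem_wpow hc))
    · rintro a ((ha | ha) | ha) c hc
      · exact hxq a (Or.inl (Or.inl ha)) c hc
      · exact hxq a (Or.inr (Or.inl (Or.inr (mem_wpow ha)))) c hc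
      · exact hxq a (Or.inl (Or.inr (Or.inl (Or.inr (mem_wpow ha))))) c hc

end moves

end Pool.Agent.ShufVar
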