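import Pool.Agent.ShufVar.Defs
import Pool.Agent.Star60.RegTools

/-!
MP_cf3bcc_lc: the two minimal noncommutative positive varieties closed under shuffle.
-/

namespace Pool.Agent.ShufVar

open Star60

section shuffle

variable {A : Type}

/-- `w` is a shuffle of `u` and `v` -/
inductive Sh : List A → List A → List A → Prop
  | nil : Sh [] [] []
  | left (c : A) {u v w : List A} : Sh u v w → Sh (c :: u) v (c :: w)
  | right (c : A) {u v w : List A} : Sh u v w → Sh u (c :: v) (c :: w)

theorem Sh.of_left (u : List A) : Sh u [] u := by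
  induction u with
  | nil => exact Sh.nil
  | cons c u ih => exact Sh.left c ih

theorem Sh.of_right (u : List A) : Sh [] u u := by
  induction u with
  | nil => exact Sh.nil
  | cons c u ih => exact Sh.right c ih

theorem Sh.append {u v w u' v' w' : List A} (h : Sh u v w) (h' : Sh u' v' w') :
    Sh (u ++ u') (v ++ v') (w ++ w') := by
  induction h with
  | nil => exact h'
  | left c _ ih => exact Sh.left c ih
  | right c _ ih => exact Sh.right c ih

theorem Sh.split {u v w : List A} (h : Sh u v w) : ∀ x y : List A, w = x ++ y →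
    ∃ u₁ u₂ v₁ v₂, u = u₁ ++ u₂ ∧ v = v₁ ++ v₂ ∧ Sh u₁ v₁ x ∧ Sh u₂ v₂ y := by
  induction h with
  | nil =>
    intro x y h
    obtain ⟨rfl, rfl⟩ := List.append_eq_nil_iff.1 h.symm
    exact ⟨[], [], [], [], rfl, rfl, Sh.nil, Sh.nil⟩
  | @left c u v w hs ih =>
    intro x y h
    cases x with
    | nil =>
      rw [List.nil_append] at h
      subst h
      exact ⟨[], c :: u, [], v, rfl, rfl, Sh.nil, Sh.left c hs⟩
    | cons d x =>
      rw [List.cons_append, List.cons.injEq] at h
      obtain ⟨rfl, h⟩ := h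
      obtain ⟨u₁, u₂, v₁, v₂, rfl, rfl, h1, h2⟩ := ih x y h
      exact ⟨c :: u₁, u₂, v₁, v₂, rfl, rfl, Sh.left c h1, h2⟩
  | @right c u v w hs ih =>
    intro x y h
    cases x with
    | nil =>
      rw [List.nil_append] at h
      subst h
      exact ⟨[], u, [], c :: v, rfl, rfl, Sh.nil, Sh.right c hs⟩
    | cons d x =>
      rw [List.cons_append, List.cons.injEq] at h
      obtain ⟨rfl, h⟩ := h
      obtain ⟨u₁, u₂, v₁, v₂, rfl, rfl, h1, h2⟩ := ih x y h
      exact ⟨u₁, u₂, c :: v₁, v₂, rfl, rfl, Sh.right c h1, h2⟩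

theorem Sh.length {u v w : List A} (h : Sh u v w) : w.length = u.length + v.length := by
  induction h with
  | nil => rfl
  | left c _ ih => simp only [List.length_cons, ih]; omega
  | right c _ ih => simp only [List.length_cons, ih]; omega

/-- subwords of a shuffle -/
theorem Sh.sub {u v w : List A} (h : Sh u v w) : ∀ w' : List A, w'.Sublist w →
    ∃ u' v', u'.Sublist u ∧ v'.Sublist v ∧ Sh u' v' w' := by
  induction h with
  | nil =>
    intro w' hw
    rw [List.sublist_nil] at hw
    subst hw
    exact ⟨[], [], List.Sublist.refl _, List.Sublist.refl _, Sh.nil⟩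
  | left c _ ih =>
    intro w' hw
    rcases List.sublist_cons_iff.1 hw with hw | ⟨r, rfl, hw⟩
    · obtain ⟨u', v', h1, h2, h3⟩ := ih w' hw
      exact ⟨u', v', h1.cons _, h2, h3⟩
    · obtain ⟨u', v', h1, h2, h3⟩ := ih r (List.Sublist.of_cons_cons hw)
      exact ⟨c :: u', v', h1.cons_cons _, h2, Sh.left c h3⟩
  | right c _ ih =>
    intro w' hw
    rcases List.sublist_cons_iff.1 hw with hw | ⟨r, rfl, hw⟩
    · obtain ⟨u', v', h1, h2, h3⟩ := ih w' hw
      exact ⟨u', v', h1, h2.cons _, h3⟩
    · obtain ⟨u', v', h1, h2, h3⟩ := ih r (List.Sublist.of_cons_cons hw)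
      exact ⟨u', c :: v', h1, h2.cons_cons _, Sh.right c h3⟩

/-- superwords of a shuffle -/
theorem Sh.sup {w w' : List A} (hw : w.Sublist w') : ∀ u v : List A, Sh u v w →
    ∃ u', u.Sublist u' ∧ Sh u' v w' := by
  induction hw with
  | slnil => intro u v h; exact ⟨u, List.Sublist.refl _, h⟩
  | cons c _ ih =>
    intro u v h
    obtain ⟨u', h1, h2⟩ := ih u v h
    exact ⟨c :: u', h1.cons _, Sh.left c h2⟩
  | cons_cons c _ ih =>
    intro u v h
    cases h with
    | left _ h =>
      obtain ⟨u', h1, h2⟩ := ih _ _ h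
      exact ⟨c :: u', h1.cons_cons _, Sh.left c h2⟩
    | right _ h =>
      obtain ⟨u', h1, h2⟩ := ih _ _ h
      exact ⟨u', h1, Sh.right c h2⟩

theorem mem_shuf {L₁ L₂ : Language A} {w : List A} :
    w ∈ shuf L₁ L₂ ↔ ∃ u ∈ L₁, ∃ v ∈ L₂, Sh u v w := by
  constructor
  · rintro ⟨l, rfl, h1, h2⟩
    refine ⟨_, h1, _, h2, ?_⟩
    clear h1 h2
    induction l with
    | nil => exact Sh.nil
    | cons p l ih =>
      simp only [List.flatMap_cons]
      have h3 := (Sh.of_left p.1).append (Sh.of_right p.2)
      rw [List.append_nil, List.nil_append] at h3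
      exact h3.append ih
  · rintro ⟨u, hu, v, hv, h⟩
    have key : ∃ l : List (List A × List A), w = l.flatMap (fun p => p.1 ++ p.2) ∧
        l.flatMap Prod.fst = u ∧ l.flatMap Prod.snd = v := by
      clear hu hv
      induction h with
      | nil => exact ⟨[], rfl, rfl, rfl⟩
      | left c _ ih =>
        obtain ⟨l, rfl, rfl, rfl⟩ := ih
        exact ⟨([c], []) :: l, by simp, by simp, by simp⟩
      | right c _ ih =>
        obtain ⟨l, rfl, rfl, rfl⟩ := ih
        exact ⟨([], [c]) :: l, by simp, by simp, by simp⟩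
    obtain ⟨l, h1, rfl, rfl⟩ := key
    exact ⟨l, h1, hu, hv⟩

theorem isRegular_shuf {L₁ L₂ : Language A} (h1 : L₁.IsRegular) (h2 : L₂.IsRegular) :
    (shuf L₁ L₂).IsRegular := by
  refine isRegular_of_family _
    ((fun p : Language A × Language A => shuf p.1 p.2) ''
      (Set.range L₁.leftQuotient ×ˢ Set.range L₂.leftQuotient))
    ((h1.finite_range_leftQuotient.prod h2.finite_range_leftQuotient).image _) ?_
  intro x
  refine ⟨{B | ∃ x₁ x₂, Sh x₁ x₂ x ∧ B = shuf (L₁.leftQuotient x₁) (L₂.leftQuotient x₂)}, ?_, ?_⟩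
  · rintro _ ⟨x₁, x₂, -, rfl⟩
    exact ⟨(L₁.leftQuotient x₁, L₂.leftQuotient x₂), ⟨⟨x₁, rfl⟩, ⟨x₂, rfl⟩⟩, rfl⟩
  · intro y
    constructor
    · intro h
      obtain ⟨u, hu, v, hv, hs⟩ := mem_shuf.1 h
      obtain ⟨u₁, u₂, v₁, v₂, rfl, rfl, h3, h4⟩ := hs.split x y rfl
      exact ⟨_, ⟨u₁, v₁, h3, rfl⟩, mem_shuf.2 ⟨u₂, hu, v₂, hv, h4⟩⟩
    · rintro ⟨_, ⟨x₁, x₂, h3, rfl⟩, hy⟩
      obtain ⟨u, hu, v, hv, hs⟩ := mem_shuf.1 hy
      exact mem_shuf.2 ⟨x₁ ++ u, hu, x₂ ++ v, hv, h3.append hs⟩

theorem isRegular_quot {L : Language A} (h : L.IsRegular) (x y : List A) :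
    (quot x y L).IsRegular := by
  refine isRegular_of_family _
    ((fun M : Language A => ({u | u ++ y ∈ M} : Language A)) '' (Set.range L.leftQuotient))
    (h.finite_range_leftQuotient.image _) ?_
  intro z
  refine ⟨{({u | u ++ y ∈ L.leftQuotient (x ++ z)} : Language A)}, ?_, ?_⟩
  · rintro _ rfl
    exact ⟨_, ⟨x ++ z, rfl⟩, rfl⟩
  · intro w
    have h1 : (z ++ w ∈ quot x y L) ↔ w ∈ ({u | u ++ y ∈ L.leftQuotient (x ++ z)} : Language A) := by
      change x ++ (z ++ w) ++ y ∈ L ↔ (x ++ z) ++ (w ++ y) ∈ L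
      simp only [List.append_assoc]
    rw [h1]
    constructor
    · intro h; exact ⟨_, rfl, h⟩
    · rintro ⟨B, hB, h⟩
      have hB' : B = ({u | u ++ y ∈ L.leftQuotient (x ++ z)} : Language A) := hB
      rwa [hB'] at h

end shuffle

/-! ### the generated variety -/

/-- the smallest positive variety closed under shuffle that contains the regular language `L₀` -/
def gen (L₀ : Language Bool) : PosVar where
  mem A _ := {L | L.IsRegular ∧ ∀ V : PosVar, ShuffleClosed V → L₀ ∈ V.mem Bool → L ∈ V.mem A}
  regular _ _ _ h := h.1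
  empty A _ := ⟨by
    have h := isRegular_finite (∅ : Set (List A)) Set.finite_empty
    exact h, fun V _ _ => V.empty A⟩
  univ A _ := ⟨by
    have h := (isRegular_finite (∅ : Set (List A)) Set.finite_empty)
    have h2 := Language.IsRegular.compl h
    have h3 : ((∅ : Set (List A))ᶜ : Language A) = ({w | True} : Language A) := by
      ext w; change (w ∉ (∅ : Set (List A))) ↔ True; simp
    exact h3 ▸ h2, fun V _ _ => V.univ A⟩
  union A _ L M hL hM := ⟨Language.IsRegular.add hL.1 hM.1, fun V hV h0 =>
    V.union A L M (hL.2 V hV h0) (hM.2 V hV h0)⟩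
  inter A _ L M hL hM := ⟨Language.IsRegular.inf hL.1 hM.1, fun V hV h0 =>
    V.inter A L M (hL.2 V hV h0) (hM.2 V hV h0)⟩
  quot A _ x y L hL := ⟨isRegular_quot hL.1 x y, fun V hV h0 => V.quot A x y L (hL.2 V hV h0)⟩
  inv A B _ _ φ L hL := ⟨isRegular_comap φ hL.1, fun V hV h0 => V.inv A B φ L (hL.2 V hV h0)⟩

theorem gen_shuffleClosed (L₀ : Language Bool) : ShuffleClosed (gen L₀) := fun A _ L M hL hM =>
  ⟨isRegular_shuf hL.1 hM.1, fun V hV h0 => hV A L M (hL.2 V hV h0) (hM.2 V hV h0)⟩

theorem mem_gen {L₀ : Language Bool} (h : L₀.IsRegular) : L₀ ∈ (gen L₀).mem Bool :=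
  ⟨h, fun _ _ h0 => h0⟩

theorem gen_le {L₀ : Language Bool} {V : PosVar} (hV : ShuffleClosed V) (h : L₀ ∈ V.mem Bool) :
    Le (gen L₀) V := fun _ _ _ hL => hL.2 V hV h

/-- regular languages whose complement... closed under a relation compatible with everything -/
def relVar (R : ∀ A : Type, List A → List A → Prop)
    (hctx : ∀ (A : Type) (x y u v : List A), R A u v → R A (x ++ u ++ y) (x ++ v ++ y))
    (hmap : ∀ (A B : Type) (φ : A → List B) (u v : List A), R A u v →
      R B (u.flatMap φ) (v.flatMap φ)) : PosVar where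
  mem A _ := {L | L.IsRegular ∧ ∀ u v : List A, R A u v → u ∈ L → v ∈ L}
  regular _ _ _ h := h.1
  empty A _ := ⟨(gen F).regular A _ ((gen F).empty A), fun _ _ _ h => h⟩
  univ A _ := ⟨(gen F).regular A _ ((gen F).univ A), fun _ _ _ _ => trivial⟩
  union A _ L M hL hM := ⟨Language.IsRegular.add hL.1 hM.1, fun u v h huv =>
    huv.imp (hL.2 u v h) (hM.2 u v h)⟩
  inter A _ L M hL hM := ⟨Language.IsRegular.inf hL.1 hM.1, fun u v h huv =>
    ⟨hL.2 u v h huv.1, hM.2 u v h huv.2⟩⟩
  quot A _ x y L hL := ⟨isRegular_quot hL.1 x y, fun u v h hu => hL.2 _ _ (hctx A x y u v h) hu⟩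
  inv A B _ _ φ L hL := ⟨isRegular_comap φ hL.1, fun u v h hu => hL.2 _ _ (hmap A B φ u v h) hu⟩

theorem sublist_ctx {A : Type} (x y : List A) {u v : List A} (h : u.Sublist v) :
    (x ++ u ++ y).Sublist (x ++ v ++ y) :=
  ((List.Sublist.refl x).append h).append (List.Sublist.refl y)

theorem sublist_flatMap {A B : Type} (φ : A → List B) {u v : List A} (h : u.Sublist v) :
    (u.flatMap φ).Sublist (v.flatMap φ) := by
  induction h with
  | slnil => exact List.Sublist.refl _
  | cons c _ ih =>
    rw [List.flatMap_cons]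
    exact ih.trans (List.sublist_append_right _ _)
  | cons_cons c _ ih =>
    rw [List.flatMap_cons, List.flatMap_cons]
    exact (List.Sublist.refl _).append ih

/-- superword closed regular languages -/
def Up : PosVar := relVar (fun _ u v => u.Sublist v) (fun _ x y _ _ h => sublist_ctx x y h)
  (fun _ _ φ _ _ h => sublist_flatMap φ h)

/-- subword closed regular languages -/
def Down : PosVar := relVar (fun _ u v => v.Sublist u) (fun _ x y _ _ h => sublist_ctx x y h)
  (fun _ _ φ _ _ h => sublist_flatMap φ h)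

theorem up_shuffleClosed : ShuffleClosed Up := by
  intro A _ L M hL hM
  refine ⟨isRegular_shuf hL.1 hM.1, ?_⟩
  intro w w' hw h
  obtain ⟨u, hu, v, hv, hs⟩ := mem_shuf.1 h
  obtain ⟨u', h1, h2⟩ := Sh.sup hw u v hs
  exact mem_shuf.2 ⟨u', hL.2 _ _ h1 hu, v, hv, h2⟩

theorem down_shuffleClosed : ShuffleClosed Down := by
  intro A _ L M hL hM
  refine ⟨isRegular_shuf hL.1 hM.1, ?_⟩
  intro w w' hw h
  obtain ⟨u, hu, v, hv, hs⟩ := mem_shuf.1 h
  obtain ⟨u', v', h1, h2, h3⟩ := hs.sub w' hw
  exact mem_shuf.2 ⟨u', hL.2 _ _ h1 hu, v', hM.2 _ _ h2 hv, h3⟩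

/-! ### `K` and `F` are regular -/

theorem isRegular_F : F.IsRegular := by
  apply isRegular_finite
  refine (Set.toFinite ({[], [a], [b], [a, b]} : Set (List Bool))).subset ?_
  intro w hw
  exact hw

theorem isRegular_occurs (c : Bool) : Language.IsRegular ({w | c ∈ w} : Language Bool) := by
  refine isRegular_of_index (ι := Bool) _
    (fun i => ({w | i = true ∨ c ∈ w} : Language Bool)) ?_
  intro x
  refine ⟨decide (c ∈ x), fun y => ?_⟩
  change c ∈ x ++ y ↔ decide (c ∈ x) = true ∨ c ∈ y
  rw [List.mem_append, decide_eq_true_iff]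

theorem isRegular_K : K.IsRegular :=
  Language.IsRegular.add (isRegular_finite ({w | w = [a, b]} : Set (List Bool))
      (Set.finite_singleton _))
    (Language.IsRegular.inf (isRegular_length_ge 3)
      (Language.IsRegular.inf (isRegular_occurs a) (isRegular_occurs b)))

theorem K_mem_up : K ∈ Up.mem Bool := by
  refine ⟨isRegular_K, ?_⟩
  intro u v h hu
  have h1 := h.length_le
  have h2 : ∀ c, c ∈ u → c ∈ v := fun c hc => h.subset hc
  rcases hu with rfl | ⟨h3, h4, h5⟩
  · rcases Nat.lt_or_ge v.length 3 with hv | hv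
    · left
      simp only [List.length_cons, List.length_nil] at h1
      exact (h.eq_of_length (by simp; omega)).symm
    · right
      exact ⟨hv, h2 _ (by simp), h2 _ (by simp)⟩
  · right
    exact ⟨by omega, h2 _ h4, h2 _ h5⟩

theorem F_mem_down : F ∈ Down.mem Bool := by
  refine ⟨isRegular_F, ?_⟩
  intro u v h hu
  rcases hu with rfl | rfl | rfl | rfl
  · left; exact List.sublist_nil.1 h
  · have h1 := h.length_le
    rcases List.sublist_singleton.1 h with rfl | rfl
    · left; rfl
    · right; left; rfl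
  · rcases List.sublist_singleton.1 h with rfl | rfl
    · left; rfl
    · right; right; left; rfl
  · rcases List.sublist_cons_iff.1 h with h | ⟨r, rfl, h⟩
    · rcases List.sublist_singleton.1 h with rfl | rfl
      · left; rfl
      · right; right; left; rfl
    · rcases List.sublist_singleton.1 (List.Sublist.of_cons_cons h) with rfl | rfl
      · right; left; rfl
      · right; right; right; rfl

/-! ### extracting languages -/

theorem exists_ab {V : PosVar} (h : ¬ Commutative V) :
    ∃ L ∈ V.mem Bool, [a, b] ∈ L ∧ [b, a] ∉ L := by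
  by_contra hcon
  apply h
  intro A _ L hL
  have hswap : ∀ (x y : List A) (c d : A), x ++ (c :: d :: []) ++ y ∈ L →
      x ++ (d :: c :: []) ++ y ∈ L := by
    intro x y c d h1
    by_contra h2
    apply hcon
    refine ⟨inv (fun t : Bool => if t then [d] else [c]) (quot x y L),
      V.inv _ _ _ _ (V.quot _ _ _ _ hL), ?_, ?_⟩
    · exact h1
    · exact h2
  have key : ∀ u v : List A, u.Perm v → ∀ x y : List A, x ++ u ++ y ∈ L → x ++ v ++ y ∈ L := by
    intro u v huv
    induction huv with
    | nil => intro x y h; exact h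
    | cons c _ ih =>
      intro x y h
      have h1 := ih (x ++ [c]) y (by simpa using h)
      simpa using h1
    | swap c d l =>
      intro x y h
      have h1 := hswap x (l ++ y) d c (by simpa using h)
      simpa using h1
    | trans _ _ ih1 ih2 => intro x y h; exact ih2 x y (ih1 x y h)
  intro u v huv hu
  have h1 := key u v huv [] [] (by simpa using hu)
  simpa using h1

/-- the unary language of the nonempty words -/
def Pl : Language Unit := {w | w ≠ []}

theorem Pl_mem {V : PosVar} (hV : ShuffleClosed V) (h : ¬ SubwordClosed V) : Pl ∈ V.mem Unit := by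
  have h1 : ∃ N ∈ V.mem Unit, [()] ∈ N ∧ [] ∉ N := by
    by_contra hcon
    apply h
    intro A _ L hL
    have hdel : ∀ (x y : List A) (c : A), x ++ [c] ++ y ∈ L → x ++ [] ++ y ∈ L := by
      intro x y c h1
      by_contra h2
      apply hcon
      exact ⟨inv (fun _ : Unit => [c]) (quot x y L), V.inv _ _ _ _ (V.quot _ _ _ _ hL), h1, h2⟩
    have key : ∀ u v : List A, v.Sublist u → ∀ x : List A, x ++ u ∈ L → x ++ v ∈ L := by
      intro u v huv
      induction huv with
      | slnil => intro x h; exact h
      | @cons l₁ l₂ c _ ih =>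
        intro x h
        apply ih
        have h1 := hdel x l₂ c (by simpa using h)
        simpa using h1
      | cons_cons c _ ih =>
        intro x h
        have h1 := ih (x ++ [c]) (by simpa using h)
        simpa using h1
    intro u v huv hu
    exact key u v huv [] hu
  obtain ⟨N, hN, h2, h3⟩ := h1
  have h4 := hV Unit N _ hN (V.univ Unit)
  have h5 : shuf N ({w | True} : Language Unit) = Pl := by
    ext w
    constructor
    · intro hw0 hw
      obtain ⟨u, hu, v, -, hs⟩ := mem_shuf.1 hw0
      have h6 := hs.length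
      rw [hw, List.length_nil] at h6
      have h7 : u = [] := List.length_eq_zero_iff.1 (by omega)
      exact h3 (h7 ▸ hu)
    · intro hw
      cases w with
      | nil => exact absurd rfl hw
      | cons c w => exact mem_shuf.2 ⟨[()], h2, w, trivial, Sh.left () (Sh.of_right w)⟩
  rwa [h5] at h4

theorem flatMap_unit_nil {A : Type} (w : List A) (p : A → Bool) :
    w.flatMap (fun t => if p t then [()] else []) = [] ↔ ∀ t ∈ w, p t = false := by
  rw [List.flatMap_eq_nil_iff]
  refine forall₂_congr (fun t _ => ?_)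
  cases p t <;> simp

theorem occurs_mem {V : PosVar} (h : Pl ∈ V.mem Unit) (c : Bool) :
    ({w | c ∈ w} : Language Bool) ∈ V.mem Bool := by
  have h1 := V.inv Bool Unit (fun t => if t == c then [()] else []) Pl h
  have h2 : inv (fun t => if t == c then [()] else []) Pl = ({w | c ∈ w} : Language Bool) := by
    ext w
    change w.flatMap _ ≠ [] ↔ c ∈ w
    rw [Ne, flatMap_unit_nil]
    push Not
    constructor
    · rintro ⟨t, ht, htc⟩
      have : t = c := by simpa using htc
      exact this ▸ ht
    · intro hc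
      exact ⟨c, hc, by simp⟩
  rwa [h2] at h1

theorem length3_mem {V : PosVar} (hV : ShuffleClosed V) (h : Pl ∈ V.mem Unit) :
    ({w | 3 ≤ w.length} : Language Bool) ∈ V.mem Bool := by
  have h1 := hV Unit _ _ h (hV Unit _ _ h h)
  have h2 := V.inv Bool Unit (fun _ => [()]) _ h1
  have h3 : inv (fun _ => [()]) (shuf Pl (shuf Pl Pl)) = ({w | 3 ≤ w.length} : Language Bool) := by
    ext w
    have hlen : (w.flatMap (fun _ => [()])).length = w.length := by
      induction w with
      | nil => rfl
      | cons c w ih => simp only [List.flatMap_cons, List.length_append, ih, List.length_cons,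
          List.length_nil]; omega
    change w.flatMap (fun _ => [()]) ∈ shuf Pl (shuf Pl Pl) ↔ 3 ≤ w.length
    rw [← hlen]
    generalize w.flatMap (fun _ => [()]) = z
    rw [mem_shuf]
    constructor
    · rintro ⟨u, hu, v, hv, hs⟩
      obtain ⟨u', hu', v', hv', hs'⟩ := mem_shuf.1 hv
      have l1 := hs.length
      have l2 := hs'.length
      have l3 : u.length ≠ 0 := fun h => hu (List.length_eq_zero_iff.1 h)
      have l4 : u'.length ≠ 0 := fun h => hu' (List.length_eq_zero_iff.1 h)
      have l5 : v'.length ≠ 0 := fun h => hv' (List.length_eq_zero_iff.1 h)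
      omega
    · intro hz
      match z, hz with
      | c :: d :: e :: z, _ =>
        refine ⟨[c], List.cons_ne_nil _ _, d :: e :: z, mem_shuf.2 ⟨[d], List.cons_ne_nil _ _, e :: z,
          List.cons_ne_nil _ _, Sh.left d (Sh.of_right _)⟩, Sh.left c (Sh.of_right _)⟩
  rwa [h3] at h2

theorem K_aux {L : Language Bool} (hab : [a, b] ∈ L) (hba : [b, a] ∉ L) (w : List Bool) :
    w ∈ K ↔ (w ∈ L ∧ a ∈ w ∧ b ∈ w) ∨ (3 ≤ w.length ∧ a ∈ w ∧ b ∈ w) := by
  constructor
  · rintro (rfl | ⟨h6, h7, h8⟩)
    · left
      exact ⟨hab, by simp, by simp⟩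
    · right
      exact ⟨h6, h7, h8⟩
  · rintro (⟨h6, h7, h8⟩ | ⟨h6, h7, h8⟩)
    · rcases Nat.lt_or_ge w.length 3 with hw | hw
      · left
        match w, hw with
        | [], _ => simp at h7
        | [c], _ => cases c <;> simp at h7 h8
        | [c, d], _ =>
          cases c <;> cases d
          · simp at h8
          · rfl
          · exact absurd h6 hba
          · simp at h7
      · right
        exact ⟨hw, h7, h8⟩
    · right
      exact ⟨h6, h7, h8⟩

theorem K_mem {V : PosVar} (hV : ShuffleClosed V) (hc : ¬ Commutative V)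
    (h : ¬ SubwordClosed V) : K ∈ V.mem Bool := by
  obtain ⟨L, hL, hab, hba⟩ := exists_ab hc
  have hP := Pl_mem hV h
  have ha := occurs_mem hP a
  have hb := occurs_mem hP b
  have h3 := length3_mem hV hP
  have h4 := V.inter _ _ _ ha hb
  have h5 := V.union _ _ _ (V.inter _ _ _ hL h4) (V.inter _ _ _ h3 h4)
  have hEq : K = ({w | (w ∈ L ∧ a ∈ w ∧ b ∈ w) ∨ (3 ≤ w.length ∧ a ∈ w ∧ b ∈ w)} :
      Language Bool) := by
    ext w
    exact K_aux hab hba w
  rw [hEq]
  exact h5

/-- the unary language `{1, a}` -/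
def E1 : Language Unit := {w | w.length ≤ 1}

theorem E1_mem {V : PosVar} (hc : ¬ Commutative V) (h : SubwordClosed V) : E1 ∈ V.mem Unit := by
  obtain ⟨L, hL, hab, hba⟩ := exists_ab hc
  have h1 := V.inv Unit Bool (fun _ => [a, b]) L hL
  suffices hEq : E1 = inv (fun _ => [a, b]) L by rw [hEq]; exact h1
  ext w
  constructor
  · intro hw
    have hw' : w.length ≤ 1 := hw
    match w, hw' with
    | [], _ => exact h Bool L hL [a, b] [] (List.nil_sublist _) hab
    | [()], _ => exact hab
  · intro hw
    by_contra hcon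
    change ¬ w.length ≤ 1 at hcon
    match w, hcon with
    | [], hcon => exact hcon (by simp)
    | [_], hcon => exact hcon (by simp)
    | _ :: _ :: w, _ =>
      apply hba
      refine h Bool L hL _ _ ?_ hw
      change [b, a].Sublist (a :: b :: a :: b :: _)
      exact ((List.Sublist.cons_cons b ((List.Sublist.cons_cons a (List.nil_sublist _)))).cons a)

theorem count_mem {V : PosVar} (h : E1 ∈ V.mem Unit) (c : Bool) :
    ({w | w.count c ≤ 1} : Language Bool) ∈ V.mem Bool := by
  have h1 := V.inv Bool Unit (fun t => if t == c then [()] else []) E1 h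
  suffices hEq : ({w | w.count c ≤ 1} : Language Bool) =
      inv (fun t => if t == c then [()] else []) E1 by exact hEq ▸ h1
  ext w
  change w.count c ≤ 1 ↔ (w.flatMap _).length ≤ 1
  have h2 : (w.flatMap (fun t => if t == c then [()] else [])).length = w.count c := by
    induction w with
    | nil => rfl
    | cons d w ih =>
      rw [List.flatMap_cons, List.length_append, ih, List.count_cons]
      split_ifs <;> simp <;> omega
  rw [h2]

theorem F_mem {V : PosVar} (hc : ¬ Commutative V) (h : SubwordClosed V) : F ∈ V.mem Bool := by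
  have hE := E1_mem hc h
  obtain ⟨L, hL, hab, hba⟩ := exists_ab hc
  have h5 := V.inter _ _ _ hL (V.inter _ _ _ (count_mem hE a) (count_mem hE b))
  suffices hEq : F = ({w | w ∈ L ∧ w.count a ≤ 1 ∧ w.count b ≤ 1} : Language Bool) by
    rw [hEq]; exact h5
  ext w
  constructor
  · intro hw
    have hsub : w.Sublist [a, b] := by
      rcases hw with rfl | rfl | rfl | rfl
      · exact List.nil_sublist _
      · exact List.Sublist.cons_cons _ (List.nil_sublist _)
      · exact (List.Sublist.refl _).cons _
      · exact List.Sublist.refl _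
    exact ⟨h Bool L hL _ _ hsub hab, (hsub.count_le a).trans (by decide),
      (hsub.count_le b).trans (by decide)⟩
  · rintro ⟨h6, h7, h8⟩
    have h7' : w.count a ≤ 1 := h7
    have h8' : w.count b ≤ 1 := h8
    match w, h6, h7', h8' with
    | [], _, _, _ => left; rfl
    | [false], _, _, _ => right; left; rfl
    | [true], _, _, _ => right; right; left; rfl
    | [c, d], h6, h7, h8 =>
      cases c <;> cases d
      · simp at h7
      · right; right; right; rfl
      · exact absurd h6 hba
      · simp at h8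
    | c :: d :: e :: w, _, h7, h8 =>
      exfalso
      have h9 := List.count_not_add_count (c :: d :: e :: w) true
      simp only [List.length_cons] at h9
      have h10 : (c :: d :: e :: w).count a + (c :: d :: e :: w).count b =
        w.length + 1 + 1 + 1 := h9
      omega

/-! ### the theorem -/

theorem not_comm_K : ¬ Commutative (gen K) := by
  intro h
  have h1 := h Bool K (mem_gen isRegular_K) [a, b] [b, a] (List.Perm.swap _ _ _) (Or.inl rfl)
  rcases h1 with h1 | ⟨h1, _⟩
  · simp at h1
  · simp at h1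

theorem not_comm_F : ¬ Commutative (gen F) := by
  intro h
  have h1 := h Bool F (mem_gen isRegular_F) [a, b] [b, a] (List.Perm.swap _ _ _)
    (Or.inr (Or.inr (Or.inr rfl)))
  rcases h1 with h1 | h1 | h1 | h1 <;> simp at h1

theorem genK_le_up : Le (gen K) Up := gen_le up_shuffleClosed K_mem_up

theorem genF_le_down : Le (gen F) Down := gen_le down_shuffleClosed F_mem_down

theorem down_sub {U : PosVar} (h : Le U Down) : SubwordClosed U := fun A _ _ hL =>
  (h A hL).2

theorem F_notMem {U : PosVar} (h : Le U Up) : F ∉ U.mem Bool := by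
  intro hF
  have h1 := (h Bool hF).2 [] [a, a] (List.nil_sublist _) (Or.inl rfl)
  rcases h1 with h1 | h1 | h1 | h1 <;> simp at h1

theorem K_notMem {U : PosVar} (h : Le U Down) : K ∉ U.mem Bool := by
  intro hK
  have h1 := (h Bool hK).2 [a, b] [] (List.nil_sublist _) (Or.inl rfl)
  rcases h1 with h1 | h1 <;> simp at h1

theorem Le.trans {U V W : PosVar} (h : Le U V) (h' : Le V W) : Le U W :=
  fun A _ _ hL => h' A (h A hL)

theorem Le.antisymm {U V : PosVar} (h : Le U V) (h' : Le V U) : U = V := by
  have : U.mem = V.mem := by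
    funext A hA
    exact Set.Subset.antisymm (h A) (h' A)
  exact PosVar.ext this

theorem minimal_K : IsMinimalNC (gen K) := by
  refine ⟨gen_shuffleClosed K, not_comm_K, ?_⟩
  intro U hU hc hle
  refine gen_le hU (K_mem hU hc ?_)
  intro hs
  exact F_notMem (hle.trans genK_le_up) (F_mem hc hs)

theorem minimal_F : IsMinimalNC (gen F) := by
  refine ⟨gen_shuffleClosed F, not_comm_F, ?_⟩
  intro U hU hc hle
  exact gen_le hU (F_mem hc (down_sub (hle.trans genF_le_down)))

theorem main :
    -- the two generated varieties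
    (K ∈ (gen K).mem Bool ∧ F ∈ (gen F).mem Bool ∧
      (∀ V, ShuffleClosed V → K ∈ V.mem Bool → Le (gen K) V) ∧
      (∀ V, ShuffleClosed V → F ∈ V.mem Bool → Le (gen F) V)) ∧
    -- exactly two minimal ones, and they are different
    (∀ V, IsMinimalNC V ↔ V = gen K ∨ V = gen F) ∧ gen K ≠ gen F ∧
    -- every noncommutative one contains one of them
    (∀ V, ShuffleClosed V → ¬ Commutative V →
      (SubwordClosed V → Le (gen F) V ∧ ¬ Le (gen K) V) ∧ (¬ SubwordClosed V → Le (gen K) V)) ∧
    -- position of the two minimal ones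
    SubwordClosed (gen F) ∧
    (∀ (A : Type) [Finite A] (L : Language A), L ∈ (gen K).mem A →
      ∀ u v : List A, u.Sublist v → u ∈ L → v ∈ L) := by
  refine ⟨⟨mem_gen isRegular_K, mem_gen isRegular_F, fun V hV h => gen_le hV h,
    fun V hV h => gen_le hV h⟩, ?_, ?_, ?_, down_sub genF_le_down, fun A _ _ hL => (genK_le_up A hL).2⟩
  · intro V
    constructor
    · rintro ⟨hV, hc, hmin⟩
      by_cases hs : SubwordClosed V
      · right
        have h1 : Le (gen F) V := gen_le hV (F_mem hc hs)
        exact (hmin _ (gen_shuffleClosed F) not_comm_F h1).antisymm h1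
      · left
        have h1 : Le (gen K) V := gen_le hV (K_mem hV hc hs)
        exact (hmin _ (gen_shuffleClosed K) not_comm_K h1).antisymm h1
    · rintro (rfl | rfl)
      · exact minimal_K
      · exact minimal_F
  · intro h
    apply F_notMem (U := gen F)
    · rw [← h]; exact genK_le_up
    · exact mem_gen isRegular_F
  · intro V hV hc
    refine ⟨fun hs => ⟨gen_le hV (F_mem hc hs), fun hK => ?_⟩, fun hs => gen_le hV (K_mem hV hc hs)⟩
    have h1 := hs Bool K (hK Bool (mem_gen isRegular_K)) [a, b] [] (List.nil_sublist _) (Or.inl rfl)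
    rcases h1 with h1 | h1 <;> simp at h1

end Pool.Agent.ShufVar
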