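import Mathlib

/-!
MP_cf3bcc_lc: Ramsey's theorem for sublists of a list.
-/

namespace Pool.Agent.ShufVar

variable {α κ : Type}

/-- `k` is the colour of all `a :: l`, `l` a sublist of length `n` of the rest -/
def EndHom (n : ℕ) (col : List α → κ) : List (α × κ) → Prop
  | [] => True
  | (a, k) :: K => (∀ l : List α, l.Sublist (K.map Prod.fst) → l.length = n → col (a :: l) = k) ∧
      EndHom n col K

/-- homogeneous sublists of length `h` exist in lists of length at least `m` -/
def RamseyProp (α κ : Type) (n h m : ℕ) : Prop :=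
  ∀ S : List α, m ≤ S.length → ∀ col : List α → κ, ∃ H, H.Sublist S ∧ H.length = h ∧
    ∃ k, ∀ l : List α, l.Sublist H → l.length = n → col l = k

theorem ramsey_zero (h : ℕ) : RamseyProp α κ 0 h h := by
  intro S hS col
  refine ⟨S.take h, List.take_sublist _ _, by rw [List.length_take]; omega, col [], ?_⟩
  intro l _ hl
  rw [List.length_eq_zero_iff.1 hl]

theorem endHom_exists {n : ℕ} (ih : ∀ h, ∃ m, ∀ α : Type, RamseyProp α κ n h m) : ∀ r : ℕ,
    ∃ m : ℕ, ∀ (α : Type) (S : List α), m ≤ S.length → ∀ col : List α → κ, ∃ K : List (α × κ),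
      (K.map Prod.fst).Sublist S ∧ K.length = r ∧ EndHom n col K := by
  intro r
  induction r with
  | zero => exact ⟨0, fun α S _ col => ⟨[], List.nil_sublist _, rfl, trivial⟩⟩
  | succ r ihr =>
    obtain ⟨m, hm⟩ := ihr
    obtain ⟨m', hm'⟩ := ih m
    refine ⟨m' + 1, fun α S hS col => ?_⟩
    cases S with
    | nil => simp at hS
    | cons a S =>
      rw [List.length_cons] at hS
      obtain ⟨H, hH1, hH2, k, hk⟩ := hm' α S (by omega) (fun l => col (a :: l))
      obtain ⟨K, hK1, hK2, hK3⟩ := hm α H hH2.ge col
      refine ⟨(a, k) :: K, (hK1.trans hH1).cons_cons a, by rw [List.length_cons, hK2], ?_, hK3⟩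
      intro l hl hln
      exact hk l (hl.trans hK1) hln

theorem endHom_filter [DecidableEq κ] {n : ℕ} {col : List α → κ} (k : κ) : ∀ K : List (α × κ),
    EndHom n col K → ∀ l : List α, l.Sublist ((K.filter (fun x => x.2 = k)).map Prod.fst) →
      l.length = n + 1 → col l = k := by
  intro K
  induction K with
  | nil =>
    intro _ l hl hn
    rw [List.filter_nil, List.map_nil, List.sublist_nil] at hl
    rw [hl] at hn
    simp at hn
  | cons x K ih =>
    obtain ⟨b, k'⟩ := x
    rintro ⟨h1, h2⟩ l hl hn
    by_cases hk : k' = k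
    · subst hk
      rw [List.filter_cons_of_pos (by simp), List.map_cons] at hl
      rcases List.sublist_cons_iff.1 hl with hl | ⟨r, rfl, hr⟩
      · exact ih h2 l hl hn
      · refine h1 r (hr.trans ((List.filter_sublist).map _)) ?_
        rw [List.length_cons] at hn
        omega
    · rw [List.filter_cons_of_neg (by simpa using hk)] at hl
      exact ih h2 l hl hn

theorem exists_big_colour [Finite κ] [DecidableEq κ] (h : ℕ) (K : List (α × κ))
    (hK : Nat.card κ * h < K.length) : ∃ k, h ≤ (K.filter (fun x => x.2 = k)).length := by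
  have := Fintype.ofFinite κ
  by_contra hcon
  push Not at hcon
  have h1 : K.length = ∑ k : κ, (K.filter (fun x => x.2 = k)).length := by
    clear hK hcon
    induction K with
    | nil => simp
    | cons x K ih =>
      have h2 : ∀ k : κ, ((x :: K).filter (fun x => x.2 = k)).length =
          (if x.2 = k then 1 else 0) + (K.filter (fun x => x.2 = k)).length := by
        intro k
        rw [List.filter_cons]
        by_cases hk : x.2 = k
        · simp [hk]; omega
        · simp [hk]
      rw [List.length_cons, ih, Finset.sum_congr rfl (fun k _ => h2 k), Finset.sum_add_distrib,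
        Finset.sum_ite_eq]
      simp
      omega
  have h2 : ∑ k : κ, (K.filter (fun x => x.2 = k)).length ≤ ∑ _k : κ, h :=
    Finset.sum_le_sum fun k _ => (hcon k).le
  rw [Finset.sum_const, Finset.card_univ, smul_eq_mul, ← Nat.card_eq_fintype_card] at h2
  omega

/-- Ramsey's theorem -/
theorem ramsey (κ : Type) [Finite κ] (n : ℕ) : ∀ h, ∃ m, ∀ α : Type, RamseyProp α κ n h m := by
  classical
  induction n with
  | zero => exact fun h => ⟨h, fun _ => ramsey_zero h⟩
  | succ n ih =>
    intro h
    obtain ⟨m, hm⟩ := endHom_exists ih (Nat.card κ * h + 1)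
    refine ⟨m, fun α S hS col => ?_⟩
    obtain ⟨K, hK1, hK2, hK3⟩ := hm α S hS col
    obtain ⟨k, hk⟩ := exists_big_colour h K (by omega)
    refine ⟨((K.filter (fun x => x.2 = k)).map Prod.fst).take h,
      (List.take_sublist _ _).trans (((List.filter_sublist).map _).trans hK1), ?_, k, ?_⟩
    · rw [List.length_take, List.length_map]
      omega
    · intro l hl hn
      exact endHom_filter k K hK3 l (hl.trans (List.take_sublist _ _)) hn

theorem RamseyProp.mono {n h m m' : ℕ} (hm : RamseyProp α κ n h m) (hmm : m ≤ m') :
    RamseyProp α κ n h m' := fun S hS col => hm S (hmm.trans hS) col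

end Pool.Agent.ShufVar
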