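import Pool.Agent.ShufVar.Fam
import Pool.Agent.ShufVar.Ramsey

/-!
MP_cf3bcc_lc: renamings from shuffles.
-/

namespace Pool.Agent.ShufVar

/-- the image of a language under a renaming of the letters -/
def img {X A : Type} (c : X → A) (M : Language X) : Language A := {w | ∃ u ∈ M, u.map c = w}

theorem isRegular_img {X A : Type} (c : X → A) {M : Language X} (h : M.IsRegular) :
    (img c M).IsRegular := by
  refine Star60.isRegular_of_family _ ((fun N : Language X => img c N) '' (Set.range M.leftQuotient))
    (h.finite_range_leftQuotient.image _) ?_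
  intro x
  refine ⟨{B | ∃ u : List X, u.map c = x ∧ B = img c (M.leftQuotient u)}, ?_, ?_⟩
  · rintro _ ⟨u, -, rfl⟩
    exact ⟨_, ⟨u, rfl⟩, rfl⟩
  · intro y
    constructor
    · rintro ⟨u, hu, h1⟩
      obtain ⟨u₁, u₂, rfl, h2, h3⟩ := List.map_eq_append_iff.1 h1
      exact ⟨_, ⟨u₁, h2, rfl⟩, u₂, hu, h3⟩
    · rintro ⟨_, ⟨u, rfl, rfl⟩, u₂, hu, rfl⟩
      exact ⟨u ++ u₂, hu, List.map_append⟩

theorem shufFam_mem' {V : PosVar} (hV : ShuffleClosed V) {B : Type} [Finite B] : ∀ (m : ℕ)
    (M : Fin (m + 1) → Language B) (_ : ∀ i, M i ∈ V.mem B), ShufFam M ∈ V.mem B := by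
  intro m
  induction m with
  | zero =>
    intro M hM
    suffices hEq : ShufFam M = M 0 by rw [hEq]; exact hM 0
    have hp : ∀ W : List (B × Fin 1), part 0 W = W.map Prod.fst := by
      intro W
      unfold part
      rw [List.filter_eq_self.2]
      intro x _
      rw [decide_eq_true_iff]
      exact Fin.ext (by have := x.2.2; omega)
    ext w
    constructor
    · rintro ⟨W, rfl, hW⟩
      rw [← hp]
      exact hW 0
    · intro hw
      refine ⟨w.map (fun x => (x, 0)), ?_, ?_⟩
      · rw [List.map_map]; exact List.map_id w
      · intro i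
        have hi : i = 0 := Fin.ext (by have := i.2; omega)
        rw [hi, hp, List.map_map]
        have : w.map (Prod.fst ∘ fun x => (x, (0 : Fin 1))) = w := List.map_id w
        rw [this]
        exact hw
  | succ m ih =>
    intro M hM
    have h2 := hV B _ _ (hM 0) (ih (fun i => M i.succ) (fun i => hM i.succ))
    suffices hEq : ShufFam M = shuf (M 0) (ShufFam (fun i => M i.succ)) by rw [hEq]; exact h2
    ext w
    constructor
    · rintro ⟨W, rfl, hW⟩
      set W₂ : List (B × (Unit ⊕ Fin (m + 1))) := W.map (fun x => (x.1, toSum x.2)) with hW₂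
      have hWW : W = W₂.map (fun x => (x.1, ofSum x.2)) := by
        rw [hW₂, List.map_map]
        conv_lhs => rw [← List.map_id W]
        refine List.map_congr_left fun x _ => ?_
        simp only [Function.comp, ofSum_toSum]
        rfl
      have hs := sh_filterMap W₂
      have h3 : W₂.map Prod.fst = W.map Prod.fst := by
        rw [hW₂, List.map_map]
        rfl
      rw [h3] at hs
      refine mem_shuf.2 ⟨_, ?_, _, ⟨W₂.filterMap rgt, rfl, ?_⟩, hs⟩
      · have := hW 0
        rw [hWW, part_zero] at this
        exact this
      · intro i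
        have := hW i.succ
        rw [hWW, part_succ] at this
        exact this
    · intro h
      obtain ⟨u, hu, v, ⟨W', rfl, hW'⟩, hs⟩ := mem_shuf.1 h
      obtain ⟨W₂, h3, h4, h5⟩ := exists_merge hs (u.map (fun c => (c, ()))) W'
        (by rw [List.map_map]; exact List.map_id u) rfl
      refine ⟨W₂.map (fun x => (x.1, ofSum x.2)), ?_, ?_⟩
      · rw [List.map_map]
        exact h3
      · intro i
        refine Fin.cases ?_ (fun i => ?_) i
        · rw [part_zero, h4, List.map_map]
          have : List.map (Prod.fst ∘ fun c => (c, ())) u = u := List.map_id u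
          rw [this]
          exact hu
        · rw [part_succ, h5]
          exact hW' i

section gadget

variable {A : Type} {n m : ℕ}

/-- letters of the auxiliary alphabet -/
abbrev Lt (A : Type) (n m : ℕ) : Type := A × (Fin n ↪ Fin m)

/-- the substitution -/
noncomputable def su (n m : ℕ) (c : A) : List (Lt A n m) :=
  (Finset.univ : Finset (Fin n ↪ Fin m)).toList.map (fun s => (c, s))

theorem mem_su {c : A} {α : Lt A n m} : α ∈ su n m c ↔ α.1 = c := by
  unfold su
  rw [List.mem_map]
  constructor
  · rintro ⟨s, _, rfl⟩
    rfl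
  · rintro rfl
    exact ⟨α.2, Finset.mem_toList.2 (Finset.mem_univ _), rfl⟩

theorem nodup_su (c : A) : (su n m c).Nodup := by
  unfold su
  refine (Finset.nodup_toList _).map ?_
  intro s s' h
  exact (Prod.mk.injEq .. ▸ h).2

open Classical in
/-- reading the representatives `σ` -/
noncomputable def rho (c : Fin n → A) (σ : Fin n → (Fin n ↪ Fin m)) (α : Lt A n m) :
    List (Fin n) := (List.finRange n).filter (fun x => σ x = α.2 ∧ c x = α.1)

theorem mem_rho {c : Fin n → A} {σ : Fin n → (Fin n ↪ Fin m)} {α : Lt A n m} {x : Fin n} :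
    x ∈ rho c σ α ↔ σ x = α.2 ∧ c x = α.1 := by
  classical
  unfold rho
  rw [List.mem_filter, decide_eq_true_iff]
  exact ⟨fun h => h.2, fun h => ⟨List.mem_finRange x, h⟩⟩

theorem nodup_rho {c : Fin n → A} {σ : Fin n → (Fin n ↪ Fin m)} {α : Lt A n m} :
    (rho c σ α).Nodup := by
  unfold rho
  apply List.Nodup.filter
  exact List.nodup_finRange n

theorem filter_one {β : Type} [DecidableEq β] (x : β) : ∀ l : List β, l.Nodup → x ∈ l →
    l.filter (fun y => y = x) = [x] := by
  intro l
  induction l with
  | nil => intro _ h; simp at h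
  | cons s l ih =>
    intro hnd hs
    rw [List.nodup_cons] at hnd
    by_cases h : s = x
    · subst h
      rw [List.filter_cons_of_pos (by simp)]
      have h1 : l.filter (fun y => y = s) = [] := by
        rw [List.filter_eq_nil_iff]
        intro y hy hys
        rw [decide_eq_true_iff] at hys
        rw [hys] at hy
        exact hnd.1 hy
      rw [h1]
    · rw [List.filter_cons_of_neg (by simpa using h)]
      refine ih hnd.2 ?_
      rcases List.mem_cons.1 hs with h' | h'
      · exact absurd h'.symm h
      · exact h'

/-- the language of the component `i` -/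
def RM (c : Fin n → A) (M : Language (Fin n)) (i : Fin m) : Language (Lt A n m) :=
  {y | ∀ σ : Fin n → (Fin n ↪ Fin m), (∀ x, σ x x = i) → y.flatMap (rho c σ) ∈ M}

theorem rm_mem {V : PosVar} [Finite A] (c : Fin n → A) {M : Language (Fin n)}
    (hM : M ∈ V.mem (Fin n)) (i : Fin m) : RM c M i ∈ V.mem (Lt A n m) := by
  classical
  have h1 := forall_mem (V := V) (A := Lt A n m)
    (fun σ : Fin n → (Fin n ↪ Fin m) => if ∀ x, σ x x = i then inv (rho c σ) M
      else ({w | True} : Language (Lt A n m))) (fun σ => by
        by_cases h : ∀ x, σ x x = i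
        · rw [if_pos h]; exact V.inv _ _ _ _ hM
        · rw [if_neg h]; exact V.univ _)
  suffices hEq : RM c M i = ({w | ∀ σ : Fin n → (Fin n ↪ Fin m),
      w ∈ (if ∀ x, σ x x = i then inv (rho c σ) M else ({w | True} : Language (Lt A n m)))} :
      Language (Lt A n m)) by rw [hEq]; exact h1
  ext w
  constructor
  · intro hw σ
    by_cases h : ∀ x, σ x x = i
    · rw [if_pos h]; exact hw σ h
    · rw [if_neg h]; trivial
  · intro hw σ h
    have := hw σ
    rw [if_pos h] at this
    exact this

theorem flatMap_one {β γ : Type} [DecidableEq β] (x : γ) (s₀ : β) : ∀ l : List β, l.Nodup →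
    s₀ ∈ l → l.flatMap (fun s => if s = s₀ then [x] else []) = [x] := by
  intro l
  induction l with
  | nil => intro _ h; simp at h
  | cons s l ih =>
    intro hnd hs
    rw [List.nodup_cons] at hnd
    rw [List.flatMap_cons]
    by_cases h : s = s₀
    · subst h
      rw [if_pos rfl]
      have h1 : l.flatMap (fun s' => if s' = s then [x] else []) = [] := by
        rw [List.flatMap_eq_nil_iff]
        intro s' hs'
        rw [if_neg]
        rintro rfl
        exact hnd.1 hs'
      rw [h1]
      rfl
    · rw [if_neg h, List.nil_append]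
      refine ih hnd.2 ?_
      rcases List.mem_cons.1 hs with h' | h'
      · exact absurd h'.symm h
      · exact h'

theorem rho_block (c : Fin n → A) {σ : Fin n → (Fin n ↪ Fin m)} {i : Fin m}
    (hσ : ∀ x, σ x x = i) (x : Fin n) :
    ((su n m (c x)).filter (fun α => α.2 x = i)).flatMap (rho c σ) = [x] := by
  classical
  have h1 : ∀ s : Fin n ↪ Fin m, s x = i → rho c σ (c x, s) = if s = σ x then [x] else [] := by
    intro s hs
    by_cases h : s = σ x
    · rw [if_pos h]
      subst h
      have h2 : rho c σ (c x, σ x) = (List.finRange n).filter (fun y => y = x) := by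
        unfold rho
        refine List.filter_congr fun y _ => ?_
        rw [decide_eq_decide]
        constructor
        · rintro ⟨h3, -⟩
          have h3' : σ y = σ x := h3
          apply (σ x).injective
          rw [hσ x, ← h3', hσ y]
        · rintro rfl
          exact ⟨rfl, rfl⟩
      rw [h2]
      exact filter_one x _ (List.nodup_finRange n) (List.mem_finRange x)
    · rw [if_neg h, List.eq_nil_iff_forall_not_mem]
      intro y hy
      rw [mem_rho] at hy
      apply h
      have h3 : σ y = s := hy.1
      have h4 : y = x := by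
        apply s.injective
        rw [hs, ← h3, hσ y]
      rw [← h3, h4]
  have h2 : (su n m (c x)).filter (fun α => α.2 x = i) =
      ((Finset.univ : Finset (Fin n ↪ Fin m)).toList.filter (fun s => s x = i)).map
        (fun s => (c x, s)) := by
    unfold su
    rw [List.filter_map]
    rfl
  rw [h2, List.flatMap_map]
  have h3 : ((Finset.univ : Finset (Fin n ↪ Fin m)).toList.filter (fun s => s x = i)).flatMap
      (fun s => rho c σ (c x, s)) =
      ((Finset.univ : Finset (Fin n ↪ Fin m)).toList.filter (fun s => s x = i)).flatMap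
        (fun s => if s = σ x then [x] else []) := by
    refine List.flatMap_congr fun s hs => ?_
    rw [List.mem_filter, decide_eq_true_iff] at hs
    exact h1 s hs.2
  rw [h3]
  refine flatMap_one x (σ x) _ ((Finset.nodup_toList _).filter _) ?_
  rw [List.mem_filter, decide_eq_true_iff]
  exact ⟨Finset.mem_toList.2 (Finset.mem_univ _), hσ x⟩

/-- the image is contained in the gadget language -/
theorem img_sub (c : Fin n → A) {M : Language (Fin n)} {u : List (Fin n)} (hu : u ∈ M) :
    (u.map c).flatMap (su n m) ∈ ShufFam (fun i : Fin m => RM c M i) := by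
  refine ⟨u.flatMap (fun x => (su n m (c x)).map (fun α => (α, α.2 x))), ?_, ?_⟩
  · rw [List.map_flatMap, List.flatMap_map]
    refine List.flatMap_congr fun x _ => ?_
    rw [List.map_map]
    exact List.map_id _
  · intro i σ hσ
    have hpart : part i (u.flatMap (fun x => (su n m (c x)).map (fun α => (α, α.2 x)))) =
        u.flatMap (fun x => (su n m (c x)).filter (fun α => α.2 x = i)) := by
      unfold part
      rw [List.filter_flatMap, List.map_flatMap]
      refine List.flatMap_congr fun x _ => ?_
      rw [List.filter_map, List.map_map]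
      exact List.map_id _
    rw [hpart, List.flatMap_assoc]
    have h1 : u.flatMap (fun x => ((su n m (c x)).filter (fun α => α.2 x = i)).flatMap (rho c σ)) =
        u.flatMap (fun x => [x]) := List.flatMap_congr fun x _ => rho_block c hσ x
    rw [h1, List.flatMap_singleton']
    exact hu

/-- the embedding given by a list -/
def emb (l : List (Fin m)) (h1 : l.length = n) (h2 : l.Nodup) : Fin n ↪ Fin m :=
  ⟨fun j => l[j.1]'(by rw [h1]; exact j.2), fun j j' h => by
    have := (List.Nodup.getElem_inj_iff h2).1 h
    exact Fin.ext this⟩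

/-- representatives in a long list -/
theorem exists_rep (H : List (Fin m)) (hH : H.length = 2 * n + 1) (hnd : H.Nodup) :
    ∃ (i : Fin m) (σ : Fin n → (Fin n ↪ Fin m)), (∀ x, σ x x = i) ∧
      ∀ x, ∃ l : List (Fin m), ∃ (h1 : l.length = n) (h2 : l.Nodup), l.Sublist H ∧
        σ x = emb l h1 h2 := by
  have hl : ∀ x : Fin n, ((H.drop (n - x.1)).take n).length = n := by
    intro x
    rw [List.length_take, List.length_drop, hH]
    have := x.2
    omega
  have hsub : ∀ x : Fin n, ((H.drop (n - x.1)).take n).Sublist H := fun x =>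
    (List.take_sublist _ _).trans (List.drop_sublist _ _)
  refine ⟨H[n]'(by omega), fun x => emb ((H.drop (n - x.1)).take n) (hl x) (hnd.sublist (hsub x)),
    ?_, fun x => ⟨_, hl x, hnd.sublist (hsub x), hsub x, rfl⟩⟩
  intro x
  change ((H.drop (n - x.1)).take n)[x.1]'_ = _
  rw [List.getElem_take, List.getElem_drop]
  congr 1
  have := x.2
  omega

/-- the main step: superword closed case -/
theorem gadget_up (c : Fin n → A) {M : Language (Fin n)} {N : ℕ} (e : Fin N → Atom A)
    (hdis : ∀ w ∈ Cl full e, w ∉ img c M)
    (hm : RamseyProp (Fin m) (Fin N → Set (Fin n)) n (2 * n + 1) m) {w : List A}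
    (hw : w ∈ Cl full e) : w.flatMap (su n m) ∉ ShufFam (fun i : Fin m => RM c M i) := by
  classical
  rintro ⟨W, hW, hM⟩
  obtain ⟨Wl, rfl, hfit, hpw⟩ := hw
  rw [List.flatMap_map] at hW
  obtain ⟨Z, rfl, rfl, hZ2⟩ := exists_blocks (fun p : A × Fin N => su n m p.1) Prod.fst Wl W hW
  -- the colouring
  set κ : (Fin n ↪ Fin m) → Fin N → Set (Fin n) := fun s l =>
    {x | ∃ z ∈ Z, z.1.2 = l ∧ c x = z.1.1 ∧ (((z.1.1, s) : Lt A n m), s x) ∈ z.2} with hκ
  obtain ⟨H, hH1, hH2, k, hk⟩ := hm (List.finRange m) (by rw [List.length_finRange])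
    (fun l => if h : l.length = n ∧ l.Nodup then κ (emb l h.1 h.2) else fun _ => ∅)
  obtain ⟨i, σ, hσ, hσ'⟩ := exists_rep H hH2 ((List.nodup_finRange m).sublist hH1)
  have hcol : ∀ x, κ (σ x) = k := by
    intro x
    obtain ⟨l, h1, h2, h3, h4⟩ := hσ' x
    have h5 := hk l h3 h1
    rw [dif_pos ⟨h1, h2⟩] at h5
    rw [h4]
    exact h5
  have hz := hM i σ hσ
  have hpart : part i (Z.flatMap Prod.snd) = Z.flatMap (fun z => part i z.2) := by
    unfold part
    rw [List.filter_flatMap, List.map_flatMap]
  rw [hpart, List.flatMap_assoc] at hz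
  -- membership in a block
  have hmem : ∀ z ∈ Z, ∀ x ∈ (part i z.2).flatMap (rho c σ),
      c x = z.1.1 ∧ (((z.1.1, σ x) : Lt A n m), i) ∈ z.2 := by
    intro z hz x hx
    obtain ⟨α, hα, hxα⟩ := List.mem_flatMap.1 hx
    rw [mem_rho] at hxα
    unfold part at hα
    obtain ⟨y, hy, rfl⟩ := List.mem_map.1 hα
    rw [List.mem_filter, decide_eq_true_iff] at hy
    have h1 : y.1 ∈ su n m z.1.1 := by
      rw [← hZ2 z hz]
      exact List.mem_map_of_mem hy.1
    rw [mem_su] at h1
    refine ⟨hxα.2.trans h1, ?_⟩
    have h2 : y = (((z.1.1, σ x) : Lt A n m), i) := by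
      refine Prod.ext (Prod.ext h1 hxα.1.symm) hy.2
    rw [← h2]
    exact hy.1
  refine hdis _ ?_ ⟨_, hz, rfl⟩
  refine ⟨Z.flatMap (fun z => ((part i z.2).flatMap (rho c σ)).map (fun x => (c x, z.1.2))),
    ?_, ?_, ?_⟩
  · rw [List.map_flatMap, List.map_flatMap]
    refine List.flatMap_congr fun z _ => ?_
    rw [List.map_map]
    rfl
  · intro y hy
    obtain ⟨z, hz, hy⟩ := List.mem_flatMap.1 hy
    obtain ⟨x, hx, rfl⟩ := List.mem_map.1 hy
    rw [(hmem z hz x hx).1]
    exact hfit z.1 (List.mem_map_of_mem hz)
  · rw [List.pairwise_flatMap]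
    rw [List.pairwise_map] at hpw
    constructor
    · intro z hz
      rw [List.pairwise_map]
      by_cases hs : isStar (e z.1.2)
      · refine List.pairwise_of_forall_mem_list fun _ _ _ _ => ?_
        exact ⟨fun h => absurd hs h, fun h => absurd hs h, fun _ h => absurd hs h,
          fun _ _ _ => le_refl _⟩
      · -- at most one letter
        have h1 : ∀ x ∈ (part i z.2).flatMap (rho c σ), ∀ x' ∈ (part i z.2).flatMap (rho c σ),
            x = x' := by
          intro x hx x' hx'
          have h2 : x' ∈ κ (σ x) z.1.2 := by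
            rw [hcol x, ← hcol x']
            refine ⟨z, hz, rfl, (hmem z hz x' hx').1, ?_⟩
            rw [hσ x']
            exact (hmem z hz x' hx').2
          obtain ⟨z', hz', h3, h4, h5⟩ := h2
          have h6 : z' = z := by
            by_contra hne
            have h7 : ∀ y ∈ Z, ∀ y' ∈ Z, y ≠ y' → y.1.2 = z.1.2 → y'.1.2 = z.1.2 → False := by
              intro y hy y' hy' hyy h8 h9
              let R : ((A × Fin N) × List (Lt A n m × Fin m)) →
                  ((A × Fin N) × List (Lt A n m × Fin m)) → Prop := fun y y' =>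
                y ≠ y' → y.1.2 = z.1.2 → y'.1.2 = z.1.2 → False
              have hR : Std.Symm R := ⟨fun y y' h a b c => h (Ne.symm a) c b⟩
              have h10 : Z.Pairwise R := by
                refine hpw.imp ?_
                intro y y' h _ h8 h9
                rw [h8, h9] at h
                exact lt_irrefl _ (h.1 hs hs)
              exact List.Pairwise.forall_of_forall (R := R) (fun y _ h => absurd rfl h) h10
                hy hy' hyy h8 h9
            exact h7 z' hz' z hz hne h3 rfl
          subst h6
          have h7 : (z'.2.map Prod.fst).Nodup := by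
            rw [hZ2 z' hz']
            exact nodup_su _
          have h8 := (hmem z' hz' x hx).2
          have h9 := List.inj_on_of_nodup_map h7 h5 h8 rfl
          rw [Prod.mk.injEq] at h9
          apply (σ x).injective
          rw [hσ x]
          exact h9.2.symm
        have h2 : ((part i z.2).flatMap (rho c σ)).Nodup := by
          rw [List.nodup_flatMap]
          refine ⟨fun α _ => nodup_rho, ?_⟩
          have h3 : (part i z.2).Nodup := by
            have h4 : (z.2.map Prod.fst).Nodup := by
              rw [hZ2 z hz]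
              exact nodup_su _
            exact h4.sublist ((List.filter_sublist).map _)
          refine h3.imp ?_
          intro α α' hne x hx hx'
          rw [mem_rho] at hx hx'
          exact hne (Prod.ext (hx.2.symm.trans hx'.2) (hx.1.symm.trans hx'.1))
        have h3 : ((part i z.2).flatMap (rho c σ)).length ≤ 1 := by
          match hh : (part i z.2).flatMap (rho c σ) with
          | [] => simp
          | [_] => simp
          | x :: y :: l =>
            exfalso
            rw [hh] at h1 h2
            have h4 := h1 x (by simp) y (by simp)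
            rw [List.nodup_cons] at h2
            exact h2.1 (by rw [h4]; simp)
        match hh : (part i z.2).flatMap (rho c σ), h3 with
        | [], _ => exact List.Pairwise.nil
        | [_], _ => exact List.pairwise_singleton _ _
    · refine hpw.imp ?_
      intro z z' hzz y hy y' hy'
      obtain ⟨x, _, rfl⟩ := List.mem_map.1 hy
      obtain ⟨x', _, rfl⟩ := List.mem_map.1 hy'
      exact hzz

end gadget

end Pool.Agent.ShufVar
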