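import Pool.Agent.ShufVar.Rename

/-!
MP_cf3bcc_lc: closure under shuffle and closure under surjective renamings.
-/

namespace Pool.Agent.ShufVar

/-- closed under surjective renamings of the letters -/
def RenamingClosed (V : PosVar) : Prop :=
  ∀ (X A : Type) [Finite X] [Finite A] (c : X → A), Function.Surjective c →
    ∀ M : Language X, M ∈ V.mem X → img c M ∈ V.mem A

section down

variable {A : Type} {n m : ℕ}

/-- the letter is present in the component `i` -/
def prs (c : Fin n → A) (i : Fin m) (α : Lt A n m) : Prop := ∃ x, α.2 x = i ∧ c x = α.1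

/-- the language of the component `i`, subword closed case -/
def RMd (c : Fin n → A) (M : Language (Fin n)) (i : Fin m) : Language (Lt A n m) :=
  {y | (∀ α ∈ y, prs c i α) ∧ y ∈ RM c M i}

theorem rmd_sub {c : Fin n → A} {M : Language (Fin n)} (hM : SubC M) (i : Fin m) :
    SubC (RMd c M i) := by
  intro u v hv hu
  exact ⟨fun α hα => hu.1 α (hv.subset hα), fun σ hσ =>
    hM _ _ (sublist_flatMap _ hv) (hu.2 σ hσ)⟩

theorem img_subd (c : Fin n → A) {M : Language (Fin n)} {u : List (Fin n)} (hu : u ∈ M) :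
    (u.map c).flatMap (su n m) ∈ ShufFam (fun i : Fin m => RMd c M i) := by
  refine ⟨u.flatMap (fun x => (su n m (c x)).map (fun α => (α, α.2 x))), ?_, ?_⟩
  · rw [List.map_flatMap, List.flatMap_map]
    refine List.flatMap_congr fun x _ => ?_
    rw [List.map_map]
    exact List.map_id _
  · intro i
    have hpart : part i (u.flatMap (fun x => (su n m (c x)).map (fun α => (α, α.2 x)))) =
        u.flatMap (fun x => (su n m (c x)).filter (fun α => α.2 x = i)) := by
      unfold part
      rw [List.filter_flatMap, List.map_flatMap]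
      refine List.flatMap_congr fun x _ => ?_
      rw [List.filter_map, List.map_map]
      exact List.map_id _
    rw [hpart]
    constructor
    · intro α hα
      obtain ⟨x, _, hα⟩ := List.mem_flatMap.1 hα
      rw [List.mem_filter, decide_eq_true_iff, mem_su] at hα
      exact ⟨x, hα.2, hα.1.symm⟩
    · intro σ hσ
      rw [List.flatMap_assoc]
      have h1 : u.flatMap (fun x => ((su n m (c x)).filter (fun α => α.2 x = i)).flatMap
          (rho c σ)) = u.flatMap (fun x => [x]) := List.flatMap_congr fun x _ => rho_block c hσ x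
      rw [h1, List.flatMap_singleton']
      exact hu

/-- the main step: subword closed case -/
theorem gadget_down (c : Fin n → A) {M : Language (Fin n)} {N : ℕ}
    (hm : RamseyProp (Fin m) (Fin N → Set (Fin n)) n (2 * n + 1) m) {w : List A}
    (hN : w.length ≤ N) (hw : w.flatMap (su n m) ∈ ShufFam (fun i : Fin m => RMd c M i)) :
    w ∈ img c M := by
  classical
  obtain ⟨W, hW, hM⟩ := hw
  obtain ⟨Wl, rfl, hpw⟩ : ∃ Wl : List (A × Fin N), Wl.map Prod.fst = w ∧
      Wl.Pairwise (fun x y => x.2 < y.2) := by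
    refine ⟨(List.finRange w.length).map (fun t => (w.get t, Fin.castLE hN t)), ?_, ?_⟩
    · rw [List.map_map]
      have h1 : (Prod.fst ∘ fun t => (w.get t, Fin.castLE hN t)) = w.get := rfl
      rw [h1, ← List.ofFn_eq_map, List.ofFn_get]
    · rw [List.pairwise_map]
      refine (List.pairwise_lt_finRange w.length).imp ?_
      intro t t' h
      exact h
  rw [List.flatMap_map] at hW
  obtain ⟨Z, rfl, rfl, hZ2⟩ := exists_blocks (fun p : A × Fin N => su n m p.1) Prod.fst Wl W hW
  set κ : (Fin n ↪ Fin m) → Fin N → Set (Fin n) := fun s l =>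
    {x | ∃ z ∈ Z, z.1.2 = l ∧ c x = z.1.1 ∧ (((z.1.1, s) : Lt A n m), s x) ∈ z.2} with hκ
  obtain ⟨H, hH1, hH2, k, hk⟩ := hm (List.finRange m) (by rw [List.length_finRange])
    (fun l => if h : l.length = n ∧ l.Nodup then κ (emb l h.1 h.2) else fun _ => ∅)
  obtain ⟨i, σ, hσ, hσ'⟩ := exists_rep H hH2 ((List.nodup_finRange m).sublist hH1)
  have hcol : ∀ x, κ (σ x) = k := by
    intro x
    obtain ⟨l, h1, h2, h3, h4⟩ := hσ' x
    have h5 := hk l h3 h1
    rw [dif_pos ⟨h1, h2⟩] at h5
    rw [h4]
    exact h5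
  have hz := (hM i).2 σ hσ
  have hpart : part i (Z.flatMap Prod.snd) = Z.flatMap (fun z => part i z.2) := by
    unfold part
    rw [List.filter_flatMap, List.map_flatMap]
  rw [hpart, List.flatMap_assoc] at hz
  have hmem : ∀ z ∈ Z, ∀ x ∈ (part i z.2).flatMap (rho c σ),
      c x = z.1.1 ∧ (((z.1.1, σ x) : Lt A n m), i) ∈ z.2 := by
    intro z hz x hx
    obtain ⟨α, hα, hxα⟩ := List.mem_flatMap.1 hx
    rw [mem_rho] at hxα
    unfold part at hα
    obtain ⟨y, hy, rfl⟩ := List.mem_map.1 hα
    rw [List.mem_filter, decide_eq_true_iff] at hy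
    have h1 : y.1 ∈ su n m z.1.1 := by
      rw [← hZ2 z hz]
      exact List.mem_map_of_mem hy.1
    rw [mem_su] at h1
    refine ⟨hxα.2.trans h1, ?_⟩
    have h2 : y = (((z.1.1, σ x) : Lt A n m), i) := by
      refine Prod.ext (Prod.ext h1 hxα.1.symm) hy.2
    rw [← h2]
    exact hy.1
  rw [List.pairwise_map] at hpw
  have huniq : ∀ z ∈ Z, ∀ z' ∈ Z, z'.1.2 = z.1.2 → z' = z := by
    intro z hz z' hz' heq
    by_contra hne
    let R : ((A × Fin N) × List (Lt A n m × Fin m)) →
        ((A × Fin N) × List (Lt A n m × Fin m)) → Prop := fun y y' =>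
      y ≠ y' → y.1.2 ≠ y'.1.2
    have hR : Std.Symm R := ⟨fun y y' h a b => h (Ne.symm a) b.symm⟩
    have h10 : Z.Pairwise R := by
      refine hpw.imp ?_
      intro y y' h _
      exact ne_of_lt h
    exact List.Pairwise.forall_of_forall (R := R) (fun y _ h => absurd rfl h) h10
      hz' hz hne heq
  have hblock : ∀ z ∈ Z, ((part i z.2).flatMap (rho c σ)).map c = [z.1.1] := by
    intro z hz
    have h1 : ∀ x ∈ (part i z.2).flatMap (rho c σ), ∀ x' ∈ (part i z.2).flatMap (rho c σ),
        x = x' := by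
      intro x hx x' hx'
      have h2 : x' ∈ κ (σ x) z.1.2 := by
        rw [hcol x, ← hcol x']
        refine ⟨z, hz, rfl, (hmem z hz x' hx').1, ?_⟩
        rw [hσ x']
        exact (hmem z hz x' hx').2
      obtain ⟨z', hz', h3, h4, h5⟩ := h2
      have h6 : z' = z := huniq z hz z' hz' h3
      subst h6
      have h7 : (z'.2.map Prod.fst).Nodup := by
        rw [hZ2 z' hz']
        exact nodup_su _
      have h8 := (hmem z' hz' x hx).2
      have h9 := List.inj_on_of_nodup_map h7 h5 h8 rfl
      rw [Prod.mk.injEq] at h9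
      apply (σ x).injective
      rw [hσ x]
      exact h9.2.symm
    have h2 : ((part i z.2).flatMap (rho c σ)).Nodup := by
      rw [List.nodup_flatMap]
      refine ⟨fun α _ => nodup_rho, ?_⟩
      have h3 : (part i z.2).Nodup := by
        have h4 : (z.2.map Prod.fst).Nodup := by
          rw [hZ2 z hz]
          exact nodup_su _
        exact h4.sublist ((List.filter_sublist).map _)
      refine h3.imp ?_
      intro α α' hne x hx hx'
      rw [mem_rho] at hx hx'
      exact hne (Prod.ext (hx.2.symm.trans hx'.2) (hx.1.symm.trans hx'.1))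
    -- at least one letter
    have hpres : ∀ s : Fin n ↪ Fin m, ∃ x, x ∈ κ s z.1.2 := by
      intro s
      have h3 : ((z.1.1, s) : Lt A n m) ∈ z.2.map Prod.fst := by
        rw [hZ2 z hz, mem_su]
      obtain ⟨y, hy, hy1⟩ := List.mem_map.1 h3
      have h4 : y.1 ∈ part y.2 (Z.flatMap Prod.snd) := by
        unfold part
        rw [List.mem_map]
        refine ⟨y, ?_, rfl⟩
        rw [List.mem_filter, decide_eq_true_iff]
        exact ⟨List.mem_flatMap.2 ⟨z, hz, hy⟩, rfl⟩
      obtain ⟨x, hx1, hx2⟩ := (hM y.2).1 y.1 h4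
      rw [hy1] at hx1 hx2
      refine ⟨x, z, hz, rfl, hx2, ?_⟩
      have h5 : y = (((z.1.1, s) : Lt A n m), s x) := Prod.ext hy1 hx1.symm
      rw [← h5]
      exact hy
    obtain ⟨x, hx⟩ : ∃ x, x ∈ (part i z.2).flatMap (rho c σ) := by
      obtain ⟨x₁⟩ : Nonempty (Fin n) := by
        by_contra hemp
        rw [not_nonempty_iff] at hemp
        obtain ⟨x, _⟩ := hpres Function.Embedding.ofIsEmpty
        exact hemp.false x
      obtain ⟨x, hx⟩ := hpres (σ x₁)
      rw [hcol x₁, ← hcol x] at hx
      obtain ⟨z', hz', h3, h4, h5⟩ := hx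
      have h6 : z' = z := huniq z hz z' hz' h3
      subst h6
      refine ⟨x, List.mem_flatMap.2 ⟨(z'.1.1, σ x), ?_, mem_rho.2 ⟨rfl, h4⟩⟩⟩
      rw [hσ x] at h5
      unfold part
      rw [List.mem_map]
      exact ⟨_, List.mem_filter.2 ⟨h5, by simp⟩, rfl⟩
    have h3 : (part i z.2).flatMap (rho c σ) = [x] := by
      match hh : (part i z.2).flatMap (rho c σ) with
      | [] => rw [hh] at hx; simp at hx
      | [y] =>
        rw [hh] at hx
        rw [List.mem_singleton] at hx
        rw [hx]
      | x :: y :: l =>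
        exfalso
        rw [hh] at h1 h2
        have h4 := h1 x (by simp) y (by simp)
        rw [List.nodup_cons] at h2
        exact h2.1 (by rw [h4]; simp)
    rw [h3, List.map_singleton, (hmem z hz x hx).1]
  refine ⟨_, hz, ?_⟩
  rw [List.map_flatMap]
  rw [List.flatMap_congr (fun z hz => hblock z hz)]
  rw [List.map_map, List.map_eq_flatMap]
  rfl

end down

end Pool.Agent.ShufVar
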