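import Pool.Agent.ShufVar.RenameB

/-!
MP_cf3bcc_lc: closure under shuffle and closure under surjective renamings: conclusion.
-/

namespace Pool.Agent.ShufVar

theorem subC_compl {A : Type} {L : Language A}
    (h : ∀ u v : List A, u.Sublist v → u ∈ L → v ∈ L) : SubC (Lᶜ : Language A) :=
  fun u v hv hu hvL => hu (h v u hv hvL)

/-- the image of a language of a variety closed under shuffle is in the variety if it is superword
closed; alphabet `Fin n` -/
theorem img_mem_fin {V : PosVar} (hV : ShuffleClosed V) {A : Type} [Finite A] {n : ℕ}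
    (c : Fin n → A) {M : Language (Fin n)} (hM : M ∈ V.mem (Fin n))
    (hup : ∀ u v : List A, u.Sublist v → u ∈ img c M → v ∈ img c M) : img c M ∈ V.mem A := by
  have hreg := isRegular_img c (V.regular _ _ hM)
  obtain ⟨E, hE⟩ := exists_decomp (Language.IsRegular.compl hreg) (subC_compl hup)
  have key : ∀ x : {x : Expr A // x ∈ E}, ∃ L ∈ V.mem A, (∀ w ∈ img c M, w ∈ L) ∧
      ∀ w ∈ Cl full x.1.2, w ∉ L := by
    rintro ⟨x, hx⟩
    obtain ⟨m, hm⟩ := ramsey (Fin x.1 → Set (Fin n)) n (2 * n + 1)
    refine ⟨_, V.inv A (Lt A n (m + 1)) (su n (m + 1)) _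
      (shufFam_mem' hV m (fun i => RM c M i) (fun i => rm_mem c hM i)), ?_, ?_⟩
    · rintro w ⟨u, hu, rfl⟩
      exact img_sub c hu
    · intro w hw
      refine gadget_up c x.2 ?_ ((hm _).mono (Nat.le_succ m)) hw
      intro v hv
      exact (hE v).2 ⟨x, hx, hv⟩
  choose L h1 h2 h3 using key
  have hfin : Finite {x : Expr A // x ∈ E} := (List.finite_toSet E).to_subtype
  have h4 := forall_mem L h1
  suffices hEq : img c M = ({w | ∀ i, w ∈ L i} : Language A) by rw [hEq]; exact h4
  ext w
  constructor
  · intro hw i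
    exact h2 i w hw
  · intro hw
    by_contra hcon
    obtain ⟨x, hx, hwx⟩ := (hE w).1 hcon
    exact h3 ⟨x, hx⟩ w hwx (hw ⟨x, hx⟩)

theorem img_equiv {X Y A : Type} (ε : X ≃ Y) (c : X → A) (M : Language X) :
    img (fun j => c (ε.symm j)) (inv (fun j => [ε.symm j]) M) = img c M := by
  have hm : ∀ v : List Y, v.flatMap (fun j => [ε.symm j]) = v.map ε.symm := fun v =>
    List.map_eq_flatMap.symm
  ext w
  constructor
  · rintro ⟨v, hv, rfl⟩
    have hv' : v.flatMap (fun j => [ε.symm j]) ∈ M := hv
    rw [hm] at hv'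
    exact ⟨_, hv', by rw [List.map_map]; rfl⟩
  · rintro ⟨u, hu, rfl⟩
    have h1 : (u.map ε).map ε.symm = u := by
      rw [List.map_map, Equiv.symm_comp_self, List.map_id]
    refine ⟨u.map ε, ?_, ?_⟩
    · change (u.map ε).flatMap (fun j => [ε.symm j]) ∈ M
      rw [hm, h1]
      exact hu
    · conv_rhs => rw [← h1]
      rw [List.map_map, List.map_map, List.map_map]
      refine List.map_congr_left fun x _ => ?_
      simp

/-- the image of a language of a variety closed under shuffle is in the variety if it is superword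
closed -/
theorem img_mem_up {V : PosVar} (hV : ShuffleClosed V) {X A : Type} [Finite X] [Finite A]
    (c : X → A) {M : Language X} (hM : M ∈ V.mem X)
    (hup : ∀ u v : List A, u.Sublist v → u ∈ img c M → v ∈ img c M) : img c M ∈ V.mem A := by
  obtain ⟨n, ⟨ε⟩⟩ := Finite.exists_equiv_fin X
  have h1 := img_equiv ε c M
  rw [← h1] at hup ⊢
  exact img_mem_fin hV _ (V.inv _ _ _ _ hM) hup

theorem lift_sub {X A : Type} {c : X → A} (hc : Function.Surjective c) : ∀ (v : List A)
    (u : List X), (u.map c).Sublist v → ∃ u', u.Sublist u' ∧ u'.map c = v := by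
  intro v
  induction v with
  | nil =>
    intro u h
    rw [List.sublist_nil, List.map_eq_nil_iff] at h
    subst h
    exact ⟨[], List.Sublist.refl _, rfl⟩
  | cons b v ih =>
    intro u h
    rcases List.sublist_cons_iff.1 h with h | ⟨r, h1, h2⟩
    · obtain ⟨u', h3, rfl⟩ := ih u h
      obtain ⟨x, rfl⟩ := hc b
      exact ⟨x :: u', h3.cons x, rfl⟩
    · obtain ⟨x, u₁, rfl, h3, h4⟩ := List.map_eq_cons_iff.1 h1
      rw [← h4] at h2
      obtain ⟨u', h5, rfl⟩ := ih u₁ h2
      exact ⟨x :: u', h5.cons_cons x, by rw [List.map_cons, h3]⟩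

theorem img_up {X A : Type} {c : X → A} (hc : Function.Surjective c) {M : Language X}
    (hM : ∀ u v : List X, u.Sublist v → u ∈ M → v ∈ M) :
    ∀ u v : List A, u.Sublist v → u ∈ img c M → v ∈ img c M := by
  rintro _ v hv ⟨u, hu, rfl⟩
  obtain ⟨u', h1, rfl⟩ := lift_sub hc v u hv
  exact ⟨u', hM _ _ h1 hu, rfl⟩

theorem img_down {X A : Type} (c : X → A) {M : Language X} (hM : SubC M) : SubC (img c M) := by
  rintro _ v hv ⟨u, hu, rfl⟩
  obtain ⟨u', h1, rfl⟩ := List.sublist_map_iff.1 hv
  exact ⟨u', hM _ _ h1 hu, rfl⟩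

theorem prs_mem {V : PosVar} (h1 : ({w | w = []} : Language Unit) ∈ V.mem Unit) (B : Type)
    [Finite B] (P : B → Prop) : ({w | ∀ c ∈ w, P c} : Language B) ∈ V.mem B := by
  classical
  have h2 := V.inv B Unit (fun c => if P c then [] else [()]) _ h1
  suffices hEq : ({w | ∀ c ∈ w, P c} : Language B) =
      inv (fun c => if P c then [] else [()]) ({w | w = []} : Language Unit) by rw [hEq]; exact h2
  ext w
  change (∀ c ∈ w, P c) ↔ w.flatMap (fun c => if P c then [] else [()]) = []
  rw [List.flatMap_eq_nil_iff]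
  refine forall₂_congr fun c _ => ?_
  by_cases h : P c
  · simp [h]
  · simp [h]

theorem img_mem_down {V : PosVar} (hV : ShuffleClosed V)
    (h1 : ({w | w = []} : Language Unit) ∈ V.mem Unit) {A : Type} [Finite A] {n : ℕ}
    (c : Fin n → A) {M : Language (Fin n)} (hM : M ∈ V.mem (Fin n)) (hs : SubC M) :
    img c M ∈ V.mem A := by
  obtain ⟨k, hk⟩ := exists_minor_bound (C := img c M)
  obtain ⟨m, hm⟩ := ramsey (Fin k → Set (Fin n)) n (2 * n + 1)
  have h2 := V.inv A (Lt A n (m + 1)) (su n (m + 1)) _
      (shufFam_mem' hV m (fun i => RMd c M i) (fun i =>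
        V.inter _ _ _ (prs_mem h1 _ (prs c i)) (rm_mem c hM i)))
  suffices hEq : img c M = inv (su n (m + 1)) (ShufFam (fun i : Fin (m + 1) => RMd c M i)) by
    rw [hEq]; exact h2
  ext w
  constructor
  · rintro ⟨u, hu, rfl⟩
    exact img_subd c hu
  · intro hw
    by_contra hcon
    obtain ⟨w', h3, h4, h5⟩ := hk w hcon
    apply h4
    refine gadget_down c ((hm _).mono (Nat.le_succ m)) h5 ?_
    exact shufFam_sub (fun i => rmd_sub hs i) _ _ (sublist_flatMap _ h3) hw

/-! ### shuffles from renamings -/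

/-- the letters of the left alphabet -/
def lw {A : Type} : A ⊕ A → List A
  | .inl a => [a]
  | .inr _ => []

/-- the letters of the right alphabet -/
def rw' {A : Type} : A ⊕ A → List A
  | .inl _ => []
  | .inr a => [a]

theorem sh_iff_sum {A : Type} {u v w : List A} : Sh u v w ↔ ∃ z : List (A ⊕ A),
    z.map (Sum.elim id id) = w ∧ z.flatMap lw = u ∧ z.flatMap rw' = v := by
  constructor
  · intro h
    induction h with
    | nil => exact ⟨[], rfl, rfl, rfl⟩
    | left c _ ih =>
      obtain ⟨z, rfl, rfl, rfl⟩ := ih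
      exact ⟨Sum.inl c :: z, rfl, rfl, rfl⟩
    | right c _ ih =>
      obtain ⟨z, rfl, rfl, rfl⟩ := ih
      exact ⟨Sum.inr c :: z, rfl, rfl, rfl⟩
  · rintro ⟨z, rfl, rfl, rfl⟩
    induction z with
    | nil => exact Sh.nil
    | cons x z ih =>
      cases x with
      | inl c => exact Sh.left c ih
      | inr c => exact Sh.right c ih

theorem shuffle_of_renaming {V : PosVar} (hV : RenamingClosed V) : ShuffleClosed V := by
  intro A _ L M hL hM
  have h1 := V.inter (A ⊕ A) _ _ (V.inv (A ⊕ A) A lw L hL) (V.inv (A ⊕ A) A rw' M hM)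
  have h2 := hV (A ⊕ A) A (Sum.elim id id) (fun c => ⟨Sum.inl c, rfl⟩) _ h1
  suffices hEq : shuf L M = img (Sum.elim id id)
      ({w | w ∈ inv lw L ∧ w ∈ inv rw' M} : Language (A ⊕ A)) by rw [hEq]; exact h2
  ext w
  constructor
  · intro hw
    obtain ⟨u, hu, v, hv, hs⟩ := mem_shuf.1 hw
    obtain ⟨z, rfl, rfl, rfl⟩ := sh_iff_sum.1 hs
    exact ⟨z, ⟨hu, hv⟩, rfl⟩
  · rintro ⟨z, ⟨hu, hv⟩, rfl⟩
    exact mem_shuf.2 ⟨_, hu, _, hv, sh_iff_sum.2 ⟨z, rfl, rfl, rfl⟩⟩

/-- the theorem -/
theorem renaming_iff {V : PosVar} (h : SuperwordClosed V ∨ SubwordClosed V) :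
    ShuffleClosed V ↔ RenamingClosed V := by
  refine ⟨fun hV => ?_, shuffle_of_renaming⟩
  intro X A _ _ c hc M hM
  rcases h with h | h
  · exact img_mem_up hV c hM (img_up hc (h X M hM))
  · by_cases h1 : ({w | w = []} : Language Unit) ∈ V.mem Unit
    · obtain ⟨n, ⟨ε⟩⟩ := Finite.exists_equiv_fin X
      rw [← img_equiv ε c M]
      have h2 := V.inv (Fin n) X (fun j => [ε.symm j]) M hM
      exact img_mem_down hV h1 _ h2 (h _ _ h2)
    · -- only trivial languages
      have htriv : ∀ u v : List X, u ∈ M → v ∈ M := by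
        intro u v hu
        by_contra hv
        apply h1
        have h2 := V.inv Unit X (fun _ => v) M hM
        suffices hEq : ({w | w = []} : Language Unit) = inv (fun _ => v) M by rw [hEq]; exact h2
        have h3 : ([] : List X) ∈ M := h X M hM u [] (List.nil_sublist _) hu
        ext w
        constructor
        · intro hw
          have hw' : w = [] := hw
          rw [hw']
          exact h3
        · intro hw
          cases w with
          | nil => rfl
          | cons t w =>
            exfalso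
            apply hv
            have hw' : (t :: w).flatMap (fun _ => v) ∈ M := hw
            rw [List.flatMap_cons] at hw'
            exact h X M hM _ _ (List.sublist_append_left _ _) hw'
      by_cases hne : ∃ u, u ∈ M
      · obtain ⟨u, hu⟩ := hne
        suffices hEq : img c M = ({w | True} : Language A) by rw [hEq]; exact V.univ A
        ext w
        constructor
        · intro _; trivial
        · intro _
          obtain ⟨v, -, rfl⟩ := lift_sub hc w [] (List.nil_sublist _)
          exact ⟨v, htriv u v hu, rfl⟩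
      · suffices hEq : img c M = ({w | False} : Language A) by rw [hEq]; exact V.empty A
        ext w
        constructor
        · rintro ⟨u, hu, -⟩
          exact hne ⟨u, hu⟩
        · intro hf; exact hf.elim

end Pool.Agent.ShufVar
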